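import Pool.Agent.MP42.V.Run

/-!
# The closed curve of a cell curve with leaning facets and its layout
-/

set_option autoImplicit false
set_option linter.unusedSectionVars false

namespace Pool.Agent.Helper55.UNF

namespace GridSolid

namespace VCurve

variable {P : GridSolid} (A : P.VCurve)

/-- oriented runs -/
def OR := {f : P.Facet // (A.τ f).wp = true} × Bool

instance : Finite A.OR := inferInstanceAs (Finite ({f : P.Facet // (A.τ f).wp = true} × Bool))

variable {A}

/-- the run of an oriented run -/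
def OR.run (a : A.OR) : P.Facet := a.1.1

/-- the reversed run -/
def OR.rev (a : A.OR) : A.OR := (a.1, !a.2)

/-- the oriented facet where an oriented run is entered -/
noncomputable def OR.inS (a : A.OR) : P.FSt :=
  if a.2 then A.can a.run else (A.can (A.ex a.run)).r2

/-- the oriented facet where an oriented run is left -/
noncomputable def OR.outS (a : A.OR) : P.FSt :=
  if a.2 then A.can (A.ex a.run) else (A.can a.run).r2

lemma OR.outS_eq (a : A.OR) : a.outS = (pN ^ A.x a.run) a.inS := by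
  obtain ⟨⟨f, hf⟩, σ⟩ := a
  have h := (A.run_end hf).1
  cases σ
  · show (A.can f).r2 = (pN ^ A.x f) ((A.can (A.ex f)).r2)
    rw [FSt.stN_r2_pow, ← h, ← Equiv.Perm.mul_apply, ← zpow_add]
    simp
  · show A.can (A.ex f) = (pN ^ A.x f) (A.can f)
    exact h.symm

lemma OR.outS_rev (a : A.OR) : a.rev.outS = a.inS.r2 := by
  obtain ⟨⟨f, hf⟩, σ⟩ := a
  cases σ
  · show A.can (A.ex f) = (A.can (A.ex f)).r2.r2
    simp
  · rfl

lemma OR.inS_rev (a : A.OR) : a.rev.inS = a.outS.r2 := by
  obtain ⟨⟨f, hf⟩, σ⟩ := a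
  cases σ
  · show A.can f = (A.can f).r2.r2
    simp
  · rfl

lemma OR.rev_rev (a : A.OR) : a.rev.rev = a := by
  obtain ⟨f, σ⟩ := a
  simp [OR.rev]

lemma OR.rev_ne (a : A.OR) : a.rev ≠ a := by
  obtain ⟨f, σ⟩ := a
  intro h
  have := congrArg Prod.snd h
  cases σ <;> simp [OR.rev] at this

lemma ex_inj {f g : P.Facet} (hf : (A.τ f).wp = true) (hg : (A.τ g).wp = true)
    (h : A.ex f = A.ex g) : f = g := by
  rw [← (A.run_end hf).2.2.1, ← (A.run_end hg).2.2.1, h]

lemma OR.inS_inj {a b : A.OR} (h : a.inS = b.inS) : a = b := by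
  obtain ⟨⟨f, hf⟩, σ⟩ := a
  obtain ⟨⟨g, hg⟩, ρ⟩ := b
  cases σ <;> cases ρ
  · have h' : (A.can (A.ex f)).r2 = (A.can (A.ex g)).r2 := h
    have h2 := congrArg FSt.r2 h'
    simp only [FSt.r2_r2] at h2
    have := ex_inj hf hg (A.can_inj h2)
    subst this; rfl
  · exact absurd h.symm (can_ne_r2 g (A.ex f))
  · exact absurd h (can_ne_r2 f (A.ex g))
  · have h' : A.can f = A.can g := h
    have := A.can_inj h'
    subst this; rfl

lemma OR.outS_inj {a b : A.OR} (h : a.outS = b.outS) : a = b := by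
  have h1 : a.rev.inS = b.rev.inS := by rw [OR.inS_rev, OR.inS_rev, h]
  have h2 := OR.inS_inj h1
  rw [← OR.rev_rev a, h2, OR.rev_rev]

/-- the run with a given east end -/
lemma exists_run {g : P.Facet} (hg : (A.τ g).ep = true) :
    ∃ r : {f : P.Facet // (A.τ f).wp = true}, A.ex r.1 = g :=
  ⟨⟨A.ρ g, (A.can_eq (A.reg_of (fun h' => by rw [h'] at hg; simp [Ty.ep] at hg))).2⟩,
    A.ex_ρ hg⟩

lemma OR.exists_nxt (a : A.OR) : ∃ b : A.OR, a.outS.stE = b.inS := by
  obtain ⟨⟨f, hf⟩, σ⟩ := a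
  cases σ
  · rcases A.hW f hf with ⟨g, h1, h2⟩ | ⟨g, h1, h2⟩
    · obtain ⟨r, hr⟩ := exists_run h2
      refine ⟨(r, false), ?_⟩
      show (A.can f).r2.stE = (A.can (A.ex r.1)).r2
      rw [hr, ← h1, FSt.stE_inv]
    · exact ⟨(⟨g, h2⟩, true), h1⟩
  · rcases A.hE (A.ex f) (A.run_end hf).2.1 with ⟨g, h1, h2⟩ | ⟨g, h1, h2⟩
    · exact ⟨(⟨g, h2⟩, true), h1⟩
    · obtain ⟨r, hr⟩ := exists_run h2
      refine ⟨(r, false), ?_⟩
      show (A.can (A.ex f)).stE = (A.can (A.ex r.1)).r2
      rw [hr, h1]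

/-- the next oriented run -/
noncomputable def OR.nxt (a : A.OR) : A.OR := Classical.choose a.exists_nxt

lemma OR.nxt_spec (a : A.OR) : a.outS.stE = a.nxt.inS := Classical.choose_spec a.exists_nxt

lemma OR.nxt_unique {a b : A.OR} (h : a.outS.stE = b.inS) : a.nxt = b :=
  OR.inS_inj (by rw [← a.nxt_spec, h])

lemma OR.nxt_injective : Function.Injective (OR.nxt : A.OR → A.OR) := by
  intro a b h
  apply OR.outS_inj
  apply (pE : Equiv.Perm P.FSt).injective
  show a.outS.stE = b.outS.stE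
  rw [a.nxt_spec, b.nxt_spec, h]

lemma OR.nxt_rev (a : A.OR) : a.nxt.rev.nxt = a.rev := by
  apply OR.nxt_unique
  rw [OR.outS_rev, ← a.nxt_spec, FSt.stE_inv, OR.inS_rev]

variable (A) in
/-- the next oriented run, as a permutation -/
noncomputable def pX : Equiv.Perm A.OR :=
  Equiv.ofBijective OR.nxt (Finite.injective_iff_bijective.1 OR.nxt_injective)

lemma pX_apply (a : A.OR) : pX A a = a.nxt := rfl

lemma pX_rev (a : A.OR) : pX A ((pX A a).rev) = a.rev := a.nxt_rev

lemma pX_pow_rev (j : ℕ) (a : A.OR) : (pX A ^ j) (((pX A ^ j) a).rev) = a.rev := by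
  induction j generalizing a with
  | zero => rfl
  | succ j ih =>
    have h1 : (pX A ^ (j + 1)) a = (pX A ^ j) (pX A a) := by rw [pow_succ]; rfl
    have h2 : ∀ b, (pX A ^ (j + 1)) b = pX A ((pX A ^ j) b) := by
      intro b; rw [pow_succ']; rfl
    rw [h2, h1, ih, pX_rev]

/-- A run and its reverse are never on the same oriented curve. -/
lemma rev_not_mem (a : A.OR) (m : ℕ) : (pX A ^ m) a ≠ a.rev := by
  intro h
  rcases Nat.even_or_odd m with ⟨j, hj⟩ | ⟨j, hj⟩
  · -- m = 2 j
    have h1 : (pX A ^ m) a = (pX A ^ j) ((pX A ^ j) a) := by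
      rw [hj, pow_add]; rfl
    have h2 := pX_pow_rev j a
    rw [← h, h1] at h2
    have h3 := (pX A ^ j).injective h2
    exact OR.rev_ne _ h3
  · -- m = 2 j + 1
    have h1 : (pX A ^ m) a = (pX A ^ j) (pX A ((pX A ^ j) a)) := by
      rw [hj, two_mul, add_assoc, pow_add, pow_succ']; rfl
    have h2 := pX_pow_rev j a
    rw [← h, h1] at h2
    have h3 := (pX A ^ j).injective h2
    set z := (pX A ^ j) a
    have h4 : z.outS.stE = z.rev.inS := by
      rw [z.nxt_spec]; exact congrArg OR.inS h3.symm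
    rw [OR.inS_rev] at h4
    have h5 := congrArg FSt.facet h4
    exact FSt.stE_facet_ne _ h5

variable (A) in
/-- the run `r` is met by the curve through `a` -/
def Met (a : A.OR) (r : P.Facet) : Prop := ∃ j : ℕ, ((pX A ^ j) a).run = r

lemma zpow_to_pow {X : Type*} [Finite X] (π : Equiv.Perm X) (z : ℤ) (a : X) :
    ∃ j : ℕ, (π ^ j) a = (π ^ z) a := by
  have ho : 0 < orderOf π := orderOf_pos _
  refine ⟨(z + orderOf π * |z|).toNat, ?_⟩
  have h0 : 0 ≤ z + orderOf π * |z| := by
    have h1 : (1 : ℤ) ≤ orderOf π := by exact_mod_cast ho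
    have h2 := neg_abs_le z
    nlinarith [abs_nonneg z]
  rw [← zpow_natCast, Int.toNat_of_nonneg h0, zpow_add, zpow_mul, zpow_natCast,
    pow_orderOf_eq_one, one_zpow, mul_one]

lemma met_of_mem {a b : A.OR} (z : ℤ) (h : (pX A ^ z) a = b) : Met A a b.run := by
  obtain ⟨j, hj⟩ := zpow_to_pow (pX A) z a
  exact ⟨j, by rw [hj, h]⟩

/-- the curve is closed under linking -/
lemma met_nxt (a c : A.OR) : Met A a c.run ↔ Met A a c.nxt.run := by
  have key : ∀ b : A.OR, b.run = c.run → b = c ∨ b = c.rev := by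
    intro b hb
    obtain ⟨⟨f, hf⟩, σ⟩ := b
    obtain ⟨⟨g, hg⟩, ρ⟩ := c
    have : f = g := hb
    subst this
    cases σ <;> cases ρ <;> simp [OR.rev]
  have key2 : ∀ b : A.OR, b.run = c.nxt.run → b = c.nxt ∨ b = c.nxt.rev := by
    intro b hb
    obtain ⟨⟨f, hf⟩, σ⟩ := b
    generalize c.nxt = d at hb ⊢
    obtain ⟨⟨g, hg⟩, ρ⟩ := d
    have : f = g := hb
    subst this
    cases σ <;> cases ρ <;> simp [OR.rev]
  constructor
  · rintro ⟨j, hj⟩
    rcases key _ hj with h | h
    · refine ⟨j + 1, ?_⟩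
      rw [pow_succ', Equiv.Perm.mul_apply, h]; rfl
    · -- predecessor of the reverse
      have h2 : pX A c.nxt.rev = c.rev := c.nxt_rev
      have h3 : (pX A ^ ((j : ℤ) - 1)) a = c.nxt.rev := by
        apply (pX A).injective
        rw [h2, ← h, ← Equiv.Perm.mul_apply, ← zpow_one_add, ← zpow_natCast]
        congr 2
        ring
      have h4 := met_of_mem _ h3
      exact h4
  · rintro ⟨j, hj⟩
    rcases key2 _ hj with h | h
    · have h3 : (pX A ^ ((j : ℤ) - 1)) a = c := by
        apply (pX A).injective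
        show _ = c.nxt
        rw [← h, ← Equiv.Perm.mul_apply, ← zpow_one_add, ← zpow_natCast]
        congr 2
        ring
      exact met_of_mem _ h3
    · refine ⟨j + 1, ?_⟩
      rw [pow_succ', Equiv.Perm.mul_apply, h]
      show c.nxt.rev.nxt.run = c.run
      rw [c.nxt_rev]
      rfl

/-- every run is met -/
lemma met_all (a : A.OR) (r : P.Facet) (hr : (A.τ r).wp = true) : Met A a r := by
  have hstep : ∀ f g : P.Facet, A.ρ f = A.ρ g → (Met A a (A.ρ f) ↔ Met A a (A.ρ g)) := by
    intro f g h; rw [h]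
  have h := A.conn (fun f => Met A a (A.ρ f)) ?_ ?_ ?_ ?_ ?_ a.run r ?_ ?_
  · have e1 : A.ρ a.run = a.run := (A.base_of_wp a.1.2).1
    have e2 : A.ρ r = r := (A.base_of_wp hr).1
    rw [e1, e2] at h
    exact h.1 ⟨0, rfl⟩
  · intro f g h1 h2
    apply hstep
    obtain ⟨g', k1, -, k3, -⟩ := A.north_of_goN h2
    have : g' = g := A.can_inj (by rw [← k1, h1])
    rw [← this, k3]
  · intro f g h1 h2
    apply hstep
    obtain ⟨g', -, k1, k2, -⟩ := A.stepU (A.reg_frN h2) (A.not_PD_of_frN h2) (A.wp_of_frN h2)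
    have : g' = g := A.can_inj (by rw [← k1, h1])
    rw [← this, k2]
  · -- east, same orientation
    intro f g h1 h2
    have hg : (A.τ g).wp = true := by
      rcases A.hE f h2 with ⟨g', k1, k2⟩ | ⟨g', k1, -⟩
      · have : g' = g := A.can_inj (by rw [← k1, h1])
        rw [← this]; exact k2
      · exact absurd (by rw [← h1, k1]) (can_ne_r2 g g')
    obtain ⟨r', hr'⟩ := exists_run h2
    have hρ : A.ρ f = r'.1 := by rw [← hr', (A.run_end r'.2).2.2.1]
    have hn : OR.nxt ((r', true) : A.OR) = (⟨g, hg⟩, true) := by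
      apply OR.nxt_unique
      show (A.can (A.ex r'.1)).stE = A.can g
      rw [hr', h1]
    have := met_nxt a ((r', true) : A.OR)
    rw [hn] at this
    show Met A a (A.ρ f) ↔ Met A a (A.ρ g)
    rw [hρ, (A.base_of_wp hg).1]
    exact this
  · -- east, other orientation
    intro f g h1 h2
    have hg : (A.τ g).ep = true := by
      rcases A.hE f h2 with ⟨g', k1, -⟩ | ⟨g', k1, k2⟩
      · exact absurd (by rw [← h1, k1]) (can_ne_r2 g' g).symm
      · have h3 : (A.can g').r2 = (A.can g).r2 := by rw [← k1, h1]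
        have h4 := congrArg FSt.r2 h3
        simp only [FSt.r2_r2] at h4
        rw [← A.can_inj h4]; exact k2
    obtain ⟨r', hr'⟩ := exists_run h2
    obtain ⟨q, hq⟩ := exists_run hg
    have hρ : A.ρ f = r'.1 := by rw [← hr', (A.run_end r'.2).2.2.1]
    have hρ' : A.ρ g = q.1 := by rw [← hq, (A.run_end q.2).2.2.1]
    have hn : OR.nxt ((r', true) : A.OR) = (q, false) := by
      apply OR.nxt_unique
      show (A.can (A.ex r'.1)).stE = (A.can (A.ex q.1)).r2
      rw [hr', hq, h1]
    have := met_nxt a ((r', true) : A.OR)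
    rw [hn] at this
    show Met A a (A.ρ f) ↔ Met A a (A.ρ g)
    rw [hρ, hρ']
    exact this
  · -- west
    intro f g h1 h2
    have hg : (A.τ g).wp = true := by
      rcases A.hW f h2 with ⟨g', k1, k2⟩ | ⟨g', k1, k2⟩
      · exfalso
        have h3 := FSt.stE_inv (A.can g')
        rw [k1, h1] at h3
        exact can_ne_r2 g g' h3
      · have : g' = g := A.can_inj (by rw [← k1, h1])
        rw [← this]; exact k2
    have hn : OR.nxt ((⟨f, h2⟩, false) : A.OR) = (⟨g, hg⟩, true) := by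
      apply OR.nxt_unique
      exact h1
    have := met_nxt a ((⟨f, h2⟩, false) : A.OR)
    rw [hn] at this
    show Met A a (A.ρ f) ↔ Met A a (A.ρ g)
    rw [(A.base_of_wp h2).1, (A.base_of_wp hg).1]
    exact this
  · have := a.1.2
    intro h'
    have h'' : A.τ a.1.1 = Ty.o := h'
    rw [h''] at this
    simp [Ty.wp] at this
  · intro h'
    rw [h'] at hr
    simp [Ty.wp] at hr

variable (A) in
/-- there is a run that is not straight if there are lean facets -/
lemma exists_cut : ∃ c, (A.τ c).wp = true ∧ ∀ f, A.L f → A.τ c ≠ Ty.H := by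
  by_cases hL : ∃ f, A.L f
  · obtain ⟨f, hf⟩ := hL
    obtain ⟨g, g1, g2⟩ := A.cut f hf
    have hgL := A.reg_of g1
    by_cases hw : (A.τ g).wp = true
    · exact ⟨g, hw, fun _ _ => g2⟩
    · have hr := (A.can_eq hgL).2
      refine ⟨A.ρ g, hr, fun _ _ => ?_⟩
      by_cases hfr : (A.τ g).frS = true
      · have hpos : 0 < A.ζ g := (A.ζ_pos_iff hgL).2 (A.PD_of_frS hfr)
        have h0 := A.below_frS (A.ζ g).toNat g hfr (by omega) (A.ρ g) (A.reg_wp hr)
          (A.base_of_wp hr).1 (by rw [(A.base_of_wp hr).2])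
          (by rw [(A.base_of_wp hr).2]; exact hpos)
        intro h'
        rw [h'] at h0
        simp [Ty.goN] at h0
      · have hfn : (A.τ g).frN = true := by
          revert g1 g2 hw hfr; cases A.τ g <;> simp [Ty.wp, Ty.frS, Ty.frN]
        have hnP := A.not_PD_of_frN hfn
        have hle : A.ζ g ≤ 0 := by
          by_contra h'
          exact hnP ((A.ζ_pos_iff hgL).1 (by omega))
        have hneg : A.ζ g < 0 := by
          rcases lt_or_eq_of_le hle with h | h
          · exact h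
          · exfalso
            have hj : A.jU (A.can g) = 0 := by
              unfold ζ at h
              rw [if_neg hnP] at h
              omega
            have hns := A.not_stopU (f := g) hgL (Or.inr hfn)
            have hp : 0 < A.jU (A.can g) := srch_pos hns (A.ex_stop hgL).1
            omega
        have h0 := A.above_frN (-A.ζ g).toNat g hfn (by omega) (A.ρ g) (A.reg_wp hr)
          (A.base_of_wp hr).1 (by rw [(A.base_of_wp hr).2])
          (by rw [(A.base_of_wp hr).2]; exact hneg)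
        intro h'
        rw [h'] at h0
        simp [Ty.goS] at h0
  · obtain ⟨f⟩ := A.ne
    have hf : ¬ A.L f := fun h => hL ⟨f, h⟩
    exact ⟨A.ρ f, (A.can_eq hf).2, fun g hg => absurd ⟨g, hg⟩ hL⟩

variable (A) in
/-- the run where the curve is cut -/
noncomputable def c0 : P.Facet := Classical.choose A.exists_cut

variable (A) in
lemma c0_wp : (A.τ A.c0).wp = true := (Classical.choose_spec A.exists_cut).1

lemma c0_ne {f r : P.Facet} (hf : A.L f) (hr : A.τ r = Ty.H) : r ≠ A.c0 := by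
  intro h
  exact (Classical.choose_spec A.exists_cut).2 f hf (by
    have : A.τ A.c0 = Ty.H := by rw [← h]; exact hr
    exact this)

variable (A) in
/-- the starting oriented run -/
noncomputable def a0 : A.OR := (⟨A.c0, A.c0_wp⟩, true)

variable (A) in
/-- the number of columns -/
noncomputable def per : ℕ := Function.minimalPeriod (pX A) A.a0

variable (A) in
/-- the oriented runs in their order -/
noncomputable def sq (i : ℕ) : A.OR := (pX A ^ i) A.a0

variable (A) in
lemma per_pos : 0 < A.per := by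
  apply Function.minimalPeriod_pos_of_mem_periodicPts
  refine ⟨orderOf (pX A), orderOf_pos _, ?_⟩
  unfold Function.IsPeriodicPt Function.IsFixedPt
  rw [← Equiv.Perm.coe_pow, pow_orderOf_eq_one]
  rfl

lemma sq_succ (i : ℕ) : A.sq (i + 1) = (A.sq i).nxt := by
  unfold sq
  rw [pow_succ']; rfl

lemma sq_mod (j : ℕ) : A.sq (j % A.per) = A.sq j := by
  unfold sq per
  have := Function.iterate_mod_minimalPeriod_eq (f := pX A) (x := A.a0) (n := j)
  rw [← Equiv.Perm.coe_pow, ← Equiv.Perm.coe_pow] at this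
  exact this

lemma sq_inj {i j : ℕ} (hi : i < A.per) (hj : j < A.per) (h : A.sq i = A.sq j) : i = j := by
  apply Function.iterate_injOn_Iio_minimalPeriod (f := pX A) (x := A.a0) hi hj
  unfold sq at h
  rw [Equiv.Perm.coe_pow, Equiv.Perm.coe_pow] at h
  exact h

lemma sq_run_inj {i j : ℕ} (hi : i < A.per) (hj : j < A.per) (h : (A.sq i).run = (A.sq j).run) :
    i = j := by
  apply sq_inj hi hj
  by_contra hne
  have hrev : A.sq i = (A.sq j).rev := by
    generalize A.sq i = b at h hne ⊢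
    generalize A.sq j = c at h hne ⊢
    obtain ⟨⟨f, hf⟩, σ⟩ := b
    obtain ⟨⟨g, hg⟩, ρ⟩ := c
    have : f = g := h
    subst this
    cases σ <;> cases ρ <;> simp_all [OR.rev]
  -- sq i = (pX ^ (i - j)) (sq j)
  have h1 : (pX A ^ ((i : ℤ) - j)) (A.sq j) = (A.sq j).rev := by
    rw [← hrev]
    unfold sq
    rw [← zpow_natCast, ← zpow_natCast, ← Equiv.Perm.mul_apply, ← zpow_add]
    congr 2
    ring
  obtain ⟨m, hm⟩ := zpow_to_pow (pX A) ((i : ℤ) - j) (A.sq j)
  exact rev_not_mem (A.sq j) m (by rw [hm, h1])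

lemma exists_idx (r : P.Facet) (hr : (A.τ r).wp = true) : ∃ i < A.per, (A.sq i).run = r := by
  obtain ⟨j, hj⟩ := met_all A.a0 r hr
  refine ⟨j % A.per, Nat.mod_lt _ A.per_pos, ?_⟩
  rw [sq_mod]
  exact hj

open Classical in
variable (A) in
/-- the base of the line of a facet -/
noncomputable def ρL (f : P.Facet) : P.Facet := if A.L f then (A.ls f).facet else A.ρ f

open Classical in
variable (A) in
/-- the offset of a facet -/
noncomputable def ζL (f : P.Facet) : ℤ :=
  if A.L f then (if A.ls f = A.can (A.ls f).facet then (A.lz f : ℤ) else -(A.lz f : ℤ)) else A.ζ f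

lemma ρL_reg {f : P.Facet} (hf : ¬ A.L f) : A.ρL f = A.ρ f := by unfold ρL; rw [if_neg hf]
lemma ζL_reg {f : P.Facet} (hf : ¬ A.L f) : A.ζL f = A.ζ f := by unfold ζL; rw [if_neg hf]
lemma ρL_le {f : P.Facet} (hf : A.L f) : A.ρL f = (A.ls f).facet := by unfold ρL; rw [if_pos hf]

variable (A) in
/-- the facet `f` has the height `n` over the state `t` -/
def At (f : P.Facet) (t : P.FSt) (n : ℕ) : Prop := A.ρL f = t.facet ∧
  ((t = A.can t.facet ∧ A.ζL f = n) ∨ (t = (A.can t.facet).r2 ∧ A.ζL f = -(n : ℤ)))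

lemma at_le {f : P.Facet} (hf : A.L f) : A.At f (A.ls f) (A.lz f) := by
  refine ⟨ρL_le hf, ?_⟩
  unfold ζL
  rw [if_pos hf]
  rcases (A.lean f hf).1 with h | h
  · left
    exact ⟨h, by rw [if_pos h]⟩
  · right
    refine ⟨h, ?_⟩
    rw [if_neg]
    intro h'
    rw [h] at h'
    exact can_ne_r2 _ _ h'.symm

lemma wp_H {r : P.Facet} (h : A.τ r = Ty.H) : (A.τ r).wp = true := by rw [h]; rfl

lemma ρL_wp (f : P.Facet) : (A.τ (A.ρL f)).wp = true := by
  by_cases hf : A.L f
  · rw [ρL_le hf]; exact wp_H (A.lean f hf).2.1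
  · rw [ρL_reg hf]; exact (A.can_eq hf).2

lemma x_H {r : P.Facet} (h : A.τ r = Ty.H) : A.x r = 0 ∧ A.ex r = r := by
  have h1 : A.kN r = 0 := A.kN_zero (by rw [h]; rfl)
  have h2 : A.kS r = 0 := A.kS_zero (by rw [h]; rfl)
  have hx : A.x r = 0 := by unfold x; rw [h1, h2]; simp
  refine ⟨hx, ?_⟩
  unfold ex; rw [hx, zpow_zero]; exact A.can_facet r

variable (A) in
/-- the index of the line of a facet -/
noncomputable def idx (f : P.Facet) : ℕ := Classical.choose (exists_idx (A.ρL f) (ρL_wp f))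

lemma idx_lt (f : P.Facet) : A.idx f < A.per :=
  (Classical.choose_spec (exists_idx (A.ρL f) (ρL_wp f))).1

lemma idx_run (f : P.Facet) : (A.sq (A.idx f)).run = A.ρL f :=
  (Classical.choose_spec (exists_idx (A.ρL f) (ρL_wp f))).2

lemma idx_eq {f : P.Facet} {i : ℕ} (hi : i < A.per) (h : (A.sq i).run = A.ρL f) :
    A.idx f = i := sq_run_inj (idx_lt f) hi (by rw [idx_run, h])

variable (A) in
/-- the offset along the oriented line -/
noncomputable def off (f : P.Facet) : ℤ :=
  if (A.sq (A.idx f)).2 then A.ζL f else A.x (A.ρL f) - A.ζL f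

/-- the oriented facet at a given offset -/
lemma at_off (f : P.Facet) :
    (pN ^ A.off f) ((A.sq (A.idx f)).inS) =
      if (A.sq (A.idx f)).2 then (pN ^ A.ζL f) (A.can (A.ρL f))
      else ((pN ^ A.ζL f) (A.can (A.ρL f))).r2 := by
  have hrun := idx_run (A := A) f
  unfold off OR.inS
  rw [hrun]
  have h2 := (A.run_end (ρL_wp f)).1
  split_ifs
  · rfl
  · rw [FSt.stN_r2_pow, ← h2, ← Equiv.Perm.mul_apply, ← zpow_add]
    congr 3
    simp

lemma ζL_facet (f : P.Facet) : ((pN ^ A.ζL f) (A.can (A.ρL f))).facet = f := by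
  by_cases hf : A.L f
  · obtain ⟨h1, h2⟩ := at_le hf
    have h3 := (A.lean f hf).2.2.1
    rw [h1]
    rcases h2 with ⟨k1, k2⟩ | ⟨k1, k2⟩
    · rw [k2, ← k1]; exact h3
    · rw [k2, ← FSt.facet_r2, ← FSt.stN_r2_pow, ← k1]; exact h3
  · rw [ρL_reg hf, ζL_reg hf, ← (A.can_eq hf).1, A.can_facet]

lemma at_facet {f : P.Facet} {z : ℤ} (h : z = A.off f) :
    ((pN ^ z) ((A.sq (A.idx f)).inS)).facet = f := by
  rw [h, at_off]
  split_ifs
  · exact ζL_facet f
  · rw [FSt.facet_r2]; exact ζL_facet f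

lemma sq_zero : A.sq 0 = A.a0 := rfl

lemma sq_per : A.sq A.per = A.a0 := by
  have := sq_mod (A := A) A.per
  rw [Nat.mod_self] at this
  rw [← this]; rfl

/-- the oriented run of a straight state -/
lemma exists_OR {s : P.FSt} (h : s = A.can s.facet ∨ s = (A.can s.facet).r2)
    (hs : A.τ s.facet = Ty.H) : ∃ a : A.OR, a.run = s.facet ∧ a.inS = s ∧ a.outS = s := by
  rcases h with h | h
  · refine ⟨(⟨s.facet, wp_H hs⟩, true), rfl, ?_, ?_⟩
    · show A.can s.facet = s
      exact h.symm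
    · show A.can (A.ex s.facet) = s
      rw [(x_H hs).2]; exact h.symm
  · refine ⟨(⟨s.facet, wp_H hs⟩, false), rfl, ?_, ?_⟩
    · show (A.can (A.ex s.facet)).r2 = s
      rw [(x_H hs).2]; exact h.symm
    · show (A.can s.facet).r2 = s
      exact h.symm

lemma run_eq {a b : A.OR} (h : a.run = b.run) : a = b ∨ a = b.rev := by
  obtain ⟨⟨f, hf⟩, σ⟩ := a
  obtain ⟨⟨g, hg⟩, ρ⟩ := b
  have : f = g := h
  subst this
  cases σ <;> cases ρ <;> simp [OR.rev]

/-- Two straight runs that are neighbours have consecutive indices. -/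
lemma adj_idx {f : P.Facet} {s t : P.FSt} (hf : A.L f)
    (hs : s = A.can s.facet ∨ s = (A.can s.facet).r2) (hsH : A.τ s.facet = Ty.H)
    (ht : t = A.can t.facet ∨ t = (A.can t.facet).r2) (htH : A.τ t.facet = Ty.H)
    (h : s.stE = t) {i i' : ℕ} (hi : i < A.per) (hi' : i' < A.per)
    (h1 : (A.sq i).run = s.facet) (h2 : (A.sq i').run = t.facet) :
    ((A.sq i).inS = s ∧ (A.sq i').inS = t ∧ i' = i + 1) ∨
      ((A.sq i).inS = s.r2 ∧ (A.sq i').inS = t.r2 ∧ i = i' + 1) := by
  obtain ⟨a, a1, a2, a3⟩ := exists_OR hs hsH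
  obtain ⟨b, b1, b2, b3⟩ := exists_OR ht htH
  have hne : a.run ≠ A.c0 := by rw [a1]; exact c0_ne hf hsH
  have hne' : b.run ≠ A.c0 := by rw [b1]; exact c0_ne hf htH
  have n1 : a.nxt = b := OR.nxt_unique (by rw [a3, b2, h])
  have n2 : b.rev.nxt = a.rev := by rw [← n1]; exact a.nxt_rev
  rcases run_eq (show (A.sq i').run = b.run by rw [h2, b1]) with e1 | e1
  · left
    obtain ⟨j, rfl⟩ : ∃ j, i' = j + 1 := by
      rcases i' with _ | j
      · exfalso
        rw [sq_zero] at e1
        rw [← e1] at hne'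
        exact hne' rfl
      · exact ⟨j, rfl⟩
    rw [sq_succ] at e1
    have e2 : A.sq j = a := OR.nxt_injective (by rw [e1, n1])
    have e3 : i = j := sq_run_inj hi (by omega) (by rw [h1, e2, a1])
    subst e3
    refine ⟨by rw [e2, a2], by rw [sq_succ, e1, b2], rfl⟩
  · right
    have e2 : A.sq (i' + 1) = a.rev := by rw [sq_succ, e1, n2]
    have e3 : i' + 1 < A.per := by
      by_contra hcon
      have : i' + 1 = A.per := by omega
      rw [this, sq_per] at e2
      have h3 := congrArg OR.run e2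
      exact hne h3.symm
    have e4 : i = i' + 1 := sq_run_inj hi e3 (by rw [h1, e2]; exact a1.symm)
    refine ⟨by rw [e4, e2, OR.inS_rev, a3], by rw [e1, OR.inS_rev, b3], e4⟩

/-- the neighbour of a leaning facet -/
lemma lean_nb {f : P.Facet} (hf : A.L f) : ∃ (E : Bool) (g : P.Facet),
    (A.L g → A.ld g < A.ld f) ∧
    (nb E (A.ls f) = A.can (nb E (A.ls f)).facet ∨
      nb E (A.ls f) = (A.can (nb E (A.ls f)).facet).r2) ∧
    A.τ (nb E (A.ls f)).facet = Ty.H ∧
    (∀ i : ℕ, i ≤ A.lz f → nb E ((pN ^ (i : ℤ)) (A.ls f)) = (pN ^ (i : ℤ)) (nb E (A.ls f))) ∧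
    A.At g (nb E (A.ls f)) (A.lz f) := by
  obtain ⟨-, -, -, E, h3, h4, h5, h6⟩ := A.lean f hf
  rcases h6 with ⟨g, g1, g2, g3, g4⟩ | h6
  · refine ⟨E, g, fun _ => g4, h3, h4, h5, ?_⟩
    have := at_le g1
    rwa [g2, g3] at this
  · obtain ⟨g, g1, g2, g3⟩ := A.pos_K (wp_H h4) h3 (A.lz f) h6
    refine ⟨E, g, fun h => absurd h g1, h3, h4, h5, ?_, ?_⟩
    · rw [ρL_reg g1, g2]
    · rw [ζL_reg g1]; exact g3

/-- the offset of a facet over a straight state -/
lemma off_at {f : P.Facet} {t : P.FSt} {n : ℕ} (h : A.At f t n) (hH : A.τ t.facet = Ty.H) :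
    ((A.sq (A.idx f)).inS = t → A.off f = n) ∧
      ((A.sq (A.idx f)).inS = t.r2 → A.off f = -(n : ℤ)) := by
  obtain ⟨h1, h2⟩ := h
  have hrun : (A.sq (A.idx f)).run = t.facet := by rw [idx_run, h1]
  have hin : (A.sq (A.idx f)).inS =
      if (A.sq (A.idx f)).2 then A.can t.facet else (A.can t.facet).r2 := by
    unfold OR.inS
    rw [hrun, (x_H hH).2]
  have hoff : A.off f = if (A.sq (A.idx f)).2 then A.ζL f else -A.ζL f := by
    unfold off
    rw [h1, (x_H hH).1, zero_sub]
  have hne : (A.can t.facet).r2 ≠ A.can t.facet := fun h => can_ne_r2 _ _ h.symm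
  rw [hin, hoff]
  rcases h2 with ⟨k1, k2⟩ | ⟨k1, k2⟩ <;> by_cases hσ : (A.sq (A.idx f)).2 = true
  · rw [if_pos hσ, if_pos hσ, k2]
    refine ⟨fun _ => rfl, fun h => ?_⟩
    rw [← k1] at h
    exact absurd h.symm (FSt.r2_ne t)
  · rw [if_neg hσ, if_neg hσ, k2]
    refine ⟨fun h => ?_, fun _ => rfl⟩
    rw [← k1] at h
    exact absurd h (FSt.r2_ne t)
  · rw [if_pos hσ, if_pos hσ, k2]
    refine ⟨fun h => ?_, fun _ => rfl⟩
    rw [h] at k1
    exact absurd k1.symm (FSt.r2_ne t)
  · rw [if_neg hσ, if_neg hσ, k2]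
    refine ⟨fun _ => by ring, fun h => ?_⟩
    rw [← k1] at h
    exact absurd h.symm (FSt.r2_ne t)

lemma row_rev {s t : P.FSt} {n : ℕ} (h : ∀ i : ℕ, i ≤ n →
    ((pN ^ (i : ℤ)) s).stE = (pN ^ (i : ℤ)) t) (i : ℤ) (hi : i ∈ Set.uIcc 0 (-(n : ℤ))) :
    ((pN ^ i) t.r2).stE = (pN ^ i) s.r2 := by
  rw [Set.mem_uIcc] at hi
  have hi' : -(n : ℤ) ≤ i ∧ i ≤ 0 := by rcases hi with hi | hi <;> constructor <;> omega
  obtain ⟨j, rfl⟩ : ∃ j : ℕ, i = -(j : ℤ) := ⟨(-i).toNat, by omega⟩
  rw [FSt.stN_r2_pow, FSt.stN_r2_pow, neg_neg, ← h j (by omega), FSt.stE_inv]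

lemma row_nat {s t : P.FSt} {n : ℕ} (h : ∀ i : ℕ, i ≤ n →
    ((pN ^ (i : ℤ)) s).stE = (pN ^ (i : ℤ)) t) (i : ℤ) (hi : i ∈ Set.uIcc 0 (n : ℤ)) :
    ((pN ^ i) s).stE = (pN ^ i) t := by
  rw [Set.mem_uIcc] at hi
  have hi' : 0 ≤ i ∧ i ≤ n := by rcases hi with hi | hi <;> constructor <;> omega
  obtain ⟨j, rfl⟩ : ∃ j : ℕ, i = (j : ℤ) := ⟨i.toNat, by omega⟩
  exact h j (by omega)

/-- the layout of a cell curve -/
noncomputable def layout (A : P.VCurve) : P.LLayout where
  n := A.per
  pos := A.per_pos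
  w := fun i => (A.sq i).inS
  ex := fun i => A.x (A.sq i).run
  glue := fun i _ => by
    rw [← OR.outS_eq, OR.nxt_spec, sq_succ]
  b := A.idx
  hb := idx_lt
  z := A.off
  hz := fun f => at_facet rfl
  base := fun i hi => by
    set a := A.sq i with ha
    have key : ∀ f : P.Facet, a.inS.facet = f → ¬ A.L f ∧ A.ρ f = a.run ∧
        A.ζ f = if a.2 then 0 else A.x a.run := by
      intro f hf
      have hr := a.1.2
      unfold OR.inS at hf
      split_ifs at hf ⊢ with hσ
      · rw [A.can_facet] at hf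
        subst hf
        exact ⟨A.reg_wp hr, A.base_of_wp hr⟩
      · rw [FSt.facet_r2, A.can_facet] at hf
        subst hf
        have he := (A.run_end hr).2.1
        exact ⟨A.reg_of (fun h' => by
          have he' : (A.τ (A.ex a.run)).ep = true := he
          rw [h'] at he'; simp [Ty.ep] at he'), (A.run_end hr).2.2.1, (A.run_end hr).2.2.2⟩
    obtain ⟨k0, k1, k2⟩ := key _ rfl
    have hidx : A.idx a.inS.facet = i := idx_eq hi (by rw [ρL_reg k0, k1])
    refine ⟨hidx, ?_⟩
    unfold off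
    rw [hidx, ← ha, ρL_reg k0, ζL_reg k0, k1, k2]
    split_ifs <;> simp
  exit := fun i hi => by
    rw [← OR.outS_eq]
    set a := A.sq i with ha
    have key : ∀ f : P.Facet, a.outS.facet = f → ¬ A.L f ∧ A.ρ f = a.run ∧
        A.ζ f = if a.2 then A.x a.run else 0 := by
      intro f hf
      have hr := a.1.2
      unfold OR.outS at hf
      split_ifs at hf ⊢ with hσ
      · rw [A.can_facet] at hf
        subst hf
        have he := (A.run_end hr).2.1
        exact ⟨A.reg_of (fun h' => by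
          have he' : (A.τ (A.ex a.run)).ep = true := he
          rw [h'] at he'; simp [Ty.ep] at he'), (A.run_end hr).2.2.1, (A.run_end hr).2.2.2⟩
      · rw [FSt.facet_r2, A.can_facet] at hf
        subst hf
        exact ⟨A.reg_wp hr, A.base_of_wp hr⟩
    obtain ⟨k0, k1, k2⟩ := key _ rfl
    have hidx : A.idx a.outS.facet = i := idx_eq hi (by rw [ρL_reg k0, k1])
    refine ⟨hidx, ?_⟩
    unfold off
    rw [hidx, ← ha, ρL_reg k0, ζL_reg k0, k1, k2]
    split_ifs <;> simp
  le := A.L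
  ld := A.ld
  exit_le := fun i hi => by
    rw [← OR.outS_eq]
    set a := A.sq i with ha
    have hr := a.1.2
    unfold OR.outS
    split_ifs with hσ
    · rw [A.can_facet]
      have he := (A.run_end hr).2.1
      exact A.reg_of (fun h' => by
          have he' : (A.τ (A.ex a.run)).ep = true := he
          rw [h'] at he'; simp [Ty.ep] at he')
    · rw [FSt.facet_r2, A.can_facet]
      exact A.reg_wp hr
  down := fun f hfL hf => by
    have main : ∃ g, ¬ A.L g ∧ A.ρ g = A.ρ f ∧ A.off g = A.off f - 1 := by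
      by_cases hσ : (A.sq (A.idx f)).2 = true
      · have e1 : A.off f = A.ζ f := by unfold off; rw [if_pos hσ, ζL_reg hfL]
        obtain ⟨g, g0, -, g2, g3⟩ := A.chain_S (f := f) hfL (Or.inl (by omega))
        refine ⟨g, g0, g2, ?_⟩
        have hi : A.idx g = A.idx f :=
          idx_eq (idx_lt f) (by rw [idx_run, ρL_reg hfL, ρL_reg g0, g2])
        rw [e1]
        unfold off
        rw [hi, if_pos hσ, ζL_reg g0]
        omega
      · have e1 : A.off f = A.x (A.ρ f) - A.ζ f := by
          unfold off; rw [if_neg hσ, ζL_reg hfL, ρL_reg hfL]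
        obtain ⟨g, g0, -, g2, g3⟩ := A.chain_N (f := f) hfL (Or.inr (by omega))
        refine ⟨g, g0, g2, ?_⟩
        have hi : A.idx g = A.idx f :=
          idx_eq (idx_lt f) (by rw [idx_run, ρL_reg hfL, ρL_reg g0, g2])
        rw [e1]
        unfold off
        rw [hi, if_neg hσ, ζL_reg g0, ρL_reg g0, g2]
        omega
    obtain ⟨g, g0, g1, g2⟩ := main
    exact ⟨g, g0, idx_eq (idx_lt f) (by rw [idx_run, ρL_reg hfL, ρL_reg g0, g1]), g2⟩
  up := fun f hfL hf => by
    have main : ∃ g, ¬ A.L g ∧ A.ρ g = A.ρ f ∧ A.off g = A.off f + 1 := by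
      by_cases hσ : (A.sq (A.idx f)).2 = true
      · have e1 : A.off f = A.ζ f := by unfold off; rw [if_pos hσ, ζL_reg hfL]
        obtain ⟨g, g0, -, g2, g3⟩ := A.chain_N (f := f) hfL (Or.inl (by omega))
        refine ⟨g, g0, g2, ?_⟩
        have hi : A.idx g = A.idx f :=
          idx_eq (idx_lt f) (by rw [idx_run, ρL_reg hfL, ρL_reg g0, g2])
        rw [e1]
        unfold off
        rw [hi, if_pos hσ, ζL_reg g0]
        omega
      · have e1 : A.off f = A.x (A.ρ f) - A.ζ f := by
          unfold off; rw [if_neg hσ, ζL_reg hfL, ρL_reg hfL]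
        obtain ⟨g, g0, -, g2, g3⟩ := A.chain_S (f := f) hfL (Or.inr (by omega))
        refine ⟨g, g0, g2, ?_⟩
        have hi : A.idx g = A.idx f :=
          idx_eq (idx_lt f) (by rw [idx_run, ρL_reg hfL, ρL_reg g0, g2])
        rw [e1]
        unfold off
        rw [hi, if_neg hσ, ζL_reg g0, ρL_reg g0, g2]
        omega
    obtain ⟨g, g0, g1, g2⟩ := main
    exact ⟨g, g0, idx_eq (idx_lt f) (by rw [idx_run, ρL_reg hfL, ρL_reg g0, g1]), g2⟩
  att := fun f hf => by
    obtain ⟨E, g, g0, g1, g2, g3, g4⟩ := lean_nb hf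
    have hH := (A.lean f hf).2.1
    have hact := (A.lean f hf).1
    have hrf : (A.sq (A.idx f)).run = (A.ls f).facet := by rw [idx_run, ρL_le hf]
    have hrg : (A.sq (A.idx g)).run = (nb E (A.ls f)).facet := by rw [idx_run, g4.1]
    have of1 := off_at (at_le hf) hH
    have og1 := off_at g4 g2
    refine ⟨g, g0, ?_⟩
    cases E
    · -- west
      set t : P.FSt := nb false (A.ls f) with ht
      have hst : t.stE = A.ls f := pE.apply_symm_apply (A.ls f)
      have par : ∀ i : ℕ, i ≤ A.lz f → ((pN ^ (i : ℤ)) t).stE = (pN ^ (i : ℤ)) (A.ls f) := by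
        intro i hi
        rw [← g3 i hi]
        exact pE.apply_symm_apply _
      rcases adj_idx hf g1 g2 hact hH hst (idx_lt g) (idx_lt f) hrg hrf with
        ⟨s1, s2, s3⟩ | ⟨s1, s2, s3⟩
      · right
        have o1 := of1.1 s2
        have o2 := og1.1 s1
        refine ⟨s3, by rw [o1, o2], by rw [hrg]; exact (x_H g2).1, ?_⟩
        rw [s1, s2, o1]
        exact row_nat par
      · left
        have o1 := of1.2 s2
        have o2 := og1.2 s1
        refine ⟨s3, by rw [o1, o2], by rw [hrf]; exact (x_H hH).1, ?_⟩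
        rw [s1, s2, o1]
        exact row_rev par
    · -- east
      set t : P.FSt := nb true (A.ls f) with ht
      have hst : (A.ls f).stE = t := rfl
      have par : ∀ i : ℕ, i ≤ A.lz f → ((pN ^ (i : ℤ)) (A.ls f)).stE = (pN ^ (i : ℤ)) t := by
        intro i hi
        exact g3 i hi
      rcases adj_idx hf hact hH g1 g2 hst (idx_lt f) (idx_lt g) hrf hrg with
        ⟨s1, s2, s3⟩ | ⟨s1, s2, s3⟩
      · left
        have o1 := of1.1 s1
        have o2 := og1.1 s2
        refine ⟨s3, by rw [o1, o2], by rw [hrf]; exact (x_H hH).1, ?_⟩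
        rw [s1, s2, o1]
        exact row_nat par
      · right
        have o1 := of1.2 s1
        have o2 := og1.2 s2
        refine ⟨s3, by rw [o1, o2], by rw [hrg]; exact (x_H g2).1, ?_⟩
        rw [s1, s2, o1]
        exact row_rev par

/-- **A cell curve with leaning facets gives an edge unfolding.** -/
theorem hasEdgeUnfolding (A : P.VCurve) : P.HasEdgeUnfolding := A.layout.hasEdgeUnfolding

end VCurve

end GridSolid

end Pool.Agent.Helper55.UNF
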