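import Pool.Agent.Helper55.UNF.Pat
import Pool.Agent.MP42.V.Orbit

/-!
# Pattern curves with leaning facets

The leaning facets are described on the refinement.
-/

set_option autoImplicit false
set_option linter.unusedSectionVars false

namespace Pool.Agent.Helper55.UNF

namespace GridSolid

variable {P : GridSolid} {k : ℕ}

variable (P k)

/-- A pattern curve with leaning facets. -/
structure VPat where
  hk : 0 < k
  can : P.Facet → P.FSt
  can_facet : ∀ f, (can f).facet = f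
  T : P.Facet → ℕ → ℕ → Ty
  /-- vertical steps inside a facet -/
  vN : ∀ f x y, x < k → y + 1 < k → (T f x y).goN = (T f x (y + 1)).frS
  vS : ∀ f x y, x < k → y + 1 < k → (T f x y).frN = (T f x (y + 1)).goS
  /-- horizontal steps inside a facet -/
  hh : ∀ f x y, x + 1 < k → y < k → (T f x y).ep = (T f (x + 1) y).wp
  /-- vertical steps to the next facet -/
  bN : ∀ f g, (can f).stN = can g → ∀ x < k, (T f x (k - 1)).goN = (T g x 0).frS
  bS : ∀ f g, (can f).stN = can g → ∀ x < k, (T f x (k - 1)).frN = (T g x 0).goS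
  bN' : ∀ f, (∀ g, (can f).stN ≠ can g) → ∀ x < k,
    (T f x (k - 1)).goN = false ∧ (T f x (k - 1)).frN = false
  bS' : ∀ g, (∀ f, (can f).stN ≠ can g) → ∀ x < k, (T g x 0).frS = false ∧ (T g x 0).goS = false
  /-- horizontal steps to the next facet -/
  bE : ∀ f g, (can f).stE = can g → ∀ y < k, (T f (k - 1) y).ep = (T g 0 y).wp
  bEr : ∀ f g, (can f).stE = (can g).r2 → ∀ y < k, (T f (k - 1) y).ep = (T g (k - 1) (k - 1 - y)).ep
  bWr : ∀ f g, (can f).r2.stE = can g → ∀ y < k, (T f 0 y).wp = (T g 0 (k - 1 - y)).wp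
  bE' : ∀ f, (∀ g, (can f).stE ≠ can g ∧ (can f).stE ≠ (can g).r2) → ∀ y < k,
    (T f (k - 1) y).ep = false
  bW' : ∀ f, (∀ g, (can f).r2.stE ≠ can g ∧ (can f).r2.stE ≠ (can g).r2) → ∀ y < k,
    (T f 0 y).wp = false
  /-- the lean facets -/
  L : P.Facet → Prop
  hL : ∀ f, L f → ∀ x y, x < k → y < k → T f x y = Ty.o
  /-- every regular vertical line meets the curve -/
  cov : ∀ f, ¬ L f → ∀ x < k, ∃ z : ℤ,
    (∀ y ∈ Set.uIcc 0 z, ∃ g, ¬ L g ∧ (pN ^ y) (can f) = can g) ∧
    ∃ g, (pN ^ z) (can f) = can g ∧ ∃ y < k, (T g x y).wp = true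
  /-- the curve is connected -/
  conn : ∀ ψ : P.Facet → ℕ → ℕ → Prop,
    (∀ f x y, x < k → y + 1 < k → (T f x y).goN = true → (ψ f x y ↔ ψ f x (y + 1))) →
    (∀ f x y, x < k → y + 1 < k → (T f x y).frN = true → (ψ f x y ↔ ψ f x (y + 1))) →
    (∀ f x y, x + 1 < k → y < k → (T f x y).ep = true → (ψ f x y ↔ ψ f (x + 1) y)) →
    (∀ f g, (can f).stN = can g → ∀ x < k, (T f x (k - 1)).goN = true →
      (ψ f x (k - 1) ↔ ψ g x 0)) →
    (∀ f g, (can f).stN = can g → ∀ x < k, (T f x (k - 1)).frN = true →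
      (ψ f x (k - 1) ↔ ψ g x 0)) →
    (∀ f g, (can f).stE = can g → ∀ y < k, (T f (k - 1) y).ep = true →
      (ψ f (k - 1) y ↔ ψ g 0 y)) →
    (∀ f g, (can f).stE = (can g).r2 → ∀ y < k, (T f (k - 1) y).ep = true →
      (ψ f (k - 1) y ↔ ψ g (k - 1) (k - 1 - y))) →
    (∀ f g, (can f).r2.stE = can g → ∀ y < k, (T f 0 y).wp = true →
      (ψ f 0 y ↔ ψ g 0 (k - 1 - y))) →
    ∀ f x y g x' y', x < k → y < k → x' < k → y' < k → T f x y ≠ Ty.o → T g x' y' ≠ Ty.o →
      (ψ f x y ↔ ψ g x' y')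
  ne : Nonempty P.Facet

namespace VPat

variable {P k} (A : P.VPat k)

/-- the facet of the refinement with given coordinates -/
noncomputable def cell (f : P.Facet) (x y : ℕ) (hx : x < k) (hy : y < k) : (P.refine k A.hk).Facet :=
  (sub A.hk (A.can f) x y hx hy).facet

/-- coordinates of a facet of the refinement -/
noncomputable def X (f : (P.refine k A.hk).Facet) : ℕ := ix k (A.can (co A.hk f)).1.e f.1.1
noncomputable def Y (f : (P.refine k A.hk).Facet) : ℕ := ix k (A.can (co A.hk f)).1.n f.1.1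

lemma X_lt (f : (P.refine k A.hk).Facet) : A.X f < k := ix_lt A.hk _ _
lemma Y_lt (f : (P.refine k A.hk).Facet) : A.Y f < k := ix_lt A.hk _ _

/-- the frame of a facet of the refinement -/
noncomputable def can' (f : (P.refine k A.hk).Facet) : (P.refine k A.hk).FSt :=
  sub A.hk (A.can (co A.hk f)) (A.X f) (A.Y f) (A.X_lt f) (A.Y_lt f)

lemma can'_facet (f : (P.refine k A.hk).Facet) : (A.can' f).facet = f :=
  sub_ix A.hk _ f (A.can_facet _).symm

lemma co_cell (f : P.Facet) {x y : ℕ} (hx : x < k) (hy : y < k) :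
    co A.hk (A.cell f x y hx hy) = f := by
  unfold cell; rw [co_sub, A.can_facet]

lemma X_cell (f : P.Facet) {x y : ℕ} (hx : x < k) (hy : y < k) :
    A.X (A.cell f x y hx hy) = x := by
  unfold X
  rw [A.co_cell]
  exact ix_subC_e _ (A.can f).2.2 hx hy

lemma Y_cell (f : P.Facet) {x y : ℕ} (hx : x < k) (hy : y < k) :
    A.Y (A.cell f x y hx hy) = y := by
  unfold Y
  rw [A.co_cell]
  exact ix_subC_n _ (A.can f).2.2 hx hy

lemma can'_cell (f : P.Facet) {x y : ℕ} (hx : x < k) (hy : y < k) :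
    A.can' (A.cell f x y hx hy) = sub A.hk (A.can f) x y hx hy := by
  unfold can'
  exact sub_congr _ _ (by rw [A.co_cell]) (A.X_cell f hx hy) (A.Y_cell f hx hy)

lemma cell_surj (f : (P.refine k A.hk).Facet) :
    f = A.cell (co A.hk f) (A.X f) (A.Y f) (A.X_lt f) (A.Y_lt f) := (A.can'_facet f).symm

/-- the type of a facet of the refinement -/
noncomputable def ty (f : (P.refine k A.hk).Facet) : Ty := A.T (co A.hk f) (A.X f) (A.Y f)

lemma ty_cell (f : P.Facet) {x y : ℕ} (hx : x < k) (hy : y < k) :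
    A.ty (A.cell f x y hx hy) = A.T f x y := by
  unfold ty
  rw [A.co_cell, A.X_cell, A.Y_cell]

lemma link_N_mid (f : P.Facet) {x y : ℕ} (hx : x < k) (hy : y + 1 < k) :
    (A.can' (A.cell f x y hx (by omega))).stN = A.can' (A.cell f x (y + 1) hx hy) := by
  rw [A.can'_cell, A.can'_cell, sub_stN_mid]

lemma link_N_end {f g : P.Facet} (h : (A.can f).stN = A.can g) {x : ℕ} (hx : x < k) :
    (A.can' (A.cell f x (k - 1) hx (by omega))).stN = A.can' (A.cell g x 0 hx A.hk) := by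
  rw [A.can'_cell, A.can'_cell, sub_stN_end]
  exact sub_congr _ _ h rfl rfl

lemma link_E_mid (f : P.Facet) {x y : ℕ} (hx : x + 1 < k) (hy : y < k) :
    (A.can' (A.cell f x y (by omega) hy)).stE = A.can' (A.cell f (x + 1) y hx hy) := by
  rw [A.can'_cell, A.can'_cell, sub_stE_mid]

lemma link_E_end {f g : P.Facet} (h : (A.can f).stE = A.can g) {y : ℕ} (hy : y < k) :
    (A.can' (A.cell f (k - 1) y (by omega) hy)).stE = A.can' (A.cell g 0 y A.hk hy) := by
  rw [A.can'_cell, A.can'_cell, sub_stE_end]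
  exact sub_congr _ _ h rfl rfl

lemma link_E_rev {f g : P.Facet} (h : (A.can f).stE = (A.can g).r2) {y : ℕ} (hy : y < k) :
    (A.can' (A.cell f (k - 1) y (by omega) hy)).stE =
      (A.can' (A.cell g (k - 1) (k - 1 - y) (by omega) (by omega))).r2 := by
  rw [A.can'_cell, A.can'_cell, sub_stE_end, sub_r2]
  exact sub_congr _ _ h (by omega) (by omega)

lemma link_W_rev {f g : P.Facet} (h : (A.can f).r2.stE = A.can g) {y : ℕ} (hy : y < k) :
    (A.can' (A.cell f 0 y A.hk hy)).r2.stE =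
      A.can' (A.cell g 0 (k - 1 - y) A.hk (by omega)) := by
  rw [A.can'_cell, A.can'_cell, sub_r2]
  have h1 := sub_stE_end (hk := A.hk) (A.can f).r2 (y := k - 1 - y) (by omega)
  have h2 : sub A.hk (A.can f).r2 (k - 1 - 0) (k - 1 - y) (by omega) (by omega) =
      sub A.hk (A.can f).r2 (k - 1) (k - 1 - y) (by omega) (by omega) :=
    sub_congr _ _ rfl (by omega) rfl
  rw [h2, h1]
  exact sub_congr _ _ h rfl rfl

lemma can_inj {f g : P.Facet} (h : A.can f = A.can g) : f = g := by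
  rw [← A.can_facet f, ← A.can_facet g, h]

/-- The northern neighbour exists. -/
lemma north {f : (P.refine k A.hk).Facet} (h : (A.ty f).goN = true ∨ (A.ty f).frN = true) :
    ∃ g, (A.can' f).stN = A.can' g ∧ (A.ty f).goN = (A.ty g).frS ∧
      (A.ty f).frN = (A.ty g).goS := by
  obtain ⟨F, x, y, hx, hy, rfl⟩ : ∃ F x y, ∃ (hx : x < k) (hy : y < k), f = A.cell F x y hx hy :=
    ⟨_, _, _, _, _, A.cell_surj f⟩
  rw [A.ty_cell] at h ⊢
  by_cases hy' : y + 1 < k
  · exact ⟨A.cell F x (y + 1) hx hy', A.link_N_mid F hx hy', by rw [A.ty_cell, A.vN F x y hx hy'],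
      by rw [A.ty_cell, A.vS F x y hx hy']⟩
  · have hy1 : y = k - 1 := by omega
    subst hy1
    by_cases hg : ∃ g, (A.can F).stN = A.can g
    · obtain ⟨g, hg⟩ := hg
      exact ⟨A.cell g x 0 hx A.hk, A.link_N_end hg hx, by rw [A.ty_cell, A.bN F g hg x hx],
        by rw [A.ty_cell, A.bS F g hg x hx]⟩
    · push Not at hg
      have := A.bN' F hg x hx
      rw [this.1, this.2] at h
      simp at h

/-- The southern neighbour exists. -/
lemma south {f : (P.refine k A.hk).Facet} (h : (A.ty f).frS = true ∨ (A.ty f).goS = true) :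
    ∃ g, (A.can' g).stN = A.can' f ∧ (A.ty g).goN = (A.ty f).frS ∧
      (A.ty g).frN = (A.ty f).goS := by
  obtain ⟨F, x, y, hx, hy, rfl⟩ : ∃ F x y, ∃ (hx : x < k) (hy : y < k), f = A.cell F x y hx hy :=
    ⟨_, _, _, _, _, A.cell_surj f⟩
  rw [A.ty_cell] at h ⊢
  by_cases hy' : y = 0
  · subst hy'
    by_cases hg : ∃ g, (A.can g).stN = A.can F
    · obtain ⟨g, hg⟩ := hg
      exact ⟨A.cell g x (k - 1) hx (by omega), A.link_N_end hg hx,
        by rw [A.ty_cell, A.bN g F hg x hx], by rw [A.ty_cell, A.bS g F hg x hx]⟩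
    · push Not at hg
      have := A.bS' F hg x hx
      rw [this.1, this.2] at h
      simp at h
  · obtain ⟨y, rfl⟩ : ∃ y', y = y' + 1 := ⟨y - 1, by omega⟩
    exact ⟨A.cell F x y hx (by omega), A.link_N_mid F hx hy, by rw [A.ty_cell, A.vN F x y hx hy],
      by rw [A.ty_cell, A.vS F x y hx hy]⟩

/-- The eastern neighbour exists. -/
lemma east {f : (P.refine k A.hk).Facet} (h : (A.ty f).ep = true) :
    (∃ g, (A.can' f).stE = A.can' g ∧ (A.ty g).wp = true) ∨
      (∃ g, (A.can' f).stE = (A.can' g).r2 ∧ (A.ty g).ep = true) := by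
  obtain ⟨F, x, y, hx, hy, rfl⟩ : ∃ F x y, ∃ (hx : x < k) (hy : y < k), f = A.cell F x y hx hy :=
    ⟨_, _, _, _, _, A.cell_surj f⟩
  rw [A.ty_cell] at h
  by_cases hx' : x + 1 < k
  · left
    exact ⟨A.cell F (x + 1) y hx' hy, A.link_E_mid F hx' hy, by
      rw [A.ty_cell, ← A.hh F x y hx' hy, h]⟩
  · have hx1 : x = k - 1 := by omega
    subst hx1
    by_cases h1 : ∃ g, (A.can F).stE = A.can g
    · obtain ⟨g, hg⟩ := h1
      left
      exact ⟨A.cell g 0 y A.hk hy, A.link_E_end hg hy, by rw [A.ty_cell, ← A.bE F g hg y hy, h]⟩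
    · by_cases h2 : ∃ g, (A.can F).stE = (A.can g).r2
      · obtain ⟨g, hg⟩ := h2
        right
        exact ⟨A.cell g (k - 1) (k - 1 - y) (by omega) (by omega), A.link_E_rev hg hy, by
          rw [A.ty_cell, ← A.bEr F g hg y hy, h]⟩
      · push Not at h1 h2
        have := A.bE' F (fun g => ⟨h1 g, h2 g⟩) y hy
        rw [this] at h
        exact absurd h (by simp)

/-- The western neighbour exists. -/
lemma west {f : (P.refine k A.hk).Facet} (h : (A.ty f).wp = true) :
    (∃ g, (A.can' g).stE = A.can' f ∧ (A.ty g).ep = true) ∨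
      (∃ g, (A.can' f).r2.stE = A.can' g ∧ (A.ty g).wp = true) := by
  obtain ⟨F, x, y, hx, hy, rfl⟩ : ∃ F x y, ∃ (hx : x < k) (hy : y < k), f = A.cell F x y hx hy :=
    ⟨_, _, _, _, _, A.cell_surj f⟩
  rw [A.ty_cell] at h
  by_cases hx' : x = 0
  · subst hx'
    by_cases h1 : ∃ g, (A.can F).r2.stE = A.can g
    · obtain ⟨g, hg⟩ := h1
      right
      exact ⟨A.cell g 0 (k - 1 - y) A.hk (by omega), A.link_W_rev hg hy, by
        rw [A.ty_cell, ← A.bWr F g hg y hy, h]⟩
    · by_cases h2 : ∃ g, (A.can F).r2.stE = (A.can g).r2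
      · obtain ⟨g, hg⟩ := h2
        left
        have hg' : (A.can g).stE = A.can F := by
          have h3 := FSt.stE_inv (A.can F).r2
          rw [hg] at h3
          simpa using h3
        exact ⟨A.cell g (k - 1) y (by omega) hy, A.link_E_end hg' hy, by
          rw [A.ty_cell, A.bE g F hg' y hy, h]⟩
      · push Not at h1 h2
        have := A.bW' F (fun g => ⟨h1 g, h2 g⟩) y hy
        rw [this] at h
        exact absurd h (by simp)
  · obtain ⟨x, rfl⟩ : ∃ x', x = x' + 1 := ⟨x - 1, by omega⟩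
    left
    exact ⟨A.cell F x y (by omega) hy, A.link_E_mid F hx hy, by
      rw [A.ty_cell, A.hh F x y hx hy, h]⟩


lemma can'_eq_subZ (f : P.Facet) {x y : ℕ} (hx : x < k) (hy : y < k) :
    A.can' (A.cell f x y hx hy) = subZ A.hk (A.can f) x hx (y : ℤ) := by
  rw [A.can'_cell]
  have := subZ_eq A.hk (A.can f) hx hy 0
  simp only [mul_zero, zero_add, zpow_zero, Equiv.Perm.coe_one, id_eq] at this
  exact this.symm

/-- The leaning facets on the refinement. -/
structure Lns where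
  K : (P.refine k A.hk).FSt → Prop
  K_act : ∀ s, K s → s = A.can' s.facet ∨ s = (A.can' s.facet).r2
  K_nc : ∀ s, K s → ¬ K s.r2
  K_N : ∀ f, K (A.can' f) → ¬ A.L (co A.hk f) ∧ A.ty f = Ty.o ∧
    ∃ g, ¬ A.L (co A.hk g) ∧ (A.can' g).stN = A.can' f ∧ (K (A.can' g) ∨ (A.ty g).wp = true)
  K_S : ∀ f, K (A.can' f).r2 → ¬ A.L (co A.hk f) ∧ A.ty f = Ty.o ∧
    ∃ g, ¬ A.L (co A.hk g) ∧ (A.can' f).stN = A.can' g ∧ (K (A.can' g).r2 ∨ (A.ty g).wp = true)
  ls : (P.refine k A.hk).Facet → (P.refine k A.hk).FSt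
  lz : (P.refine k A.hk).Facet → ℕ
  ld : (P.refine k A.hk).Facet → ℕ
  lean : ∀ f, A.L (co A.hk f) →
    (ls f = A.can' (ls f).facet ∨ ls f = (A.can' (ls f).facet).r2) ∧
    A.ty (ls f).facet = Ty.H ∧ ((pN ^ (lz f : ℤ)) (ls f)).facet = f ∧
    ∃ E : Bool,
      (nb E (ls f) = A.can' (nb E (ls f)).facet ∨ nb E (ls f) = (A.can' (nb E (ls f)).facet).r2) ∧
      A.ty (nb E (ls f)).facet = Ty.H ∧
      (∀ i : ℕ, i ≤ lz f → nb E ((pN ^ (i : ℤ)) (ls f)) = (pN ^ (i : ℤ)) (nb E (ls f))) ∧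
      ((∃ g, A.L (co A.hk g) ∧ ls g = nb E (ls f) ∧ lz g = lz f ∧ ld g < ld f) ∨
        (∀ i : ℕ, 1 ≤ i → i ≤ lz f → K ((pN ^ (i : ℤ)) (nb E (ls f)))))
  cut : ∀ f, A.L (co A.hk f) → ∃ g, A.ty g ≠ Ty.o ∧ A.ty g ≠ Ty.H

open Classical in
/-- the cell curve of a pattern curve -/
noncomputable def cellCurve (B : A.Lns) : (P.refine k A.hk).VCurve where
  can := A.can'
  can_facet := A.can'_facet
  τ := A.ty
  hN := fun f h => by
    obtain ⟨g, h1, h2, -⟩ := A.north (Or.inl h)
    exact ⟨g, h1, by rw [← h2, h]⟩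
  hN' := fun f h => by
    obtain ⟨g, h1, h2, -⟩ := A.south (Or.inl h)
    exact ⟨g, h1, by rw [h2, h]⟩
  hS := fun f h => by
    obtain ⟨g, h1, -, h2⟩ := A.north (Or.inr h)
    exact ⟨g, h1, by rw [← h2, h]⟩
  hS' := fun f h => by
    obtain ⟨g, h1, -, h2⟩ := A.south (Or.inr h)
    exact ⟨g, h1, by rw [h2, h]⟩
  hE := fun f h => A.east h
  hW := fun f h => A.west h
  L := fun c => A.L (co A.hk c)
  hL := fun c hc => by
    show A.T (co A.hk c) (A.X c) (A.Y c) = Ty.o
    exact A.hL _ hc _ _ (A.X_lt c) (A.Y_lt c)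
  cov := fun f hfL => by
    obtain ⟨F, x, y, hx, hy, rfl⟩ :
        ∃ F x y, ∃ (hx : x < k) (hy : y < k), f = A.cell F x y hx hy :=
      ⟨_, _, _, _, _, A.cell_surj f⟩
    rw [A.co_cell] at hfL
    obtain ⟨z, h1, g, h2, y', hy', h3⟩ := A.cov F hfL x hx
    have hk' : (0 : ℤ) < k := by exact_mod_cast A.hk
    rw [A.can'_cell]
    have hs : sub A.hk (A.can F) x y hx hy = subZ A.hk (A.can F) x hx (y : ℤ) := by
      have := subZ_eq A.hk (A.can F) hx hy 0
      simp only [mul_zero, zero_add, zpow_zero, Equiv.Perm.coe_one, id_eq] at this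
      exact this.symm
    rw [hs]
    refine ⟨(k : ℤ) * z + y' - y, ?_, A.cell g x y' hx hy', ?_, ?_⟩
    · intro w hw
      rw [subZ_pow]
      set t := (y : ℤ) + w with ht
      have e3 := Int.mul_ediv_add_emod t k
      have e4 := Int.emod_nonneg t hk'.ne'
      have e5 := Int.emod_lt_of_pos t hk'
      have hq : t / (k : ℤ) ∈ Set.uIcc 0 z := by
        rw [Set.mem_uIcc] at hw ⊢
        rcases hw with ⟨a1, a2⟩ | ⟨a1, a2⟩
        · left
          constructor
          · by_contra hlt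
            push Not at hlt
            nlinarith
          · by_contra hlt
            push Not at hlt
            nlinarith
        · right
          constructor
          · by_contra hlt
            push Not at hlt
            nlinarith
          · by_contra hlt
            push Not at hlt
            nlinarith
      obtain ⟨g', hgL, hg'⟩ := h1 _ hq
      obtain ⟨r, hr⟩ : ∃ r : ℕ, (r : ℤ) = t % (k : ℤ) := ⟨(t % (k : ℤ)).toNat, by omega⟩
      have hrk : r < k := by omega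
      have ht' : t = (k : ℤ) * (t / (k : ℤ)) + r := by omega
      refine ⟨A.cell g' x r hx hrk, by rw [A.co_cell]; exact hgL, ?_⟩
      rw [A.can'_cell]
      conv_lhs => rw [ht']
      rw [subZ_eq A.hk _ hx hrk]
      exact sub_congr _ _ hg' rfl rfl
    · rw [subZ_pow, A.can'_cell]
      have : (y : ℤ) + ((k : ℤ) * z + y' - y) = (k : ℤ) * z + y' := by ring
      rw [this, subZ_eq A.hk _ hx hy']
      exact sub_congr _ _ h2 rfl rfl
    · rw [A.ty_cell]; exact h3
  K := B.K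
  K_act := B.K_act
  K_nc := B.K_nc
  K_N := B.K_N
  K_S := B.K_S
  ls := B.ls
  lz := B.lz
  ld := B.ld
  lean := B.lean
  cut := B.cut
  conn := fun φ c1 c2 c3 c4 c5 => by
    have main := A.conn (fun f x y => if h : x < k ∧ y < k then φ (A.cell f x y h.1 h.2) else True)
      ?_ ?_ ?_ ?_ ?_ ?_ ?_ ?_
    · intro f g hf hg
      obtain ⟨F, x, y, hx, hy, rfl⟩ :
          ∃ F x y, ∃ (hx : x < k) (hy : y < k), f = A.cell F x y hx hy :=
        ⟨_, _, _, _, _, A.cell_surj f⟩
      obtain ⟨G, x', y', hx', hy', rfl⟩ :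
          ∃ F x y, ∃ (hx : x < k) (hy : y < k), g = A.cell F x y hx hy :=
        ⟨_, _, _, _, _, A.cell_surj g⟩
      rw [A.ty_cell] at hf hg
      have := main F x y G x' y' hx hy hx' hy' hf hg
      rw [dif_pos ⟨hx, hy⟩, dif_pos ⟨hx', hy'⟩] at this
      exact this
    · intro f x y hx hy h
      rw [dif_pos ⟨hx, by omega⟩, dif_pos ⟨hx, hy⟩]
      exact c1 _ _ (A.link_N_mid f hx hy) (by rw [A.ty_cell]; exact h)
    · intro f x y hx hy h
      rw [dif_pos ⟨hx, by omega⟩, dif_pos ⟨hx, hy⟩]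
      exact c2 _ _ (A.link_N_mid f hx hy) (by rw [A.ty_cell]; exact h)
    · intro f x y hx hy h
      rw [dif_pos ⟨by omega, hy⟩, dif_pos ⟨hx, hy⟩]
      exact c3 _ _ (A.link_E_mid f hx hy) (by rw [A.ty_cell]; exact h)
    · intro f g hfg x hx h
      have := A.hk
      rw [dif_pos ⟨hx, by omega⟩, dif_pos ⟨hx, A.hk⟩]
      exact c1 _ _ (A.link_N_end hfg hx) (by rw [A.ty_cell]; exact h)
    · intro f g hfg x hx h
      have := A.hk
      rw [dif_pos ⟨hx, by omega⟩, dif_pos ⟨hx, A.hk⟩]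
      exact c2 _ _ (A.link_N_end hfg hx) (by rw [A.ty_cell]; exact h)
    · intro f g hfg y hy h
      have := A.hk
      rw [dif_pos ⟨by omega, hy⟩, dif_pos ⟨A.hk, hy⟩]
      exact c3 _ _ (A.link_E_end hfg hy) (by rw [A.ty_cell]; exact h)
    · intro f g hfg y hy h
      have := A.hk
      rw [dif_pos ⟨by omega, hy⟩, dif_pos ⟨by omega, by omega⟩]
      exact c4 _ _ (A.link_E_rev hfg hy) (by rw [A.ty_cell]; exact h)
    · intro f g hfg y hy h
      have := A.hk
      rw [dif_pos ⟨A.hk, hy⟩, dif_pos ⟨A.hk, by omega⟩]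
      exact c5 _ _ (A.link_W_rev hfg hy) (by rw [A.ty_cell]; exact h)
  ne := by
    obtain ⟨f⟩ := A.ne
    exact ⟨A.cell f 0 0 A.hk A.hk⟩

/-- **A pattern curve gives an edge unfolding of the refinement.** -/
theorem hasEdgeUnfolding (A : P.VPat k) (B : A.Lns) : (P.refine k A.hk).HasEdgeUnfolding :=
  (A.cellCurve B).hasEdgeUnfolding

end VPat

end GridSolid

end Pool.Agent.Helper55.UNF
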