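import Pool.Agent.MP42.H.Sup
import Pool.Agent.MP42.V.Tab

/-!
# Tables on states with leaning facets
-/

set_option autoImplicit false
set_option linter.unusedSectionVars false

namespace Pool.Agent.MP42H

open Pool.Agent.Helper55.UNF Pool.Agent.Helper55.UNF.GridSolid

lemma pat_W2 : ∀ b u v, okc true b u v = true → pat true b u v 0 2 = Ty.H := by decide

lemma pat_E2 : ∀ a u v, okc a true u v = true → pat a true u v 4 2 = Ty.H := by decide

lemma pat_Wo : ∀ b u v, okc true b u v = true → ∀ j < 5, j ≠ 2 → pat true b u v 0 j = Ty.o := by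
  decide

lemma pat_Eo : ∀ a u v, okc a true u v = true → ∀ j < 5, j ≠ 2 → pat a true u v 4 j = Ty.o := by
  decide

variable {P : GridSolid} {k : ℕ}

lemma sub_inj {κ : ℕ} {hκ : 0 < κ} {s t : P.FSt} {x y x' y' : ℕ} {hx : x < κ} {hy : y < κ}
    {hx' : x' < κ} {hy' : y' < κ} (h : sub hκ s x y hx hy = sub hκ t x' y' hx' hy') :
    s = t ∧ x = x' ∧ y = y' := by
  have hf : s.facet = t.facet := by
    rw [← co_sub hκ s hx hy, ← co_sub hκ t hx' hy', h]
  have he : s.1.e = t.1.e := congrArg (fun u : (P.refine κ hκ).FSt => u.1.e) h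
  have hst : s = t := by
    apply FSt.ext'
    obtain ⟨⟨c, d, e⟩, hs⟩ := s
    obtain ⟨⟨c', d', e'⟩, ht⟩ := t
    have h1 := congrArg Subtype.val hf
    simp only [FSt.facet, Prod.mk.injEq] at h1
    obtain ⟨rfl, rfl⟩ := h1
    have : e = e' := he
    subst this
    rfl
  subst hst
  have hc : subC κ s.1 x y = subC κ s.1 x' y' :=
    congrArg (fun u : (P.refine κ hκ).FSt => u.1.c) h
  refine ⟨rfl, ?_, ?_⟩
  · rw [← ix_subC_e s.1 s.2.2 hx hy, ← ix_subC_e s.1 s.2.2 hx' hy', hc]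
  · rw [← ix_subC_n s.1 s.2.2 hx hy, ← ix_subC_n s.1 s.2.2 hx' hy', hc]

/-- the data of a state table with leaning facets, without the supports -/
structure VS (B : STab P k) (L : P.Facet → Prop) : Prop where
  no_pr : ∀ s, Act B.can s → L s.facet → ∀ x y, x ≤ k → y < k → B.pr s x y = false
  no_la : ∀ s, Act B.can s → L s.facet → ∀ x y, x < k → y ≤ k → B.la s x y = Ln.z
  cov : ∀ s, Cn B.can s → ¬ L s.facet → ∀ x < k, ∀ w : Bool, ∃ z : ℤ,
    (∀ y ∈ Set.uIcc 0 z, Cn B.can ((pN ^ y) s) ∧ ¬ L ((pN ^ y) s).facet) ∧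
    ∃ y < k, B.pr ((pN ^ z) s) (if w then x else x + 1) y = true
  con : B.Con
  ne : Nonempty P.Facet
  hor : ∀ s, Act B.can s → Act B.can s.stN → (Cn B.can s.stN ↔ Cn B.can s)

section

variable {B : STab P k} {L : P.Facet → Prop} (h : VS B L)

/-- the table in facet form -/
noncomputable def vt : P.VTab k where
  hk := B.hk
  can := B.can
  can_facet := B.can_facet
  pr := fun f => B.pr (B.can f)
  la := fun f => B.la (B.can f)
  ok := B.f_ok
  gN := B.f_gN
  gN' := B.f_gN'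
  gS' := B.f_gS'
  gE := B.f_gE
  gEr := B.f_gEr
  gWr := B.f_gWr
  gE' := B.f_gE'
  gW' := B.f_gW'
  L := L
  Lpr := fun f hf => h.no_pr _ (B.act_can f) (by rw [B.can_facet]; exact hf)
  Lla := fun f hf => h.no_la _ (B.act_can f) (by rw [B.can_facet]; exact hf)
  cov := fun f hf x hx w => by
    obtain ⟨z, h1, y, hy, h2⟩ := h.cov (B.can f) (B.cn_can f) (by rw [B.can_facet]; exact hf) x hx w
    refine ⟨z, fun y hy => ⟨_, (h1 y hy).2, (h1 y hy).1.symm⟩, _,
      (h1 z Set.right_mem_uIcc).1.symm, y, hy, ?_⟩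
    rw [(h1 z Set.right_mem_uIcc).1]
    exact h2
  conn := fun ψ χ h1 h2 h3 h4 h5 => by
    obtain ⟨c, hc1, hc2⟩ := h.con _ _ (B.srel h1 h2 h3 h4 h5)
    refine ⟨c, ?_, ?_⟩
    · intro f x y hx hy hp
      rw [← B.SV_can ψ f x y]
      exact hc1 _ (B.cn_can f) x y hx hy hp
    · intro f x y hx hy hp
      rw [← B.SH_can χ f x y]
      exact hc2 _ (B.cn_can f) x y hx hy hp
  ne := h.ne

/-- the pattern curve -/
noncomputable def vp : P.VPat (5 * k) := (vt h).toPat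

/-- the state of the refinement -/
def sb (s : P.FSt) (X Y : ℕ) (hX : X < 5 * k) (hY : Y < 5 * k) : (P.refine (5 * k) (vp h).hk).FSt :=
  sub (vp h).hk s X Y hX hY

lemma sb_congr {s t : P.FSt} {x y x' y' : ℕ} (hx : x < 5 * k) (hy : y < 5 * k) (hs : s = t)
    (h1 : x = x') (h2 : y = y') :
    sb h s x y hx hy = sb h t x' y' (h1 ▸ hx) (h2 ▸ hy) := by
  subst hs; subst h1; subst h2; rfl

lemma sb_r2 (s : P.FSt) {X Y : ℕ} (hX : X < 5 * k) (hY : Y < 5 * k) :
    (sb h s X Y hX hY).r2 = sb h s.r2 (5 * k - 1 - X) (5 * k - 1 - Y) (by omega) (by omega) :=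
  sub_r2 s hX hY

lemma co_sb (s : P.FSt) {X Y : ℕ} (hX : X < 5 * k) (hY : Y < 5 * k) :
    co (vp h).hk (sb h s X Y hX hY).facet = s.facet := co_sub _ s hX hY

lemma cn_sb {s : P.FSt} (hs : Cn B.can s) {X Y : ℕ} (hX : X < 5 * k) (hY : Y < 5 * k) :
    sb h s X Y hX hY = (vp h).can' (sb h s X Y hX hY).facet := by
  have e : s = (vp h).can s.facet := Eq.symm hs
  have h1 : sb h s X Y hX hY = sub (vp h).hk ((vp h).can s.facet) X Y hX hY :=
    sub_congr _ _ e rfl rfl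
  rw [h1]
  exact ((vp h).can'_cell s.facet hX hY).symm

lemma ty_sb {s : P.FSt} (hs : Cn B.can s) {X Y : ℕ} (hX : X < 5 * k) (hY : Y < 5 * k) :
    (vp h).ty (sb h s X Y hX hY).facet = (vt h).T s.facet X Y := by
  have e : s = (vp h).can s.facet := Eq.symm hs
  have h1 : sb h s X Y hX hY = sub (vp h).hk ((vp h).can s.facet) X Y hX hY :=
    sub_congr _ _ e rfl rfl
  rw [h1]
  exact (vp h).ty_cell s.facet hX hY

lemma act_sb {s : P.FSt} (hs : Act B.can s) {X Y : ℕ} (hX : X < 5 * k) (hY : Y < 5 * k) :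
    sb h s X Y hX hY = (vp h).can' (sb h s X Y hX hY).facet ∨
      sb h s X Y hX hY = ((vp h).can' (sb h s X Y hX hY).facet).r2 := by
  rcases hs with hs | hs
  · exact Or.inl (cn_sb h hs hX hY)
  · right
    have h1 : Cn B.can s.r2 := hs
    have h2 := cn_sb h h1 (X := 5 * k - 1 - X) (Y := 5 * k - 1 - Y) (by omega) (by omega)
    rw [← sb_r2] at h2
    have h3 := congrArg FSt.r2 h2
    rw [FSt.r2_r2] at h3
    exact h3

/-- the canonical states of the refinement -/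
lemma cn_sb_iff {s : P.FSt} (hs : Act B.can s) {X Y : ℕ} (hX : X < 5 * k) (hY : Y < 5 * k) :
    sb h s X Y hX hY = (vp h).can' (sb h s X Y hX hY).facet ↔ Cn B.can s := by
  constructor
  · intro h1
    rcases hs with hs | hs
    · exact hs
    · exfalso
      have h0 : Cn B.can s.r2 := hs
      have h2 := cn_sb h h0 (X := 5 * k - 1 - X) (Y := 5 * k - 1 - Y) (by omega) (by omega)
      rw [← sb_r2 h s hX hY, FSt.facet_r2, ← h1] at h2
      exact FSt.r2_ne _ h2
  · intro h1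
    exact cn_sb h h1 hX hY

/-- the types of the cells in the frame of a state -/
lemma ty_st {s : P.FSt} (hs : Act B.can s) {x y i j : ℕ} (hx : x < k) (hy : y < k) (hi : i < 5)
    (hj : j < 5) :
    (okc (B.pr s x y) (B.pr s (x + 1) y) (B.la s x (y + 1)) (B.la s x y) = true ∧
      (vp h).ty (sb h s (5 * x + i) (5 * y + j) (by omega) (by omega)).facet =
      pat (B.pr s x y) (B.pr s (x + 1) y) (B.la s x (y + 1)) (B.la s x y) i j) ∨
    (okc (B.pr s (x + 1) y) (B.pr s x y) (B.la s x y) (B.la s x (y + 1)) = true ∧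
      (vp h).ty (sb h s (5 * x + i) (5 * y + j) (by omega) (by omega)).facet =
      pat (B.pr s (x + 1) y) (B.pr s x y) (B.la s x y) (B.la s x (y + 1)) (4 - i) (4 - j)) := by
  have hs0 := hs
  rcases hs with hs | hs
  · left
    refine ⟨B.ok s hs0 x y hx hy, ?_⟩
    rw [ty_sb h hs, (vt h).T_eq s.facet x y i j hi hj]
    have e : B.can s.facet = s := hs
    show pat (B.pr (B.can s.facet) x y) (B.pr (B.can s.facet) (x + 1) y)
      (B.la (B.can s.facet) x (y + 1)) (B.la (B.can s.facet) x y) i j = _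
    rw [e]
  · right
    have hs1 : Cn B.can s.r2 := hs
    have hact : Act B.can s.r2 := Or.inl hs1
    have e1 : B.pr s.r2 (k - 1 - x) (k - 1 - y) = B.pr s (x + 1) y := by
      rw [B.pr_rot s hs0 _ _ (by omega) (by omega)]
      congr 1 <;> omega
    have e2 : B.pr s.r2 (k - 1 - x + 1) (k - 1 - y) = B.pr s x y := by
      rw [B.pr_rot s hs0 _ _ (by omega) (by omega)]
      congr 1 <;> omega
    have e3 : B.la s.r2 (k - 1 - x) (k - 1 - y + 1) = B.la s x y := by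
      rw [B.la_rot s hs0 _ _ (by omega) (by omega)]
      congr 1 <;> omega
    have e4 : B.la s.r2 (k - 1 - x) (k - 1 - y) = B.la s x (y + 1) := by
      rw [B.la_rot s hs0 _ _ (by omega) (by omega)]
      congr 1 <;> omega
    have hok := B.ok s.r2 hact (k - 1 - x) (k - 1 - y) (by omega) (by omega)
    rw [e1, e2, e3, e4] at hok
    refine ⟨hok, ?_⟩
    have f1 : (sb h s (5 * x + i) (5 * y + j) (by omega) (by omega)).facet =
        (sb h s.r2 (5 * (k - 1 - x) + (4 - i)) (5 * (k - 1 - y) + (4 - j)) (by omega)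
          (by omega)).facet := by
      rw [← FSt.facet_r2, sb_r2]
      exact congrArg FSt.facet (sb_congr h _ _ rfl (by omega) (by omega))
    rw [f1, ty_sb h hs1, (vt h).T_eq s.r2.facet _ _ _ _ (by omega) (by omega)]
    have e : B.can s.r2.facet = s.r2 := hs1
    show pat (B.pr (B.can s.r2.facet) (k - 1 - x) (k - 1 - y))
      (B.pr (B.can s.r2.facet) (k - 1 - x + 1) (k - 1 - y))
      (B.la (B.can s.r2.facet) (k - 1 - x) (k - 1 - y + 1))
      (B.la (B.can s.r2.facet) (k - 1 - x) (k - 1 - y)) (4 - i) (4 - j) = _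
    rw [e, e1, e2, e3, e4]

/-- a straight row -/
lemma ty_row {s : P.FSt} (hs : Act B.can s) {y0 : ℕ} (hy : y0 < k)
    (h4 : ∀ x ≤ k, B.pr s x y0 = true)
    (h5 : ∀ x < k, B.la s x y0 = Ln.z ∧ B.la s x (y0 + 1) = Ln.z) {X : ℕ} (hX : X < 5 * k) :
    (vp h).ty (sb h s X (5 * y0 + 2) hX (by omega)).facet = Ty.H := by
  obtain ⟨x, i, rfl, hi, hx⟩ := VTab.ex5 X hX
  rcases ty_st h hs hx hy hi (show 2 < 5 by norm_num) with ⟨-, h1⟩ | ⟨-, h1⟩
  · rw [h1, h4 x hx.le, h4 (x + 1) hx, (h5 x hx).1, (h5 x hx).2]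
    exact pat_row i hi
  · rw [h1, h4 x hx.le, h4 (x + 1) hx, (h5 x hx).1, (h5 x hx).2]
    exact pat_row (4 - i) (by omega)

/-- the outer column of cells -/
def X0 (k : ℕ) (E : Bool) : ℕ := if E then 0 else 5 * k - 1

lemma X0_lt (hk : 0 < k) (E : Bool) : X0 k E < 5 * k := by
  unfold X0; split_ifs <;> omega

/-- the type of a cell in the outer column -/
lemma ty_out {s : P.FSt} (hs : Act B.can s) (E : Bool) {y j : ℕ} (hy : y < k) (hj : j < 5) :
    (vp h).ty (sb h s (X0 k E) (5 * y + j) (X0_lt B.hk E) (by omega)).facet =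
      if B.pr s (sln k E) y = true ∧ j = 2 then Ty.H else Ty.o := by
  have hk := B.hk
  have key : ∀ (a b : Bool) (u v : Ln) (i j : ℕ), j < 5 → okc a b u v = true →
      ((i = 0 ∧ pat a b u v i j = if a = true ∧ j = 2 then Ty.H else Ty.o) ∨
       (i = 4 ∧ pat a b u v i j = if b = true ∧ j = 2 then Ty.H else Ty.o)) ∨ (i ≠ 0 ∧ i ≠ 4) := by
    intro a b u v i j hj hok
    by_cases h0 : i = 0
    · left; left
      refine ⟨h0, ?_⟩
      subst h0
      cases a
      · rw [pat_empty_W b u v hok j hj, if_neg (by simp)]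
      · by_cases h2 : j = 2
        · subst h2; rw [pat_W2 b u v hok, if_pos ⟨rfl, rfl⟩]
        · rw [pat_Wo b u v hok j hj h2, if_neg (by simp [h2])]
    · by_cases h4 : i = 4
      · left; right
        refine ⟨h4, ?_⟩
        subst h4
        cases b
        · rw [pat_empty_E a u v hok j hj, if_neg (by simp)]
        · by_cases h2 : j = 2
          · subst h2; rw [pat_E2 a u v hok, if_pos ⟨rfl, rfl⟩]
          · rw [pat_Eo a u v hok j hj h2, if_neg (by simp [h2])]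
      · exact Or.inr ⟨h0, h4⟩
  have j2 : (4 - j = 2) ↔ (j = 2) := by omega
  cases E
  · -- west neighbour of the leaning facets: the column on the east side
    have e0 : (sb h s (X0 k false) (5 * y + j) (X0_lt B.hk false) (by omega)) =
        sb h s (5 * (k - 1) + 4) (5 * y + j) (by omega) (by omega) :=
      sb_congr h _ _ rfl (by unfold X0; simp; omega) rfl
    rw [e0]
    show _ = if B.pr s k y = true ∧ j = 2 then Ty.H else Ty.o
    rcases ty_st h hs (show k - 1 < k by omega) hy (show 4 < 5 by norm_num) hj with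
      ⟨h1, h2⟩ | ⟨h1, h2⟩
    · rw [h2]
      rw [Nat.sub_add_cancel hk] at h1 ⊢
      rcases key _ _ _ _ 4 j hj h1 with (⟨h3, -⟩ | ⟨-, h3⟩) | ⟨-, h3⟩
      · omega
      · exact h3
      · omega
    · rw [h2]
      rw [Nat.sub_add_cancel hk] at h1 ⊢
      rcases key _ _ _ _ (4 - 4) (4 - j) (by omega) h1 with (⟨-, h3⟩ | ⟨h3, -⟩) | ⟨h3, -⟩
      · rw [h3]; simp only [j2]
      · omega
      · omega
  · have e0 : (sb h s (X0 k true) (5 * y + j) (X0_lt B.hk true) (by omega)) =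
        sb h s (5 * 0 + 0) (5 * y + j) (by omega) (by omega) :=
      sb_congr h _ _ rfl rfl rfl
    rw [e0]
    show _ = if B.pr s 0 y = true ∧ j = 2 then Ty.H else Ty.o
    rcases ty_st h hs hk hy (show 0 < 5 by norm_num) hj with ⟨h1, h2⟩ | ⟨h1, h2⟩
    · rw [h2]
      rcases key _ _ _ _ 0 j hj h1 with (⟨-, h3⟩ | ⟨h3, -⟩) | ⟨h3, -⟩
      · exact h3
      · omega
      · omega
    · rw [h2]
      rcases key _ _ _ _ (4 - 0) (4 - j) (by omega) h1 with (⟨h3, -⟩ | ⟨-, h3⟩) | ⟨-, h3⟩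
      · omega
      · rw [h3]; simp only [j2]
      · omega

/-! ## Supports -/

/-- the data of a regular end of a support -/
structure RegD (B : STab P k) (L : P.Facet → Prop) (K : Bool → P.FSt → Prop) (E : Bool) (n : ℕ)
    (g : P.FSt) (y0 : ℕ) : Prop where
  hy : y0 < k
  h1 : ∀ y : ℕ, y ≤ n → Act B.can ((pN ^ y) g) ∧ ¬ L ((pN ^ y) g).facet
  h2 : B.pr g (sln k E) y0 = true
  h3 : ∀ j, y0 < j → j < k → B.pr g (sln k E) j = false
  h4 : ∀ y : ℕ, 0 < y → y ≤ n → ∀ j < k, B.pr ((pN ^ y) g) (sln k E) j = false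
  h5 : ∀ y : ℕ, 0 < y → y ≤ n → K E ((pN ^ y) g)

/-- the data of a leaning facet of a support -/
structure LngD (B : STab P k) (L : P.Facet → Prop) (Pl : ℕ → P.FSt → ℕ → Prop) (E : Bool) (n : ℕ)
    (g : P.FSt) (y0 : ℕ) : Prop where
  hy : y0 < k
  h1 : Act B.can g
  h2 : Pl n g y0
  h3 : L ((pN ^ n) g).facet
  h4 : ∀ x ≤ k, B.pr g x y0 = true
  h5 : ∀ x < k, B.la g x y0 = Ln.z ∧ B.la g x (y0 + 1) = Ln.z
  h6 : ∀ y : ℕ, y ≤ n → nbr E ((pN ^ y) g) = (pN ^ y) (nbr E g)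

/-- supports with their length -/
def SupN (B : STab P k) (L : P.Facet → Prop) (Pl : ℕ → P.FSt → ℕ → Prop)
    (K : Bool → P.FSt → Prop) (E : Bool) (n : ℕ) : ℕ → P.FSt → ℕ → Prop
  | 0, g, y0 => RegD B L K E n g y0
  | m + 1, g, y0 => LngD B L Pl E n g y0 ∧ SupN B L Pl K E n m (nbr E g) y0

lemma exists_supN {L : P.Facet → Prop} {Pl : ℕ → P.FSt → ℕ → Prop} {K : Bool → P.FSt → Prop}
    {can : P.Facet → P.FSt} (B : STab P k) (hact : ∀ s, Act can s → Act B.can s) {E : Bool}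
    {n : ℕ} {g : P.FSt} {y0 : ℕ} (hS : Sup k can B.pr B.la L Pl K E n g y0) :
    ∃ m, SupN B L Pl K E n m g y0 := by
  induction hS with
  | reg g y0 hy h1 h2 h3 h4 h5 =>
    exact ⟨0, hy, fun y hy => ⟨hact _ (h1 y hy).1, (h1 y hy).2⟩, h2, h3, h4, h5⟩
  | lng g y0 hy h1 h2 h3 h4 h5 h6 h7 ih =>
    obtain ⟨m, hm⟩ := ih
    exact ⟨m + 1, ⟨hy, hact _ h1, h2, h3, h4, h5, h6⟩, hm⟩

variable {K : Bool → P.FSt → Prop} {Pl : ℕ → P.FSt → ℕ → Prop}

/-- the number of cells over a strand -/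
def top (k n y0 : ℕ) : ℕ := 5 * k * n + (5 * k - 1) - (5 * y0 + 2)

/-- the cell at a height over a strand, in the outer column -/
noncomputable def ou (E : Bool) (g : P.FSt) (y0 i : ℕ) : (P.refine (5 * k) (vp h).hk).FSt :=
  subZ (vp h).hk g (X0 k E) (X0_lt B.hk E) ((5 * y0 + 2 + i : ℕ) : ℤ)

lemma ou_eq (E : Bool) (g : P.FSt) (y0 i q r : ℕ) (hr : r < 5 * k)
    (e : 5 * y0 + 2 + i = 5 * k * q + r) :
    ou h E g y0 i = sb h ((pN ^ q) g) (X0 k E) r (X0_lt B.hk E) hr := by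
  unfold ou
  rw [e]
  have := subZ_eq (vp h).hk g (X0_lt B.hk E) hr (q : ℤ)
  rw [zpow_natCast] at this
  rw [show ((5 * k * q + r : ℕ) : ℤ) = ((5 * k : ℕ) : ℤ) * (q : ℤ) + (r : ℤ) by push_cast; ring]
  exact this

lemma ou_stN (E : Bool) (g : P.FSt) (y0 i : ℕ) :
    (ou h E g y0 i).stN = ou h E g y0 (i + 1) := by
  unfold ou
  rw [subZ_stN]
  congr 1

lemma qr (hk : 0 < k) {n y0 i : ℕ} (hy : y0 < k) (hi : i ≤ top k n y0) :
    ∃ q r, q ≤ n ∧ r < 5 * k ∧ 5 * y0 + 2 + i = 5 * k * q + r := by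
  refine ⟨(5 * y0 + 2 + i) / (5 * k), (5 * y0 + 2 + i) % (5 * k), ?_, Nat.mod_lt _ (by omega),
    (Nat.div_add_mod _ _).symm⟩
  unfold top at hi
  have h1 : 5 * y0 + 2 + i ≤ 5 * k * n + (5 * k - 1) := by omega
  have h2 : 5 * k * n + (5 * k - 1) < 5 * k * (n + 1) := by
    rw [mul_add, mul_one]; omega
  have h3 := (Nat.div_lt_iff_lt_mul (show 0 < 5 * k by omega)).2
    (show 5 * y0 + 2 + i < (n + 1) * (5 * k) by rw [mul_comm (n + 1)]; omega)
  omega

/-- the cells of a support line are not occupied -/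
lemma ou_ty {E : Bool} {n : ℕ} {g : P.FSt} {y0 : ℕ} (D : RegD B L K E n g y0) {i : ℕ}
    (h1 : 1 ≤ i) {q r : ℕ} (hq : q ≤ n) (hr : r < 5 * k) (e : 5 * y0 + 2 + i = 5 * k * q + r) :
    (vp h).ty (ou h E g y0 i).facet = Ty.o := by
  rw [ou_eq h E g y0 i q r hr e]
  obtain ⟨y, j, rfl, hj, hy⟩ := VTab.ex5 r hr
  rw [ty_out h (D.h1 q hq).1 E hy hj, if_neg]
  rintro ⟨h2, h3⟩
  rcases Nat.eq_zero_or_pos q with h0 | h0
  · subst h0
    rw [pow_zero, Equiv.Perm.coe_one, id_eq] at h2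
    rw [mul_zero, zero_add] at e
    have hlt : y0 < y := by omega
    rw [D.h3 y hlt hy] at h2
    exact absurd h2 (by simp)
  · rw [D.h4 q h0 hq y hy] at h2
    exact absurd h2 (by simp)

lemma ou_zero_ty {E : Bool} {n : ℕ} {g : P.FSt} {y0 : ℕ} (D : RegD B L K E n g y0) :
    (vp h).ty (ou h E g y0 0).facet = Ty.H := by
  have hy := D.hy
  have e : 5 * y0 + 2 + 0 = 5 * k * 0 + (5 * y0 + 2) := by ring
  rw [ou_eq h E g y0 0 0 _ (by omega) e, ty_out h (D.h1 0 (Nat.zero_le _)).1 E D.hy (by norm_num),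
    if_pos ⟨D.h2, rfl⟩]

include h in
lemma or_line {E : Bool} {n : ℕ} {g : P.FSt} {y0 : ℕ} (D : RegD B L K E n g y0) :
    ∀ q, q ≤ n → (Cn B.can ((pN ^ q) g) ↔ Cn B.can g) := by
  intro q
  induction q with
  | zero => intro _; rw [pow_zero]; rfl
  | succ q ih =>
    intro hq
    rw [← ih (by omega)]
    have e : (pN ^ (q + 1)) g = ((pN ^ q) g).stN := by
      rw [pow_succ', Equiv.Perm.mul_apply]; rfl
    have h1 := (D.h1 (q + 1) hq).1
    rw [e] at h1 ⊢
    exact h.hor _ (D.h1 q (by omega)).1 h1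

lemma ou_cn {E : Bool} {n : ℕ} {g : P.FSt} {y0 : ℕ} (D : RegD B L K E n g y0) {i : ℕ}
    (hi : i ≤ top k n y0) :
    (ou h E g y0 i = (vp h).can' (ou h E g y0 i).facet ∨
      ou h E g y0 i = ((vp h).can' (ou h E g y0 i).facet).r2) ∧
    (ou h E g y0 i = (vp h).can' (ou h E g y0 i).facet ↔ Cn B.can g) ∧
    ¬ L (co (vp h).hk (ou h E g y0 i).facet) := by
  obtain ⟨q, r, hq, hr, e⟩ := qr B.hk D.hy hi
  rw [ou_eq h E g y0 i q r hr e, co_sb]
  refine ⟨act_sb h (D.h1 q hq).1 _ hr, ?_, (D.h1 q hq).2⟩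
  rw [cn_sb_iff h (D.h1 q hq).1, or_line h D q hq]

variable (L K) in
/-- the cells that hang on the south -/
def Kc (S : (P.refine (5 * k) (vp h).hk).FSt) : Prop :=
  ∃ (E : Bool) (n : ℕ) (g : P.FSt) (y0 : ℕ), RegD B L K E n g y0 ∧
    ∃ i : ℕ, 1 ≤ i ∧ i ≤ top k n y0 ∧ S = ou h E g y0 i

lemma Kc_act (S : (P.refine (5 * k) (vp h).hk).FSt) (hS : Kc L h K S) :
    S = (vp h).can' S.facet ∨ S = ((vp h).can' S.facet).r2 := by
  obtain ⟨E, n, g, y0, D, i, h1, h2, rfl⟩ := hS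
  exact (ou_cn h D h2).1

lemma Kc_nc (hnc : ∀ E s, K E s → ¬ K (!E) s.r2) (S : (P.refine (5 * k) (vp h).hk).FSt)
    (hS : Kc L h K S) : ¬ Kc L h K S.r2 := by
  have hk := B.hk
  obtain ⟨E, n, g, y0, D, i, h1, h2, rfl⟩ := hS
  rintro ⟨E', n', g', y0', D', i', h1', h2', h3⟩
  obtain ⟨q, r, hq, hr, e⟩ := qr hk D.hy h2
  obtain ⟨q', r', hq', hr', e'⟩ := qr hk D'.hy h2'
  rw [ou_eq h E g y0 i q r hr e, ou_eq h E' g' y0' i' q' r' hr' e', sb_r2] at h3
  obtain ⟨k1, k2, k3⟩ := sub_inj h3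
  have hE : E' = !E := by
    unfold X0 at k2
    cases E <;> cases E' <;> simp at k2 ⊢ <;> omega
  subst hE
  have hA := (D.h1 q hq).1
  have hA' := (D'.h1 q' hq').1
  have side : ∀ j < k, B.pr ((pN ^ q') g') (sln k (!E)) j =
      B.pr ((pN ^ q) g) (sln k E) (k - 1 - j) := by
    intro j hj
    rw [← k1, B.pr_rot _ hA _ _ (by unfold sln; split_ifs <;> omega) hj]
    congr 1
    unfold sln
    cases E <;> simp
  rcases Nat.eq_zero_or_pos q with h0 | h0 <;> rcases Nat.eq_zero_or_pos q' with h0' | h0'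
  · subst h0; subst h0'
    have t1 := side y0' D'.hy
    have t2 := D'.h2
    have t2' : B.pr ((pN ^ 0) g') (sln k (!E)) y0' = true := t2
    rw [t2'] at t1
    have t3 : ¬ y0 < k - 1 - y0' := by
      intro hlt
      have := D.h3 (k - 1 - y0') hlt (by have := D'.hy; omega)
      have t4 : B.pr ((pN ^ 0) g) (sln k E) (k - 1 - y0') = false := this
      rw [t4] at t1
      exact absurd t1 (by simp)
    have hy := D.hy
    have hy' := D'.hy
    omega
  · subst h0
    have hy := D.hy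
    have t1 := side (k - 1 - y0) (by omega)
    rw [D'.h4 q' h0' hq' _ (by omega), show k - 1 - (k - 1 - y0) = y0 by omega] at t1
    have t2 : B.pr ((pN ^ 0) g) (sln k E) y0 = true := D.h2
    rw [t2] at t1
    exact absurd t1 (by simp)
  · subst h0'
    have hy := D'.hy
    have t1 := side y0' hy
    rw [D.h4 q h0 hq _ (by omega)] at t1
    have t2 : B.pr ((pN ^ 0) g') (sln k (!E)) y0' = true := D'.h2
    rw [t2] at t1
    exact absurd t1 (by simp)
  · have t1 := D.h5 q h0 hq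
    have t2 := D'.h5 q' h0' hq'
    rw [← k1] at t2
    exact hnc _ _ t1 t2

lemma Kc_N (f : (P.refine (5 * k) (vp h).hk).Facet) (hS : Kc L h K ((vp h).can' f)) :
    ¬ L (co (vp h).hk f) ∧ (vp h).ty f = Ty.o ∧
    ∃ g, ¬ L (co (vp h).hk g) ∧ ((vp h).can' g).stN = (vp h).can' f ∧
      (Kc L h K ((vp h).can' g) ∨ ((vp h).ty g).wp = true) := by
  obtain ⟨E, n, g, y0, D, i, h1, h2, h3⟩ := hS
  obtain ⟨q, r, hq, hr, e⟩ := qr B.hk D.hy h2
  have hf : (ou h E g y0 i).facet = f := by rw [← h3, (vp h).can'_facet]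
  obtain ⟨-, c2, c3⟩ := ou_cn h D h2
  have c4 := ou_ty h D h1 hq hr e
  rw [hf] at c2 c3 c4
  have hcn := c2.1 h3.symm
  obtain ⟨i, rfl⟩ : ∃ j, i = j + 1 := ⟨i - 1, by omega⟩
  obtain ⟨-, d2, d3⟩ := ou_cn h D (show i ≤ top k n y0 by omega)
  have d4 := d2.2 hcn
  refine ⟨c3, c4, (ou h E g y0 i).facet, d3, ?_, ?_⟩
  · rw [← d4, ou_stN, h3]
  · rcases Nat.eq_zero_or_pos i with h0 | h0
    · right
      subst h0
      rw [ou_zero_ty h D]; rfl
    · left
      exact ⟨E, n, g, y0, D, i, h0, by omega, d4.symm⟩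

lemma Kc_S (f : (P.refine (5 * k) (vp h).hk).Facet) (hS : Kc L h K ((vp h).can' f).r2) :
    ¬ L (co (vp h).hk f) ∧ (vp h).ty f = Ty.o ∧
    ∃ g, ¬ L (co (vp h).hk g) ∧ ((vp h).can' f).stN = (vp h).can' g ∧
      (Kc L h K ((vp h).can' g).r2 ∨ ((vp h).ty g).wp = true) := by
  obtain ⟨E, n, g, y0, D, i, h1, h2, h3⟩ := hS
  obtain ⟨q, r, hq, hr, e⟩ := qr B.hk D.hy h2
  have hf : (ou h E g y0 i).facet = f := by rw [← h3, FSt.facet_r2, (vp h).can'_facet]
  obtain ⟨-, c2, c3⟩ := ou_cn h D h2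
  have c4 := ou_ty h D h1 hq hr e
  rw [hf] at c2 c3 c4
  have hcn : ¬ Cn B.can g := by
    intro hc
    have := c2.2 hc
    rw [← h3] at this
    exact FSt.r2_ne _ this
  obtain ⟨i, rfl⟩ : ∃ j, i = j + 1 := ⟨i - 1, by omega⟩
  obtain ⟨d1, d2, d3⟩ := ou_cn h D (show i ≤ top k n y0 by omega)
  have d4 : ou h E g y0 i = ((vp h).can' (ou h E g y0 i).facet).r2 := by
    rcases d1 with d1 | d1
    · exact absurd (d2.1 d1) hcn
    · exact d1
  refine ⟨c3, c4, (ou h E g y0 i).facet, d3, ?_, ?_⟩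
  · have e1 : (vp h).can' f = (ou h E g y0 i).stN.r2 := by
      rw [ou_stN, ← h3, FSt.r2_r2]
    rw [e1, FSt.stN_inv]
    have := congrArg FSt.r2 d4
    rw [FSt.r2_r2] at this
    exact this
  · rcases Nat.eq_zero_or_pos i with h0 | h0
    · right
      subst h0
      rw [ou_zero_ty h D]; rfl
    · left
      exact ⟨E, n, g, y0, D, i, h0, by omega, d4.symm⟩

/-! ## Places -/

/-- chosen places of the leaning facets -/
structure Plc (B : STab P k) (L : P.Facet → Prop) (Pl : ℕ → P.FSt → ℕ → Prop)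
    (K : Bool → P.FSt → Prop) where
  G : P.Facet → P.FSt
  N : P.Facet → ℕ
  Y : P.Facet → ℕ
  R : P.Facet → ℕ
  E : P.Facet → Bool
  fac : ∀ f, L f → ((pN ^ N f) (G f)).facet = f
  lng : ∀ f, L f → LngD B L Pl (E f) (N f) (G f) (Y f)
  nx : ∀ f, L f → RegD B L K (E f) (N f) (nbr (E f) (G f)) (Y f) ∨
    ∃ f', L f' ∧ G f' = nbr (E f) (G f) ∧ N f' = N f ∧ Y f' = Y f ∧ R f' < R f

lemma exists_plc (B : STab P k) {L : P.Facet → Prop} {Pl : ℕ → P.FSt → ℕ → Prop}
    {K : Bool → P.FSt → Prop}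
    (uniq : ∀ n g y n' g' y', Pl n g y → Pl n' g' y' → L ((pN ^ n) g).facet →
      ((pN ^ n) g).facet = ((pN ^ n') g').facet → n = n' ∧ g = g' ∧ y = y')
    (sup : ∀ f, L f → ∃ (g : P.FSt) (y0 n : ℕ) (E : Bool) (m : ℕ), ((pN ^ n) g).facet = f ∧
      SupN B L Pl K E n m g y0) : Nonempty (Plc B L Pl K) := by
  have key : ∀ f, ∃ (g : P.FSt) (y0 n : ℕ), L f → (((pN ^ n) g).facet = f ∧
      ∃ E m, SupN B L Pl K E n (m + 1) g y0) := by
    intro f
    by_cases hf : L f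
    · obtain ⟨g, y0, n, E, m, h1, h2⟩ := sup f hf
      rcases m with _ | m
      · exfalso
        have h3 : RegD B L K E n g y0 := h2
        have := (h3.h1 n le_rfl).2
        rw [h1] at this
        exact this hf
      · exact ⟨g, y0, n, fun _ => ⟨h1, E, m, h2⟩⟩
    · exact ⟨B.can f, 0, 0, fun h => absurd h hf⟩
  choose G Y N hG using key
  have key2 : ∀ f, ∃ E, L f → SupN B L Pl K E (N f)
      (sInf {m | ∃ E, SupN B L Pl K E (N f) (m + 1) (G f) (Y f)} + 1) (G f) (Y f) := by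
    intro f
    by_cases hf : L f
    · obtain ⟨-, E, m, h1⟩ := hG f hf
      obtain ⟨E', h2⟩ := Nat.sInf_mem
        (s := {m | ∃ E, SupN B L Pl K E (N f) (m + 1) (G f) (Y f)}) ⟨m, E, h1⟩
      exact ⟨E', fun _ => h2⟩
    · exact ⟨true, fun h => absurd h hf⟩
  choose E hE using key2
  refine ⟨⟨G, N, Y, fun f => sInf {m | ∃ E, SupN B L Pl K E (N f) (m + 1) (G f) (Y f)}, E,
    fun f hf => (hG f hf).1, fun f hf => (hE f hf).1, ?_⟩⟩
  intro f hf
  have h1 := (hE f hf).2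
  rcases hR : sInf {m | ∃ E, SupN B L Pl K E (N f) (m + 1) (G f) (Y f)} with _ | m
  · left
    rw [hR] at h1
    exact h1
  · right
    rw [hR] at h1
    have h2 : LngD B L Pl (E f) (N f) (nbr (E f) (G f)) (Y f) := h1.1
    refine ⟨((pN ^ N f) (nbr (E f) (G f))).facet, h2.h3, ?_⟩
    set f' := ((pN ^ N f) (nbr (E f) (G f))).facet with hf'
    have hL' : L f' := h2.h3
    have h3 := (hG f' hL').1
    have h4 : Pl (N f') (G f') (Y f') := (hE f' hL').1.h2
    obtain ⟨e1, e2, e3⟩ := uniq _ _ _ _ _ _ h4 h2.h2 (by rw [h3]; exact hL') h3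
    refine ⟨e2, e1, e3, ?_⟩
    have h5 : sInf {m | ∃ E, SupN B L Pl K E (N f') (m + 1) (G f') (Y f')} ≤ m := by
      apply Nat.sInf_le
      refine ⟨E f, ?_⟩
      rw [e1, e2, e3]
      exact h1
    show sInf {m | ∃ E, SupN B L Pl K E (N f') (m + 1) (G f') (Y f')} < _
    omega

/-- the other outer column -/
def X1 (k : ℕ) (E : Bool) : ℕ := if E then 5 * k - 1 else 0

lemma X1_lt (hk : 0 < k) (E : Bool) : X1 k E < 5 * k := by
  unfold X1; split_ifs <;> omega

lemma nb_in (E : Bool) {κ : ℕ} (hκ : 0 < κ) (s : P.FSt) {X X' : ℕ} (hX : X < κ) (hX' : X' < κ)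
    (hXX : if E then X' = X + 1 else X = X' + 1) (t : ℤ) :
    nb E (subZ hκ s X hX t) = subZ hκ s X' hX' t := by
  cases E
  · have hXX' : X = X' + 1 := hXX
    subst hXX'
    show pE.symm _ = _
    rw [Equiv.symm_apply_eq]
    exact (subZ_stE_mid hκ s hX t).symm
  · have hXX' : X' = X + 1 := hXX
    subst hXX'
    exact subZ_stE_mid hκ s hX' t

lemma nb_out (hk : 0 < 5 * k) (E : Bool) (s t : P.FSt) (m : ℤ)
    (hm : nbr E ((pN ^ (m / ((5 * k : ℕ) : ℤ))) s) = (pN ^ (m / ((5 * k : ℕ) : ℤ))) t) :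
    nb E (subZ hk s (X1 k E) (X1_lt (by omega) E) m) =
      subZ hk t (X0 k E) (X0_lt (by omega) E) m := by
  cases E
  · show pE.symm _ = _
    rw [Equiv.symm_apply_eq]
    refine (subZ_stE_end hk t s m ?_).symm
    have hm' : pE.symm ((pN ^ (m / ((5 * k : ℕ) : ℤ))) s) = (pN ^ (m / ((5 * k : ℕ) : ℤ))) t := hm
    rw [Equiv.symm_apply_eq] at hm'
    exact hm'.symm
  · exact subZ_stE_end hk s t m hm

/-- the distance to the other outer column -/
def dX (k : ℕ) (E : Bool) (X : ℕ) : ℕ := if E then 5 * k - 1 - X else X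

lemma sb_eq_subZ (s : P.FSt) {X Y : ℕ} (hX : X < 5 * k) (hY : Y < 5 * k) :
    sb h s X Y hX hY = subZ (vp h).hk s X hX (Y : ℤ) := by
  have := subZ_eq (vp h).hk s hX hY 0
  rw [mul_zero, zero_add, zpow_zero] at this
  exact this.symm

namespace Plc

variable (Q : Plc B L Pl K)

/-- the frame of a leaning facet -/
def u (f : P.Facet) : P.FSt := (pN ^ Q.N f) (Q.G f)

lemma u_facet {f : P.Facet} (hf : L f) : (Q.u f).facet = f := Q.fac f hf

open Classical in
/-- the base of a leaning cell -/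
noncomputable def ls (c : (P.refine (5 * k) (vp h).hk).Facet) : (P.refine (5 * k) (vp h).hk).FSt :=
  if hc : L (co (vp h).hk c) then
    sb h (Q.G (co (vp h).hk c)) (ix (5 * k) (Q.u (co (vp h).hk c)).1.e c.1.1)
      (5 * Q.Y (co (vp h).hk c) + 2) (ix_lt (vp h).hk _ _)
      (by have := (Q.lng _ hc).hy; omega)
  else (vp h).can' c

/-- the height of a leaning cell -/
noncomputable def lz (c : (P.refine (5 * k) (vp h).hk).Facet) : ℕ :=
  5 * k * Q.N (co (vp h).hk c) + ix (5 * k) (Q.u (co (vp h).hk c)).1.n c.1.1 -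
    (5 * Q.Y (co (vp h).hk c) + 2)

/-- the rank of a leaning cell -/
noncomputable def ld (c : (P.refine (5 * k) (vp h).hk).Facet) : ℕ :=
  5 * k * Q.R (co (vp h).hk c) +
    dX k (Q.E (co (vp h).hk c)) (ix (5 * k) (Q.u (co (vp h).hk c)).1.e c.1.1)

/-- a cell of a leaning facet -/
noncomputable def ce (f : P.Facet) (X Y : ℕ) (hX : X < 5 * k) (hY : Y < 5 * k) :
    (P.refine (5 * k) (vp h).hk).Facet := (sb h (Q.u f) X Y hX hY).facet

lemma co_ce {f : P.Facet} (hf : L f) {X Y : ℕ} (hX : X < 5 * k) (hY : Y < 5 * k) :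
    co (vp h).hk (Q.ce h f X Y hX hY) = f := by
  unfold ce; rw [co_sb, Q.u_facet hf]

lemma ce_surj {c : (P.refine (5 * k) (vp h).hk).Facet} (hc : L (co (vp h).hk c)) :
    ∃ X Y, ∃ (hX : X < 5 * k) (hY : Y < 5 * k), c = Q.ce h (co (vp h).hk c) X Y hX hY := by
  refine ⟨_, _, ix_lt (vp h).hk (Q.u (co (vp h).hk c)).1.e c.1.1,
    ix_lt (vp h).hk (Q.u (co (vp h).hk c)).1.n c.1.1, ?_⟩
  exact (sub_ix (vp h).hk (Q.u (co (vp h).hk c)) c (Q.u_facet hc).symm).symm

lemma ix_e {f : P.Facet} (hf : L f) {X Y : ℕ} (hX : X < 5 * k) (hY : Y < 5 * k) :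
    ix (5 * k) (Q.u (co (vp h).hk (Q.ce h f X Y hX hY))).1.e (Q.ce h f X Y hX hY).1.1 = X := by
  rw [Q.co_ce h hf hX hY]
  exact ix_subC_e _ (Q.u f).2.2 hX hY

lemma ix_n {f : P.Facet} (hf : L f) {X Y : ℕ} (hX : X < 5 * k) (hY : Y < 5 * k) :
    ix (5 * k) (Q.u (co (vp h).hk (Q.ce h f X Y hX hY))).1.n (Q.ce h f X Y hX hY).1.1 = Y := by
  rw [Q.co_ce h hf hX hY]
  exact ix_subC_n _ (Q.u f).2.2 hX hY

lemma ls_ce {f : P.Facet} (hf : L f) {X Y : ℕ} (hX : X < 5 * k) (hY : Y < 5 * k) :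
    Q.ls h (Q.ce h f X Y hX hY) = sb h (Q.G f) X (5 * Q.Y f + 2) hX
      (by have := (Q.lng f hf).hy; omega) := by
  have hco := Q.co_ce h hf hX hY
  unfold ls
  rw [dif_pos (by rw [hco]; exact hf)]
  exact sb_congr h _ _ (by rw [hco]) (Q.ix_e h hf hX hY) (by rw [hco])

lemma lz_ce {f : P.Facet} (hf : L f) {X Y : ℕ} (hX : X < 5 * k) (hY : Y < 5 * k) :
    Q.lz h (Q.ce h f X Y hX hY) = 5 * k * Q.N f + Y - (5 * Q.Y f + 2) := by
  unfold lz
  rw [Q.ix_n h hf hX hY, Q.co_ce h hf hX hY]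

lemma ld_ce {f : P.Facet} (hf : L f) {X Y : ℕ} (hX : X < 5 * k) (hY : Y < 5 * k) :
    Q.ld h (Q.ce h f X Y hX hY) = 5 * k * Q.R f + dX k (Q.E f) X := by
  unfold ld
  rw [Q.ix_e h hf hX hY, Q.co_ce h hf hX hY]

include h in
lemma N_pos {f : P.Facet} (hf : L f) : 0 < Q.N f := by
  by_contra h0
  have h1 := Q.u_facet hf
  unfold u at h1
  rw [show Q.N f = 0 by omega, pow_zero] at h1
  have h2 : (Q.G f).facet = f := h1
  have h3 := (Q.lng f hf).h4 0 (Nat.zero_le _)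
  have h4 := h.no_pr (Q.G f) (Q.lng f hf).h1 (by rw [h2]; exact hf) 0 (Q.Y f) (Nat.zero_le _)
    (Q.lng f hf).hy
  rw [h3] at h4
  exact absurd h4 (by simp)

/-- the leaning cells -/
lemma lean_ce {f : P.Facet} (hf : L f) {X Y : ℕ} (hX : X < 5 * k) (hY : Y < 5 * k) :
    (Q.ls h (Q.ce h f X Y hX hY) = (vp h).can' (Q.ls h (Q.ce h f X Y hX hY)).facet ∨
      Q.ls h (Q.ce h f X Y hX hY) = ((vp h).can' (Q.ls h (Q.ce h f X Y hX hY)).facet).r2) ∧
    (vp h).ty (Q.ls h (Q.ce h f X Y hX hY)).facet = Ty.H ∧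
    ((pN ^ (Q.lz h (Q.ce h f X Y hX hY) : ℤ)) (Q.ls h (Q.ce h f X Y hX hY))).facet =
      Q.ce h f X Y hX hY ∧
    ∃ E : Bool,
      (nb E (Q.ls h (Q.ce h f X Y hX hY)) =
          (vp h).can' (nb E (Q.ls h (Q.ce h f X Y hX hY))).facet ∨
        nb E (Q.ls h (Q.ce h f X Y hX hY)) =
          ((vp h).can' (nb E (Q.ls h (Q.ce h f X Y hX hY))).facet).r2) ∧
      (vp h).ty (nb E (Q.ls h (Q.ce h f X Y hX hY))).facet = Ty.H ∧
      (∀ i : ℕ, i ≤ Q.lz h (Q.ce h f X Y hX hY) →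
        nb E ((pN ^ (i : ℤ)) (Q.ls h (Q.ce h f X Y hX hY))) =
          (pN ^ (i : ℤ)) (nb E (Q.ls h (Q.ce h f X Y hX hY)))) ∧
      ((∃ g, L (co (vp h).hk g) ∧ Q.ls h g = nb E (Q.ls h (Q.ce h f X Y hX hY)) ∧
          Q.lz h g = Q.lz h (Q.ce h f X Y hX hY) ∧
          Q.ld h g < Q.ld h (Q.ce h f X Y hX hY)) ∨
        (∀ i : ℕ, 1 ≤ i → i ≤ Q.lz h (Q.ce h f X Y hX hY) →
          Kc L h K ((pN ^ (i : ℤ)) (nb E (Q.ls h (Q.ce h f X Y hX hY)))))) := by
  have D := Q.lng f hf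
  have hk := B.hk
  have hκ := (vp h).hk
  have hy := D.hy
  have hN := Q.N_pos h hf
  have hkN : 5 * k ≤ 5 * k * Q.N f := Nat.le_mul_of_pos_right (5 * k) hN
  rw [Q.ls_ce h hf hX hY, Q.lz_ce h hf hX hY, Q.ld_ce h hf hX hY]
  refine ⟨act_sb h D.h1 _ _, ty_row h D.h1 hy D.h4 D.h5 hX, ?_, ?_⟩
  · rw [sb_eq_subZ, subZ_pow]
    have e : ((5 * Q.Y f + 2 : ℕ) : ℤ) + ((5 * k * Q.N f + Y - (5 * Q.Y f + 2) : ℕ) : ℤ) =
        ((5 * k : ℕ) : ℤ) * (Q.N f : ℤ) + Y := by
      have h1 : 5 * Q.Y f + 2 + (5 * k * Q.N f + Y - (5 * Q.Y f + 2)) = 5 * k * Q.N f + Y := by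
        omega
      have h2 : ((5 * Q.Y f + 2 + (5 * k * Q.N f + Y - (5 * Q.Y f + 2)) : ℕ) : ℤ) =
          ((5 * k * Q.N f + Y : ℕ) : ℤ) := by rw [h1]
      push_cast at h2 ⊢
      linarith
    rw [e, subZ_eq hκ _ hX hY, zpow_natCast]
    rfl
  · by_cases hin : X = X1 k (Q.E f)
    · -- the last column of the facet
      subst hin
      have hq : ∀ i : ℕ, i ≤ 5 * k * Q.N f + Y - (5 * Q.Y f + 2) →
          ∃ q : ℕ, q ≤ Q.N f ∧ (((5 * Q.Y f + 2 : ℕ) : ℤ) + (i : ℤ)) / ((5 * k : ℕ) : ℤ) = q := by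
        intro i hi
        refine ⟨(5 * Q.Y f + 2 + i) / (5 * k), ?_, by push_cast; rfl⟩
        have h1 : 5 * Q.Y f + 2 + i < (Q.N f + 1) * (5 * k) := by
          rw [add_mul, one_mul, mul_comm (Q.N f)]; omega
        have := (Nat.div_lt_iff_lt_mul (show 0 < 5 * k by omega)).2 h1
        omega
      have hnb : ∀ i : ℕ, i ≤ 5 * k * Q.N f + Y - (5 * Q.Y f + 2) →
          nb (Q.E f) (subZ hκ (Q.G f) (X1 k (Q.E f)) hX
            (((5 * Q.Y f + 2 : ℕ) : ℤ) + (i : ℤ))) =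
          subZ hκ (nbr (Q.E f) (Q.G f)) (X0 k (Q.E f)) (X0_lt hk _)
            (((5 * Q.Y f + 2 : ℕ) : ℤ) + (i : ℤ)) := by
        intro i hi
        apply nb_out
        obtain ⟨q, hq1, hq2⟩ := hq i hi
        rw [hq2, zpow_natCast]
        exact D.h6 q hq1
      have hnb0 : nb (Q.E f) (sb h (Q.G f) (X1 k (Q.E f)) (5 * Q.Y f + 2) hX (by omega)) =
          ou h (Q.E f) (nbr (Q.E f) (Q.G f)) (Q.Y f) 0 := by
        have := hnb 0 (Nat.zero_le _)
        rw [Nat.cast_zero, add_zero, ← sb_eq_subZ h (Q.G f) hX (by omega)] at this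
        rw [this]
        rfl
      have hpow : ∀ i : ℕ, (pN ^ (i : ℤ)) (ou h (Q.E f) (nbr (Q.E f) (Q.G f)) (Q.Y f) 0) =
          ou h (Q.E f) (nbr (Q.E f) (Q.G f)) (Q.Y f) i := by
        intro i
        unfold ou
        rw [subZ_pow]
        congr 1
      have hpar : ∀ i : ℕ, i ≤ 5 * k * Q.N f + Y - (5 * Q.Y f + 2) →
          nb (Q.E f) ((pN ^ (i : ℤ)) (sb h (Q.G f) (X1 k (Q.E f)) (5 * Q.Y f + 2) hX (by omega))) =
          (pN ^ (i : ℤ)) (nb (Q.E f) (sb h (Q.G f) (X1 k (Q.E f)) (5 * Q.Y f + 2) hX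
            (by omega))) := by
        intro i hi
        rw [hnb0, hpow, sb_eq_subZ, subZ_pow, hnb i hi]
        unfold ou
        congr 1
      refine ⟨Q.E f, ?_, ?_, hpar, ?_⟩
      · rw [hnb0]
        rcases Q.nx f hf with hR | ⟨f', g1, g2, g3, g4, g5⟩
        · exact (ou_cn h hR (Nat.zero_le _)).1
        · have D' := Q.lng f' g1
          have hA : Act B.can (nbr (Q.E f) (Q.G f)) := by rw [← g2]; exact D'.h1
          rw [ou_eq h _ _ _ 0 0 (5 * Q.Y f + 2) (by omega) (by ring)]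
          exact act_sb h hA _ _
      · rw [hnb0]
        rcases Q.nx f hf with hR | ⟨f', g1, g2, g3, g4, g5⟩
        · exact ou_zero_ty h hR
        · have D' := Q.lng f' g1
          have hA : Act B.can (nbr (Q.E f) (Q.G f)) := by rw [← g2]; exact D'.h1
          rw [ou_eq h _ _ _ 0 0 (5 * Q.Y f + 2) (by omega) (by ring)]
          exact ty_row h hA hy (by rw [← g2, ← g4]; exact D'.h4)
            (by rw [← g2, ← g4]; exact D'.h5) _
      · rw [hnb0]
        rcases Q.nx f hf with hR | ⟨f', g1, g2, g3, g4, g5⟩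
        · right
          intro i h1 h2
          rw [hpow]
          exact ⟨Q.E f, Q.N f, _, Q.Y f, hR, i, h1, by unfold top; omega, rfl⟩
        · left
          refine ⟨Q.ce h f' (X0 k (Q.E f)) Y (X0_lt hk _) hY, ?_, ?_, ?_, ?_⟩
          · rw [Q.co_ce h g1]; exact g1
          · rw [Q.ls_ce h g1, ou_eq h _ _ _ 0 0 (5 * Q.Y f + 2) (by omega) (by ring)]
            exact sb_congr h _ _ g2 rfl (by rw [g4])
          · rw [Q.lz_ce h g1, g3, g4]
          · rw [Q.ld_ce h g1]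
            have h1 : 5 * k * Q.R f' + 5 * k ≤ 5 * k * Q.R f := by
              have := Nat.mul_le_mul_left (5 * k) g5
              rwa [Nat.mul_succ] at this
            have h2 : dX k (Q.E f') (X0 k (Q.E f)) ≤ 5 * k - 1 := by
              have := X0_lt hk (Q.E f)
              unfold dX
              split_ifs <;> omega
            omega
    · -- inside the facet
      obtain ⟨X', hX', hXX, hd⟩ : ∃ X', X' < 5 * k ∧
          (if Q.E f then X' = X + 1 else X = X' + 1) ∧ dX k (Q.E f) X' < dX k (Q.E f) X := by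
        unfold X1 at hin
        unfold dX
        cases hE : Q.E f
        · rw [hE] at hin
          simp only [Bool.false_eq_true, if_false] at hin ⊢
          exact ⟨X - 1, by omega, by omega, by omega⟩
        · rw [hE] at hin
          simp only [if_true] at hin ⊢
          exact ⟨X + 1, by omega, by omega, by omega⟩
      have hnb0 : nb (Q.E f) (sb h (Q.G f) X (5 * Q.Y f + 2) hX (by omega)) =
          sb h (Q.G f) X' (5 * Q.Y f + 2) hX' (by omega) := by
        rw [sb_eq_subZ, sb_eq_subZ]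
        exact nb_in (Q.E f) hκ (Q.G f) hX hX' hXX _
      refine ⟨Q.E f, ?_, ?_, ?_, Or.inl ⟨Q.ce h f X' Y hX' hY, ?_, ?_, ?_, ?_⟩⟩
      · rw [hnb0]; exact act_sb h D.h1 _ _
      · rw [hnb0]; exact ty_row h D.h1 hy D.h4 D.h5 hX'
      · intro i _
        rw [hnb0, sb_eq_subZ, sb_eq_subZ, subZ_pow, subZ_pow]
        exact nb_in (Q.E f) hκ (Q.G f) hX hX' hXX _
      · rw [Q.co_ce h hf]; exact hf
      · rw [Q.ls_ce h hf, hnb0]
      · rw [Q.lz_ce h hf]
      · rw [Q.ld_ce h hf]; omega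

/-- the leaning facets of the pattern curve -/
noncomputable def lns (hnc : ∀ E s, K E s → ¬ K (!E) s.r2)
    (hcut : ∀ f, L f → ∃ g, (vp h).ty g ≠ Ty.o ∧ (vp h).ty g ≠ Ty.H) : (vp h).Lns where
  K := Kc L h K
  K_act := Kc_act h
  K_nc := Kc_nc h hnc
  K_N := Kc_N h
  K_S := Kc_S h
  ls := Q.ls h
  lz := Q.lz h
  ld := Q.ld h
  lean := fun c hc => by
    obtain ⟨X, Y, hX, hY, h1⟩ := Q.ce_surj h hc
    have hc' : L (co (vp h).hk c) := hc
    rw [h1]
    exact Q.lean_ce h hc' hX hY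
  cut := fun c hc => hcut _ hc

end Plc

end

/-! ## Choice of the orientations -/

lemma ATab.exists_stab (A : ATab P k) (hcon : A.Con) : ∃ B : STab P k, B.pr = A.pr ∧ B.la = A.la ∧
    (∀ s, Act B.can s ↔ Act A.can s) ∧
    (∀ s, Act B.can s → Act B.can s.stN → (Cn B.can s.stN ↔ Cn B.can s)) ∧ B.Con := by
  classical
  obtain ⟨T, hT1, hT2⟩ := exists_orient A.can
  let can' : P.Facet → P.FSt := fun f => if T (A.can f) then A.can f else (A.can f).r2
  have hfac : ∀ f, (can' f).facet = f := by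
    intro f
    show (if T (A.can f) then A.can f else (A.can f).r2).facet = f
    split_ifs
    · exact A.can_facet f
    · rw [FSt.facet_r2, A.can_facet]
  have hAc : ∀ f, Act A.can (A.can f) := fun f => Or.inl (by rw [A.can_facet])
  -- canonical states
  have hcn : ∀ s, Cn can' s ↔ Act A.can s ∧ T s := by
    intro s
    show (if T (A.can s.facet) then A.can s.facet else (A.can s.facet).r2) = s ↔ _
    constructor
    · intro h
      split_ifs at h with h1
      · exact ⟨Or.inl h, by rw [← h]; exact h1⟩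
      · refine ⟨Or.inr (by rw [← h]; simp [A.can_facet]), ?_⟩
        rw [← h, hT1 _ (hAc _)]
        exact h1
    · rintro ⟨h1 | h1, h2⟩
      · rw [h1, if_pos h2]
      · rw [h1, if_neg, FSt.r2_r2]
        intro h3
        rw [hT1 s (Or.inr h1)] at h3
        exact h3 h2
  have hact : ∀ s, Act can' s ↔ Act A.can s := by
    intro s
    have e : Act can' s ↔ Cn can' s ∨ Cn can' s.r2 := by
      unfold Act Cn
      rw [FSt.facet_r2]
    rw [e, hcn, hcn, act_r2_iff' A.can]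
    constructor
    · rintro (h | h) <;> exact h.1
    · intro h
      by_cases h1 : T s
      · exact Or.inl ⟨h, h1⟩
      · exact Or.inr ⟨h, (hT1 s h).2 h1⟩
  have hcN : ∀ s, Cn can' s → Act A.can s.stN → Cn can' s.stN := by
    intro s h1 h2
    rw [hcn] at h1 ⊢
    exact ⟨h2, (hT2 s h1.1 h2).2 h1.2⟩
  have hcS : ∀ s, Cn can' s.stN → Act A.can s → Cn can' s := by
    intro s h1 h2
    rw [hcn] at h1 ⊢
    exact ⟨h2, (hT2 s h2 h1.1).1 h1.2⟩
  let B : STab P k :=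
    { hk := A.hk
      can := can'
      can_facet := hfac
      pr := A.pr
      la := A.la
      ok := fun s hs => A.ok s ((hact s).1 hs)
      pr_rot := fun s hs => A.pr_rot s ((hact s).1 hs)
      la_rot := fun s hs => A.la_rot s ((hact s).1 hs)
      gE := fun s hs hs' => A.gE s ((hact s).1 hs) ((hact _).1 hs')
      gE' := fun s hs hs' => A.gE' s ((hact s).1 hs) (fun h => hs' ((hact _).2 h))
      gN := fun s hs hs' => A.gN s ((hcn s).1 hs).1 ((hcn _).1 hs').1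
      gN' := fun s hs hs' => A.gN' s ((hcn s).1 hs).1 (fun h => hs' (hcN s hs h))
      gS' := fun s hs hs' x hx => by
        have h1 := ((hcn _).1 hs).1
        have h2 : ¬ Act A.can s := fun h => hs' (hcS s hs h)
        have e : s.stN.r2.stN = s.r2 := FSt.stN_inv s
        have h3 := A.gN' s.stN.r2 (act_r2' A.can h1)
          (by rw [e, act_r2_iff' A.can]; exact h2) (k - 1 - x) (by omega)
        rw [A.la_rot _ h1 _ _ (by omega) le_rfl, Nat.sub_self,
          show k - 1 - (k - 1 - x) = x by omega] at h3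
        exact h3 }
  have hBcon : B.Con := by
    intro ψ χ hR
    have hA : ARel k A.can A.pr A.la ψ χ := by
      refine ⟨fun s hs => hR.cell s ((hact s).2 hs), fun s hs => hR.rotV s ((hact s).2 hs),
        fun s hs => hR.rotH s ((hact s).2 hs),
        fun s hs hs' => hR.gE s ((hact s).2 hs) ((hact _).2 hs'), ?_⟩
      intro s hs hs' x hx hl
      by_cases h1 : T s
      · have h2 : Cn can' s := (hcn s).2 ⟨hs, h1⟩
        exact hR.gN s h2 (hcN s h2 hs') x hx hl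
      · have e : s.stN.r2.stN = s.r2 := FSt.stN_inv s
        have h2 : Cn can' s.r2 := (hcn _).2 ⟨act_r2' A.can hs, (hT1 s hs).2 h1⟩
        have h3 : Cn can' s.stN.r2 := hcS _ (by rw [e]; exact h2) (act_r2' A.can hs')
        have hla : A.la s.stN.r2 (k - 1 - x) k = A.la s x k := by
          rw [A.la_rot _ hs' _ _ (by omega) le_rfl, Nat.sub_self,
            show k - 1 - (k - 1 - x) = x by omega, A.gN s hs hs' x hx]
        have h4 := hR.gN s.stN.r2 h3 (by rw [e]; exact h2) (k - 1 - x) (by omega)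
          (by show A.la s.stN.r2 (k - 1 - x) k ≠ Ln.z; rw [hla]; exact hl)
        rw [e, hR.rotH _ ((hact _).2 hs') _ _ (by omega) le_rfl, Nat.sub_self,
          show k - 1 - (k - 1 - x) = x by omega,
          hR.rotH _ ((hact _).2 hs) _ _ (by omega) (Nat.zero_le _), Nat.sub_zero,
          show k - 1 - (k - 1 - x) = x by omega] at h4
        exact h4.symm
    obtain ⟨c, hc1, hc2⟩ := hcon ψ χ hA
    exact ⟨c, fun s hs => hc1 s ((hcn s).1 hs).1, fun s hs => hc2 s ((hcn s).1 hs).1⟩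
  refine ⟨B, rfl, rfl, hact, ?_, hBcon⟩
  intro s hs hs'
  exact ⟨fun h => hcS s h ((hact s).1 hs), fun h => hcN s h ((hact _).1 hs')⟩

/-- along a chain of active states the orientation does not change -/
lemma cn_chain {can : P.Facet → P.FSt}
    (hor : ∀ s, Act can s → Act can s.stN → (Cn can s.stN ↔ Cn can s)) {s : P.FSt}
    (hs : Cn can s) {z : ℤ} (hz : ∀ y ∈ Set.uIcc 0 z, Act can ((pN ^ y) s)) :
    ∀ y ∈ Set.uIcc 0 z, Cn can ((pN ^ y) s) := by
  have key : ∀ n : ℕ, (n : ℤ) ≤ z → Cn can ((pN ^ (n : ℤ)) s) := by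
    intro n
    induction n with
    | zero => intro _; simpa using hs
    | succ n ih =>
      intro hn
      have h4 := ih (by push_cast at hn; omega)
      have e : (pN ^ ((n + 1 : ℕ) : ℤ)) s = ((pN ^ (n : ℤ)) s).stN := by
        push_cast
        rw [pN_zpow_succ]
      rw [e]
      refine (hor _ (hz n ?_) ?_).2 h4
      · rw [Set.mem_uIcc]; push_cast at hn; omega
      · rw [← e]
        exact hz _ (by rw [Set.mem_uIcc]; push_cast at hn ⊢; omega)
  have key2 : ∀ n : ℕ, z ≤ -(n : ℤ) → Cn can ((pN ^ (-(n : ℤ))) s) := by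
    intro n
    induction n with
    | zero => intro _; simpa using hs
    | succ n ih =>
      intro hn
      have h4 := ih (by push_cast at hn; omega)
      have e : ((pN ^ (-((n + 1 : ℕ) : ℤ))) s).stN = (pN ^ (-(n : ℤ))) s := by
        rw [← pN_zpow_succ]
        congr 2
        push_cast; ring
      refine (hor _ (hz _ ?_) ?_).1 (by rw [e]; exact h4)
      · rw [Set.mem_uIcc]; push_cast at hn ⊢; omega
      · rw [e]
        exact hz _ (by rw [Set.mem_uIcc]; push_cast at hn ⊢; omega)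
  intro y hy
  rw [Set.mem_uIcc] at hy
  obtain ⟨n, rfl | rfl⟩ := y.eq_nat_or_neg
  · rcases Nat.eq_zero_or_pos n with h0 | h0
    · subst h0; simpa using hs
    · exact key n (by omega)
  · rcases Nat.eq_zero_or_pos n with h0 | h0
    · subst h0; simpa using hs
    · exact key2 n (by omega)

/-- **A state table with leaning facets gives an edge unfolding of the refinement.** -/
theorem ATab.unfolding_of_lng (A : ATab P k) {L : P.Facet → Prop} {Pl : ℕ → P.FSt → ℕ → Prop}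
    {K : Bool → P.FSt → Prop} (hL : A.Lng L Pl K) (hne : Nonempty P.Facet) (hcov : A.CovL L)
    (hcon : A.Con) (hlet : ∃ s x y, Act A.can s ∧ x < k ∧ y ≤ k ∧ A.la s x y ≠ Ln.z)
    (h5 : 0 < 5 * k) : (P.refine (5 * k) h5).HasEdgeUnfolding := by
  obtain ⟨B, hpr, hla, hact, hor, hBcon⟩ := A.exists_stab hcon
  have h : VS B L :=
    { no_pr := fun s hs => by rw [hpr]; exact hL.no_pr s ((hact s).1 hs)
      no_la := fun s hs => by rw [hla]; exact hL.no_la s ((hact s).1 hs)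
      cov := fun s hs hsL x hx w => by
        obtain ⟨t, ⟨z, hz, rfl⟩, h3⟩ := hcov s ((hact s).1 (Or.inl hs)) hsL x hx w
        have h4 := cn_chain hor hs (z := z) (fun y hy => (hact _).2 (hz y hy).1)
        exact ⟨z, fun y hy => ⟨h4 y hy, (hz y hy).2⟩, by rw [hpr]; exact h3⟩
      con := hBcon
      ne := hne
      hor := hor }
  obtain ⟨Q⟩ := exists_plc B hL.uniq (fun f hf => by
    obtain ⟨g, y0, n, E, h1, h2⟩ := hL.sup f hf
    rw [← hpr, ← hla] at h2
    obtain ⟨m, hm⟩ := exists_supN B (fun s hs => (hact s).2 hs) h2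
    exact ⟨g, y0, n, E, m, h1, hm⟩)
  have hcut : ∀ f, L f → ∃ g, (vp h).ty g ≠ Ty.o ∧ (vp h).ty g ≠ Ty.H := by
    intro _ _
    obtain ⟨s, x, y, hs, hx, hy, hne⟩ := hlet
    have hs' := (hact s).2 hs
    have hk := A.hk
    rw [← hla] at hne
    by_cases hyk : y < k
    · rcases ty_st h hs' hx hyk (show 2 < 5 by norm_num) (show 0 < 5 by norm_num) with
        ⟨h1, h2⟩ | ⟨h1, h2⟩
      · exact ⟨_, by rw [h2]; exact pat_laS _ _ _ _ h1 hne⟩
      · exact ⟨_, by rw [h2]; exact pat_laN _ _ _ _ h1 hne⟩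
    · have hyy : y = (k - 1) + 1 := by omega
      rw [hyy] at hne
      rcases ty_st h hs' hx (show k - 1 < k by omega) (show 2 < 5 by norm_num)
        (show 4 < 5 by norm_num) with ⟨h1, h2⟩ | ⟨h1, h2⟩
      · exact ⟨_, by rw [h2]; exact pat_laN _ _ _ _ h1 hne⟩
      · exact ⟨_, by rw [h2]; exact pat_laS _ _ _ _ h1 hne⟩
  exact (vp h).hasEdgeUnfolding (Q.lns h hL.nc hcut)

end Pool.Agent.MP42H
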