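import Pool.Agent.MP42.Geo

/-!
# The vertices of an orthogonal polyhedron

`kappa s = s.stE.rL` turns around the north-east corner of the state `s`.  The eight boxes around
the corner are described by `occ P s i j k` (`i`, `j`, `k` = moved in the directions `d`, `e`, `n`
of the frame of `s`).  `Kf` is the action of `kappa` on the patterns.
-/

set_option autoImplicit false
set_option linter.unusedSectionVars false

namespace Pool.Agent.MP42V

open Pool.Agent.Helper55.UNF Pool.Agent.Helper55.UNF.GridSolid Pool.Agent.MP42.Geo

variable {P : GridSolid}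

/-- the vector of a direction -/
def vec (w : Dir) : Fin 3 → ℤ := fun a => if a = w.1 then (if w.2 then 1 else -1) else 0

lemma shift_add (c : Fin 3 → ℤ) (w : Dir) : shift c w = c + vec w := by
  funext a
  rw [shift_eq]
  rfl

lemma vec_opp (w : Dir) : vec (opp w) = - vec w := by
  funext a
  obtain ⟨x, b⟩ := w
  unfold vec opp
  cases b <;> simp <;> split_ifs <;> rfl

/-- the number of a boolean -/
def bi (b : Bool) : ℤ := if b then 1 else 0

lemma bi_not (b : Bool) : bi (!b) = 1 - bi b := by cases b <;> rfl

/-- the cell with coordinates `i`, `j`, `k` in the frame of `s` -/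
def cellAt (s : St) (i j k : Bool) : Fin 3 → ℤ :=
  s.c + bi i • vec s.d + bi j • vec s.e + bi k • vec s.n

/-- the pattern of the eight cells around the north-east corner of `s` -/
def occ (P : GridSolid) (s : St) (i j k : Bool) : Bool := decide (cellAt s i j k ∈ P.cells)

/-- the turn around the corner, for patterns -/
def Kf (o : Bool → Bool → Bool → Bool) (i j k : Bool) : Bool :=
  if o true true false then o (!k) (!i) j
  else if o false true false then o i (!k) j else o k i j

/-- the turn around the corner, for frames -/
def Ff (o : Bool → Bool → Bool → Bool) (t : Dir × Dir × Dir) : Dir × Dir × Dir :=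
  if o true true false then (opp t.2.1, t.2.2, opp t.1)
  else if o false true false then (t.1, t.2.2, opp t.2.1) else (t.2.1, t.2.2, t.1)

/-- the frame of a state -/
def fr (s : St) : Dir × Dir × Dir := (s.d, s.e, s.n)

/-- the directions of a frame -/
def rd (t : Dir × Dir × Dir) (w : Dir) : Dir :=
  let u := if w.1 = 0 then t.1 else if w.1 = 1 then t.2.1 else t.2.2
  if w.2 then u else opp u

lemma rd_opp (t : Dir × Dir × Dir) (w : Dir) : rd t (opp w) = opp (rd t w) := by
  obtain ⟨x, b⟩ := w
  unfold rd opp
  cases b <;> simp [opp]

lemma rd_id (t : Dir × Dir × Dir) :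
    (rd t (0, true), rd t (1, true), rd t (2, true)) = t := by
  unfold rd
  simp

lemma kappa_val (s : P.FSt) : (kappa s).1 = (s.1.stepE P).rotL := rfl

/-- the three cases of `kappa` -/
lemma kappa_cases (s : P.FSt) :
    (kappa s).1 = (if occ P s.1 true true false then
        ⟨cellAt s.1 true true false, opp s.1.e, s.1.n⟩
      else if occ P s.1 false true false then ⟨cellAt s.1 false true false, s.1.d, s.1.n⟩
      else ⟨s.1.c, s.1.e, s.1.n⟩) := by
  rw [kappa_val]
  obtain ⟨⟨c, d, e⟩, hs, hde⟩ := s
  simp only at hde
  have e1 : cellAt ⟨c, d, e⟩ true true false = shift (shift c e) d := by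
    rw [shift_add, shift_add]
    unfold cellAt bi
    simp only [if_true]
    simp
    abel
  have e2 : cellAt ⟨c, d, e⟩ false true false = shift c e := by
    rw [shift_add]
    unfold cellAt bi
    simp
  unfold occ St.stepE
  simp only [e1, e2, decide_eq_true_eq]
  split_ifs with h1 h2
  · unfold St.rotL St.n
    simp only
    rw [cross_concave d e hde]
  · rfl
  · unfold St.rotL St.n
    simp only
    rw [cross_convex d e hde]

lemma fr_kappa (s : P.FSt) : fr (kappa s).1 = Ff (occ P s.1) (fr s.1) := by
  have hde := s.2.2
  have h1 := kappa_cases s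
  unfold fr Ff
  simp only
  rw [h1]
  have hn1 : cross (opp s.1.e) s.1.n = opp s.1.d := by
    have := cross_cross (opp s.1.e) s.1.d hde.symm
    rw [cross_concave s.1.d s.1.e hde] at this
    exact this
  have hn2 : cross s.1.d s.1.n = opp s.1.e := cross_cross s.1.d s.1.e hde
  have hn3 : cross s.1.e s.1.n = s.1.d := by
    have := cross_cross s.1.e (opp s.1.d) hde.symm
    rw [cross_convex s.1.d s.1.e hde, opp_opp] at this
    exact this
  split_ifs with a b
  · show (opp s.1.e, s.1.n, cross (opp s.1.e) s.1.n) = _
    rw [hn1]
  · show (s.1.d, s.1.n, cross s.1.d s.1.n) = _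
    rw [hn2]
  · show (s.1.e, s.1.n, cross s.1.e s.1.n) = _
    rw [hn3]

lemma occ_kappa (s : P.FSt) : occ P (kappa s).1 = Kf (occ P s.1) := by
  have hF := fr_kappa s
  have hc := kappa_cases s
  have hc2 : (kappa s).1.c = (if occ P s.1 true true false then cellAt s.1 true true false
      else if occ P s.1 false true false then cellAt s.1 false true false else s.1.c) := by
    rw [hc]
    split_ifs <;> rfl
  funext i j k
  have key : cellAt (kappa s).1 i j k =
      (if occ P s.1 true true false then cellAt s.1 (!k) (!i) j
      else if occ P s.1 false true false then cellAt s.1 i (!k) j else cellAt s.1 k i j) := by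
    have h0 : cellAt (kappa s).1 i j k = (kappa s).1.c + bi i • vec (fr (kappa s).1).1 +
        bi j • vec (fr (kappa s).1).2.1 + bi k • vec (fr (kappa s).1).2.2 := rfl
    rw [h0, hF, hc2]
    unfold Ff fr
    simp only
    split_ifs with a b
    · simp only [vec_opp]
      unfold cellAt
      simp only [bi_not]
      have e1 : bi true = 1 := rfl
      have e2 : bi false = 0 := rfl
      rw [e1, e2]
      module
    · simp only [vec_opp]
      unfold cellAt
      simp only [bi_not]
      have e1 : bi true = 1 := rfl
      have e2 : bi false = 0 := rfl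
      rw [e1, e2]
      module
    · unfold cellAt
      module
  have h1 : occ P (kappa s).1 i j k = decide (cellAt (kappa s).1 i j k ∈ P.cells) := rfl
  rw [h1, key]
  unfold Kf
  split_ifs <;> rfl

/-- iteration of the turn for patterns and frames -/
def itf (o : Bool → Bool → Bool → Bool) (t : Dir × Dir × Dir) :
    ℕ → (Bool → Bool → Bool → Bool) × (Dir × Dir × Dir)
  | 0 => (o, t)
  | n + 1 => (Kf (itf o t n).1, Ff (itf o t n).1 (itf o t n).2)

lemma it_kappa (s : P.FSt) (n : ℕ) :
    (occ P (kappa^[n] s).1, fr (kappa^[n] s).1) = itf (occ P s.1) (fr s.1) n := by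
  induction n with
  | zero => rfl
  | succ n ih =>
    rw [Function.iterate_succ_apply', occ_kappa, fr_kappa]
    show _ = (Kf (itf (occ P s.1) (fr s.1) n).1, Ff (itf (occ P s.1) (fr s.1) n).1
      (itf (occ P s.1) (fr s.1) n).2)
    rw [← ih]

/-- the frame in the directions of another frame -/
lemma Ff_rd (o : Bool → Bool → Bool → Bool) (t u : Dir × Dir × Dir) :
    Ff o (rd t u.1, rd t u.2.1, rd t u.2.2) =
      (rd t (Ff o u).1, rd t (Ff o u).2.1, rd t (Ff o u).2.2) := by
  unfold Ff
  split_ifs <;> simp only [rd_opp]

/-- the standard frame -/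
def f0 : Dir × Dir × Dir := ((0, true), (1, true), (2, true))

lemma itf_rd (o : Bool → Bool → Bool → Bool) (t : Dir × Dir × Dir) (n : ℕ) :
    (itf o t n).1 = (itf o f0 n).1 ∧ (itf o t n).2 =
      (rd t (itf o f0 n).2.1, rd t (itf o f0 n).2.2.1, rd t (itf o f0 n).2.2.2) := by
  induction n with
  | zero => exact ⟨rfl, (rd_id t).symm⟩
  | succ n ih =>
    obtain ⟨h1, h2⟩ := ih
    constructor
    · show Kf (itf o t n).1 = Kf (itf o f0 n).1
      rw [h1]
    · show Ff (itf o t n).1 (itf o t n).2 = _
      rw [h1, h2, Ff_rd]
      rfl

/-- the frame after `n` turns -/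
def an (o : Bool → Bool → Bool → Bool) (n : ℕ) : Dir × Dir × Dir := (itf o f0 n).2

lemma fr_it (s : P.FSt) (n : ℕ) : fr (kappa^[n] s).1 =
    (rd (fr s.1) (an (occ P s.1) n).1, rd (fr s.1) (an (occ P s.1) n).2.1,
      rd (fr s.1) (an (occ P s.1) n).2.2) := by
  have h := congrArg Prod.snd (it_kappa s n)
  simp only at h
  rw [h]
  exact (itf_rd _ _ n).2

/-- the pattern given by eight booleans -/
def mk8 (a b c d a' b' c' d' : Bool) (i j k : Bool) : Bool :=
  match i, j, k with
  | false, false, false => a
  | false, false, true => b
  | false, true, false => c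
  | false, true, true => d
  | true, false, false => a'
  | true, false, true => b'
  | true, true, false => c'
  | true, true, true => d'

lemma eq_mk8 (o : Bool → Bool → Bool → Bool) :
    o = mk8 (o false false false) (o false false true) (o false true false) (o false true true)
      (o true false false) (o true false true) (o true true false) (o true true true) := by
  funext i j k
  cases i <;> cases j <;> cases k <;> rfl

/-- not alternating -/
def na (p q r s : Bool) : Bool := !(p && q && !r && !s)

/-- no alternating edges at the corner -/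
def good (o : Bool → Bool → Bool → Bool) : Prop :=
  ∀ i j k, na (o i j k) (o (!i) (!j) k) (o (!i) j k) (o i (!j) k) = true ∧
    na (o i j k) (o (!i) j (!k)) (o (!i) j k) (o i j (!k)) = true ∧
    na (o i j k) (o i (!j) (!k)) (o i (!j) k) (o i j (!k)) = true

instance (o : Bool → Bool → Bool → Bool) : Decidable (good o) := by
  unfold good; infer_instance

end Pool.Agent.MP42V
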