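import Pool.Agent.Helper55.UNF.Cell
import Pool.Agent.Helper55.UNF.LLayout
import Pool.Agent.Helper55.UNF.Orbit

/-!
# Cell curves with leaning facets

Cell curves with unoccupied facets that are attached to their eastern or western neighbour, in both
directions of the lines.
-/

set_option autoImplicit false
set_option linter.unusedSectionVars false

namespace Pool.Agent.Helper55.UNF

namespace GridSolid

/-- the neighbour in the east (`E = true`) or in the west -/
def nb {P : GridSolid} (E : Bool) (s : P.FSt) : P.FSt := if E then pE s else pE.symm s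

variable (P : GridSolid)

/-- A cell curve with leaning facets. -/
structure VCurve where
  can : P.Facet → P.FSt
  can_facet : ∀ f, (can f).facet = f
  τ : P.Facet → Ty
  hN : ∀ f, (τ f).goN = true → ∃ g, (can f).stN = can g ∧ (τ g).frS = true
  hN' : ∀ f, (τ f).frS = true → ∃ g, (can g).stN = can f ∧ (τ g).goN = true
  hS : ∀ f, (τ f).frN = true → ∃ g, (can f).stN = can g ∧ (τ g).goS = true
  hS' : ∀ f, (τ f).goS = true → ∃ g, (can g).stN = can f ∧ (τ g).frN = true
  hE : ∀ f, (τ f).ep = true → (∃ g, (can f).stE = can g ∧ (τ g).wp = true) ∨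
    (∃ g, (can f).stE = (can g).r2 ∧ (τ g).ep = true)
  hW : ∀ f, (τ f).wp = true → (∃ g, (can g).stE = can f ∧ (τ g).ep = true) ∨
    (∃ g, (can f).r2.stE = can g ∧ (τ g).wp = true)
  /-- the lean facets -/
  L : P.Facet → Prop
  hL : ∀ f, L f → τ f = Ty.o
  cov : ∀ f, ¬ L f → ∃ z : ℤ, (∀ y ∈ Set.uIcc 0 z, ∃ g, ¬ L g ∧ (pN ^ y) (can f) = can g) ∧
    ∃ g, (pN ^ z) (can f) = can g ∧ (τ g).wp = true
  /-- the facet of the state is unoccupied and hangs on its southern neighbour -/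
  K : P.FSt → Prop
  K_act : ∀ s, K s → s = can s.facet ∨ s = (can s.facet).r2
  K_nc : ∀ s, K s → ¬ K s.r2
  K_N : ∀ f, K (can f) → ¬ L f ∧ τ f = Ty.o ∧ ∃ g, ¬ L g ∧ (can g).stN = can f ∧
    (K (can g) ∨ (τ g).wp = true)
  K_S : ∀ f, K (can f).r2 → ¬ L f ∧ τ f = Ty.o ∧ ∃ g, ¬ L g ∧ (can f).stN = can g ∧
    (K (can g).r2 ∨ (τ g).wp = true)
  /-- base and height of the leaning facets -/
  ls : P.Facet → P.FSt
  lz : P.Facet → ℕ
  ld : P.Facet → ℕ
  lean : ∀ f, L f → (ls f = can (ls f).facet ∨ ls f = (can (ls f).facet).r2) ∧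
    τ (ls f).facet = Ty.H ∧ ((pN ^ (lz f : ℤ)) (ls f)).facet = f ∧
    ∃ E : Bool, (nb E (ls f) = can (nb E (ls f)).facet ∨ nb E (ls f) = (can (nb E (ls f)).facet).r2) ∧
      τ (nb E (ls f)).facet = Ty.H ∧
      (∀ i : ℕ, i ≤ lz f → nb E ((pN ^ (i : ℤ)) (ls f)) = (pN ^ (i : ℤ)) (nb E (ls f))) ∧
      ((∃ g, L g ∧ ls g = nb E (ls f) ∧ lz g = lz f ∧ ld g < ld f) ∨
        (∀ i : ℕ, 1 ≤ i → i ≤ lz f → K ((pN ^ (i : ℤ)) (nb E (ls f)))))
  cut : ∀ f, L f → ∃ g, τ g ≠ Ty.o ∧ τ g ≠ Ty.H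
  conn : ∀ φ : P.Facet → Prop,
    (∀ f g, (can f).stN = can g → (τ f).goN = true → (φ f ↔ φ g)) →
    (∀ f g, (can f).stN = can g → (τ f).frN = true → (φ f ↔ φ g)) →
    (∀ f g, (can f).stE = can g → (τ f).ep = true → (φ f ↔ φ g)) →
    (∀ f g, (can f).stE = (can g).r2 → (τ f).ep = true → (φ f ↔ φ g)) →
    (∀ f g, (can f).r2.stE = can g → (τ f).wp = true → (φ f ↔ φ g)) →
    ∀ f g, τ f ≠ Ty.o → τ g ≠ Ty.o → (φ f ↔ φ g)
  ne : Nonempty P.Facet

namespace VCurve

variable {P} (A : P.VCurve)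

/-- the oriented facet is the canonical one of a regular facet -/
def cn (s : P.FSt) : Prop := s = A.can s.facet ∧ ¬ A.L s.facet

lemma cn_can {f : P.Facet} (hf : ¬ A.L f) : A.cn (A.can f) := by
  unfold cn; rw [A.can_facet]; exact ⟨rfl, hf⟩

lemma reg_of {f : P.Facet} (h : A.τ f ≠ Ty.o) : ¬ A.L f := fun hf => h (A.hL f hf)

lemma reg_wp {f : P.Facet} (h : (A.τ f).wp = true) : ¬ A.L f :=
  A.reg_of (fun h' => by rw [h'] at h; simp [Ty.wp] at h)

lemma reg_frS {f : P.Facet} (h : (A.τ f).frS = true) : ¬ A.L f :=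
  A.reg_of (fun h' => by rw [h'] at h; simp [Ty.frS] at h)

lemma reg_frN {f : P.Facet} (h : (A.τ f).frN = true) : ¬ A.L f :=
  A.reg_of (fun h' => by rw [h'] at h; simp [Ty.frN] at h)

lemma reg_goN {f : P.Facet} (h : (A.τ f).goN = true) : ¬ A.L f :=
  A.reg_of (fun h' => by rw [h'] at h; simp [Ty.goN] at h)

lemma reg_goS {f : P.Facet} (h : (A.τ f).goS = true) : ¬ A.L f :=
  A.reg_of (fun h' => by rw [h'] at h; simp [Ty.goS] at h)

lemma can_inj {f g : P.Facet} (h : A.can f = A.can g) : f = g := by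
  rw [← A.can_facet f, ← A.can_facet g, h]

lemma cn_iff {s : P.FSt} {g : P.Facet} (h : s = A.can g) : s.facet = g := by
  rw [h, A.can_facet]

/-- the type of an oriented facet -/
def ty (s : P.FSt) : Ty := A.τ s.facet

lemma ty_can (f : P.Facet) : A.ty (A.can f) = A.τ f := by unfold ty; rw [A.can_facet]

/-- where the search to the south stops -/
def stopD (s : P.FSt) : Prop := ¬ (A.cn s ∧ (A.ty s = Ty.o ∨ (A.ty s).frS = true))

/-- where the search to the north stops -/
def stopU (s : P.FSt) : Prop := ¬ (A.cn s ∧ (A.ty s = Ty.o ∨ (A.ty s).frN = true))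

/-- the number of steps to the south -/
noncomputable def jD (s : P.FSt) : ℕ := srch (pN⁻¹ : Equiv.Perm P.FSt) A.stopD s

/-- the number of steps to the north -/
noncomputable def jU (s : P.FSt) : ℕ := srch (pN : Equiv.Perm P.FSt) A.stopU s

lemma exists_pow (s : P.FSt) (z : ℤ) (stop : P.FSt → Prop) (h : stop ((pN ^ z) s)) :
    (∃ j : ℕ, stop ((pN ^ j) s)) ∧ ∃ j : ℕ, stop (((pN⁻¹ : Equiv.Perm P.FSt) ^ j) s) := by
  have ho : 0 < orderOf (pN : Equiv.Perm P.FSt) := orderOf_pos _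
  set n := orderOf (pN : Equiv.Perm P.FSt) with hn
  have hn1 : (pN : Equiv.Perm P.FSt) ^ n = 1 := pow_orderOf_eq_one _
  constructor
  · refine ⟨(z + n * |z|).toNat, ?_⟩
    have h0 : 0 ≤ z + n * |z| := by
      have h1 : (1 : ℤ) ≤ n := by exact_mod_cast ho
      have h2 := neg_abs_le z
      nlinarith [abs_nonneg z]
    rw [← zpow_natCast, Int.toNat_of_nonneg h0, zpow_add, zpow_mul, zpow_natCast, hn1, one_zpow,
      mul_one]
    exact h
  · refine ⟨(-z + n * |z|).toNat, ?_⟩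
    have h0 : 0 ≤ -z + n * |z| := by
      have h1 : (1 : ℤ) ≤ n := by exact_mod_cast ho
      have h2 := le_abs_self z
      nlinarith [abs_nonneg z]
    have h3 : (pN⁻¹ : Equiv.Perm P.FSt) ^ n = 1 := by rw [inv_pow, hn1, inv_one]
    rw [← zpow_natCast, Int.toNat_of_nonneg h0, zpow_add, zpow_mul, zpow_natCast, h3, one_zpow,
      mul_one, inv_zpow', neg_neg]
    exact h

lemma ex_stop {f : P.Facet} (hf : ¬ A.L f) :
    (∃ j : ℕ, A.stopU ((pN ^ j) (A.can f))) ∧
      ∃ j : ℕ, A.stopD (((pN⁻¹ : Equiv.Perm P.FSt) ^ j) (A.can f)) := by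
  obtain ⟨z, h1, g, h2, h3⟩ := A.cov f hf
  have hty : A.ty ((pN ^ z) (A.can f)) = A.τ g := by rw [h2, A.ty_can]
  refine ⟨(exists_pow (A.can f) z A.stopU ?_).1, (exists_pow (A.can f) z A.stopD ?_).2⟩
  · intro hh
    rw [hty] at hh
    rcases hh.2 with h | h <;> revert h3 <;> cases hτ : A.τ g <;> simp_all [Ty.wp, Ty.frN]
  · intro hh
    rw [hty] at hh
    rcases hh.2 with h | h <;> revert h3 <;> cases hτ : A.τ g <;> simp_all [Ty.wp, Ty.frS]

/-- the facet at the south step -/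
lemma south_eq {s : P.FSt} {g : P.Facet} (h : pN⁻¹ s = A.can g) : (A.can g).stN = s := by
  rw [← h]
  show pN (pN⁻¹ s) = s
  simp

/-- the facet is hung on its southern neighbour -/
def PD (f : P.Facet) : Prop :=
  ((A.τ f = Ty.o ∧ ¬ A.K (A.can f).r2) ∨ (A.τ f).frS = true) ∧
    A.cn (((pN⁻¹ : Equiv.Perm P.FSt) ^ A.jD (A.can f)) (A.can f))

variable {A} in
lemma PD_weak {f : P.Facet} (h : (A.τ f = Ty.o ∧ ¬ A.K (A.can f).r2) ∨ (A.τ f).frS = true) :
    A.τ f = Ty.o ∨ (A.τ f).frS = true := h.imp And.left id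

open Classical in
/-- the west end of the run of a facet -/
noncomputable def ρ (f : P.Facet) : P.Facet :=
  if A.PD f then (((pN⁻¹ : Equiv.Perm P.FSt) ^ A.jD (A.can f)) (A.can f)).facet
  else ((pN ^ A.jU (A.can f)) (A.can f)).facet

open Classical in
/-- the offset of a facet -/
noncomputable def ζ (f : P.Facet) : ℤ :=
  if A.PD f then (A.jD (A.can f) : ℤ) else -(A.jU (A.can f) : ℤ)

lemma not_stopD {f : P.Facet} (hf : ¬ A.L f) (h : A.τ f = Ty.o ∨ (A.τ f).frS = true) :
    ¬ A.stopD (A.can f) := by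
  unfold stopD
  rw [not_not, A.ty_can]
  exact ⟨A.cn_can hf, h⟩

lemma not_stopU {f : P.Facet} (hf : ¬ A.L f) (h : A.τ f = Ty.o ∨ (A.τ f).frN = true) :
    ¬ A.stopU (A.can f) := by
  unfold stopU
  rw [not_not, A.ty_can]
  exact ⟨A.cn_can hf, h⟩

lemma stopU_of_wp {f : P.Facet} (h : (A.τ f).wp = true) : A.stopU (A.can f) := by
  intro hh
  rw [A.ty_can] at hh
  rcases hh.2 with h' | h' <;> revert h <;> cases hτ : A.τ f <;> simp_all [Ty.wp, Ty.frN]

lemma stopD_of_wp {f : P.Facet} (h : (A.τ f).wp = true) : A.stopD (A.can f) := by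
  intro hh
  rw [A.ty_can] at hh
  rcases hh.2 with h' | h' <;> revert h <;> cases hτ : A.τ f <;> simp_all [Ty.wp, Ty.frS]

lemma not_PD_of_wp {f : P.Facet} (h : (A.τ f).wp = true) : ¬ A.PD f := by
  intro hh
  rcases PD_weak hh.1 with h' | h' <;> revert h <;> cases hτ : A.τ f <;>
    simp_all [Ty.wp, Ty.frS]

lemma base_of_wp {f : P.Facet} (h : (A.τ f).wp = true) : A.ρ f = f ∧ A.ζ f = 0 := by
  have h0 : A.jU (A.can f) = 0 := srch_zero (A.stopU_of_wp h)
  unfold ρ ζ
  rw [if_neg (A.not_PD_of_wp h), if_neg (A.not_PD_of_wp h), h0]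
  simp [A.can_facet]

/-- A canonical oriented facet below a facet of type `o`, `N2`, `N3` is again of this kind or has a
west port. -/
lemma below {f g : P.Facet} (hf : A.τ f = Ty.o ∨ (A.τ f).frS = true)
    (hg : (A.can g).stN = A.can f) :
    (A.τ g = Ty.o ∨ (A.τ g).frS = true) ∨ (A.τ g).wp = true := by
  by_cases h : (A.τ g).frN = true
  · obtain ⟨f', h1, h2⟩ := A.hS g h
    have : f' = f := A.can_inj (by rw [← h1, hg])
    subst this
    rcases hf with h' | h' <;> revert h2 <;> cases hτ : A.τ f' <;> simp_all [Ty.goS, Ty.frS]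
  · revert h
    cases hτ : A.τ g <;> simp [Ty.frN, Ty.frS, Ty.wp]

/-- A canonical oriented facet above a facet of type `o`, `S2`, `S3` is again of this kind or has a
west port. -/
lemma above {f g : P.Facet} (hf : A.τ f = Ty.o ∨ (A.τ f).frN = true)
    (hg : (A.can f).stN = A.can g) :
    (A.τ g = Ty.o ∨ (A.τ g).frN = true) ∨ (A.τ g).wp = true := by
  by_cases h : (A.τ g).frS = true
  · obtain ⟨f', h1, h2⟩ := A.hN' g h
    have : f' = f := A.can_inj (pN.injective (by show (A.can f').stN = (A.can f).stN; rw [h1, hg]))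
    subst this
    rcases hf with h' | h' <;> revert h2 <;> cases hτ : A.τ f' <;> simp_all [Ty.goN, Ty.frN]
  · revert h
    cases hτ : A.τ g <;> simp [Ty.frN, Ty.frS, Ty.wp]

lemma pow_step (π : Equiv.Perm P.FSt) (j : ℕ) (s : P.FSt) : (π ^ (j + 1)) s = (π ^ j) (π s) := by
  rw [pow_succ]; rfl

/-- hanging on the southern neighbour -/
lemma stepD {f : P.Facet} (hf : ¬ A.L f) (h : A.PD f) :
    ∃ g, ¬ A.L g ∧ (A.can g).stN = A.can f ∧ A.ρ g = A.ρ f ∧ A.ζ g = A.ζ f - 1 := by
  obtain ⟨h1', h2⟩ := h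
  have h1 := PD_weak h1'
  have hex := (A.ex_stop hf).2
  have hns := A.not_stopD hf h1
  have hstep : A.jD (A.can f) = A.jD (pN⁻¹ (A.can f)) + 1 := srch_step hns hex
  have hpf : ((pN⁻¹ : Equiv.Perm P.FSt) ^ A.jD (A.can f)) (A.can f) =
      ((pN⁻¹ : Equiv.Perm P.FSt) ^ A.jD (pN⁻¹ (A.can f))) (pN⁻¹ (A.can f)) := by
    rw [hstep, pow_step]
  have hρ : A.ρ f = (((pN⁻¹ : Equiv.Perm P.FSt) ^ A.jD (A.can f)) (A.can f)).facet := by
    unfold ρ; rw [if_pos ⟨h1', h2⟩]
  have hζ : A.ζ f = A.jD (A.can f) := by unfold ζ; rw [if_pos ⟨h1', h2⟩]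
  -- the southern neighbour is canonical
  have hcn : A.cn (pN⁻¹ (A.can f)) := by
    by_cases hs : A.stopD (pN⁻¹ (A.can f))
    · have h0 : A.jD (pN⁻¹ (A.can f)) = 0 := srch_zero hs
      rw [hpf, h0] at h2
      simpa using h2
    · unfold stopD at hs
      rw [not_not] at hs
      exact hs.1
  set g := (pN⁻¹ (A.can f)).facet with hg
  have hcan : pN⁻¹ (A.can f) = A.can g := hcn.1
  have hst := A.south_eq hcan
  refine ⟨g, hcn.2, hst, ?_⟩
  rcases A.below h1 hst with hb | hb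
  · have hPD : A.PD g := by
      refine ⟨?_, ?_⟩
      · rcases hb with hb | hb
        · left
          refine ⟨hb, fun hK => ?_⟩
          obtain ⟨-, -, g', -, k1, k2⟩ := A.K_S g hK
          have hg' : g' = f := A.can_inj (by rw [← k1, hst])
          rw [hg'] at k2
          rcases h1' with ⟨h3, h4⟩ | h3
          · rcases k2 with k2 | k2
            · exact h4 k2
            · rw [h3] at k2; simp [Ty.wp] at k2
          · obtain ⟨f', l1, l2⟩ := A.hN' f h3
            have hf' : f' = g := A.can_inj (pN.injective (by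
              show (A.can f').stN = (A.can g).stN
              rw [l1, hst]))
            rw [hf', hb] at l2
            simp [Ty.goN] at l2
        · exact Or.inr hb
      · rw [← hcan, ← hpf]; exact h2
    constructor
    · rw [hρ, hpf]
      unfold ρ
      rw [if_pos hPD, hcan]
    · rw [hζ, hstep, hcan]
      unfold ζ
      rw [if_pos hPD]
      push_cast; ring
  · obtain ⟨b1, b2⟩ := A.base_of_wp hb
    have h0 : A.jD (pN⁻¹ (A.can f)) = 0 := by rw [hcan]; exact srch_zero (A.stopD_of_wp hb)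
    rw [b1, b2, hρ, hζ, hpf, hstep, h0]
    simp [hcan, A.can_facet]

lemma PD_of_frS {f : P.Facet} (hf : (A.τ f).frS = true) : A.PD f := by
  refine ⟨Or.inr hf, ?_⟩
  have key : ∀ j ≤ A.jD (A.can f), ∃ g, ((pN⁻¹ : Equiv.Perm P.FSt) ^ j) (A.can f) = A.can g ∧
      ((A.τ g).frS = true ∨ (A.τ g).goN = true) := by
    intro j
    induction j with
    | zero => intro _; exact ⟨f, by simp, Or.inl hf⟩
    | succ j ih =>
      intro hj
      obtain ⟨g, g1, g2⟩ := ih (by omega)
      have hns := srch_not (show j < srch (pN⁻¹ : Equiv.Perm P.FSt) A.stopD (A.can f) from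
        by unfold jD at hj; omega)
      rw [g1] at hns
      unfold stopD at hns
      rw [not_not, A.ty_can] at hns
      have hfr : (A.τ g).frS = true := by
        rcases hns.2 with h' | h'
        · rw [h'] at g2; simp [Ty.frS, Ty.goN] at g2
        · exact h'
      obtain ⟨g', k1, k2⟩ := A.hN' g hfr
      refine ⟨g', ?_, Or.inr k2⟩
      rw [pow_succ', Equiv.Perm.mul_apply, g1, ← k1]
      exact (pN : Equiv.Perm P.FSt).symm_apply_apply (A.can g')
  obtain ⟨g, g1, g2⟩ := key _ le_rfl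
  rw [g1]
  exact A.cn_can (by rcases g2 with g2 | g2; exacts [A.reg_frS g2, A.reg_goN g2])

/-- hanging on the northern neighbour -/
lemma stepU {f : P.Facet} (hf : ¬ A.L f) (h : ¬ A.PD f) (hw : (A.τ f).wp = false) :
    ∃ g, ¬ A.L g ∧ (A.can f).stN = A.can g ∧ A.ρ g = A.ρ f ∧ A.ζ g = A.ζ f + 1 := by
  have hex := (A.ex_stop hf).1
  have hexD := (A.ex_stop hf).2
  -- the type of `f`
  have h1 : A.τ f = Ty.o ∨ (A.τ f).frN = true := by
    by_cases h' : (A.τ f).frS = true
    · exact absurd (A.PD_of_frS h') h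
    · revert h' hw; cases hτ : A.τ f <;> simp [Ty.frS, Ty.frN, Ty.wp]
  have hns := A.not_stopU hf h1
  have hstep : A.jU (A.can f) = A.jU (pN (A.can f)) + 1 := srch_step hns hex
  have hpf : ((pN : Equiv.Perm P.FSt) ^ A.jU (A.can f)) (A.can f) =
      ((pN : Equiv.Perm P.FSt) ^ A.jU (pN (A.can f))) (pN (A.can f)) := by
    rw [hstep, pow_step]
  have hρ : A.ρ f = ((pN ^ A.jU (A.can f)) (A.can f)).facet := by
    unfold ρ; rw [if_neg h]
  have hζ : A.ζ f = -(A.jU (A.can f) : ℤ) := by unfold ζ; rw [if_neg h]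
  -- the northern neighbour is canonical
  have hcn : A.cn (pN (A.can f)) := by
    by_cases hK : A.K (A.can f).r2
    · obtain ⟨-, -, g, k0, k1, -⟩ := A.K_S f hK
      show A.cn ((A.can f).stN)
      rw [k1]; exact A.cn_can k0
    rcases h1 with h1 | h1
    · -- type o: by coverage
      have hD : ¬ A.cn (((pN⁻¹ : Equiv.Perm P.FSt) ^ A.jD (A.can f)) (A.can f)) := by
        intro hh; exact h ⟨Or.inl ⟨h1, hK⟩, hh⟩
      obtain ⟨z, z1, g, z2, z3⟩ := A.cov f hf
      rcases le_or_gt z 0 with hz | hz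
      · exfalso
        have hst : A.stopD (((pN⁻¹ : Equiv.Perm P.FSt) ^ (-z).toNat) (A.can f)) := by
          rw [← zpow_natCast, Int.toNat_of_nonneg (by omega), inv_zpow', neg_neg, z2]
          exact A.stopD_of_wp z3
        have hle : A.jD (A.can f) ≤ (-z).toNat := Nat.sInf_le hst
        apply hD
        obtain ⟨g', hL', hg'⟩ := z1 (-(A.jD (A.can f) : ℤ)) (by
          rw [Set.mem_uIcc]; right; constructor <;> omega)
        have : ((pN⁻¹ : Equiv.Perm P.FSt) ^ A.jD (A.can f)) (A.can f) = A.can g' := by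
          rw [← zpow_natCast, inv_zpow', hg']
        rw [this]; exact A.cn_can hL'
      · obtain ⟨g', hL', hg'⟩ := z1 1 (by rw [Set.mem_uIcc]; left; constructor <;> omega)
        rw [zpow_one] at hg'
        rw [hg']; exact A.cn_can hL'
    · obtain ⟨g, g1, g2⟩ := A.hS f h1
      show A.cn ((A.can f).stN)
      rw [g1]; exact A.cn_can (A.reg_goS g2)
  set g := (pN (A.can f)).facet with hg
  have hcan : pN (A.can f) = A.can g := hcn.1
  have hst : (A.can f).stN = A.can g := hcan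
  refine ⟨g, hcn.2, hst, ?_⟩
  rcases A.above h1 hst with hb | hb
  · have hPD : ¬ A.PD g := by
      intro hPg
      rcases hb with hb | hb
      · -- τ g = o, so τ f = o, and the search from `g` passes through `f`
        have hfo : A.τ f = Ty.o := by
          rcases h1 with h1 | h1
          · exact h1
          · obtain ⟨g', k1, k2⟩ := A.hS f h1
            have : g' = g := A.can_inj (by rw [← k1, hst])
            subst this
            rw [hb] at k2; simp [Ty.goS] at k2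
        have hns' := A.not_stopD (f := g) hcn.2 (Or.inl hb)
        have hback : pN⁻¹ (A.can g) = A.can f := by
          rw [← hst]; exact (pN : Equiv.Perm P.FSt).symm_apply_apply (A.can f)
        have hs' : A.jD (A.can g) = A.jD (pN⁻¹ (A.can g)) + 1 :=
          srch_step hns' (A.ex_stop hcn.2).2
        have h2 := hPg.2
        rw [hs', pow_step, hback] at h2
        refine h ⟨Or.inl ⟨hfo, fun hK => ?_⟩, h2⟩
        obtain ⟨-, -, g', -, k1, k2⟩ := A.K_S f hK
        have hg' : g' = g := A.can_inj (by rw [← k1, hst])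
        rw [hg'] at k2
        rcases hPg.1 with ⟨-, h4⟩ | h4
        · rcases k2 with k2 | k2
          · exact h4 k2
          · rw [hb] at k2; simp [Ty.wp] at k2
        · rw [hb] at h4; simp [Ty.frS] at h4
      · exact Ty.frN_not _ hb (PD_weak hPg.1)
    constructor
    · rw [hρ, hpf]
      unfold ρ
      rw [if_neg hPD, hcan]
    · rw [hζ, hstep, hcan]
      unfold ζ
      rw [if_neg hPD]
      push_cast; ring
  · obtain ⟨b1, b2⟩ := A.base_of_wp hb
    have h0 : A.jU (pN (A.can f)) = 0 := by rw [hcan]; exact srch_zero (A.stopU_of_wp hb)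
    rw [b1, b2, hρ, hζ, hpf, hstep, h0]
    simp [hcan, A.can_facet]

/-- position of a facet above a facet with a west port, all facets between are unoccupied -/
lemma pos_above {b' : P.Facet} (hb : (A.τ b').wp = true) : ∀ n : ℕ,
    (∀ i : ℕ, 1 ≤ i → i ≤ n → ∃ h, ¬ A.L h ∧ (pN ^ (i : ℤ)) (A.can b') = A.can h ∧
      A.τ h = Ty.o ∧ ¬ A.K (A.can h).r2) →
    ∃ g, (pN ^ (n : ℤ)) (A.can b') = A.can g ∧ ¬ A.L g ∧ A.ρ g = b' ∧ A.ζ g = n := by
  intro n hn
  -- the search to the south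
  have key : ∀ m : ℕ, m ≤ n → ∀ g, (pN ^ (m : ℤ)) (A.can b') = A.can g → ¬ A.L g →
      A.jD (A.can g) = m := by
    intro m
    induction m with
    | zero =>
      intro _ g hg _
      have : b' = g := A.can_inj (by simpa using hg)
      subst this
      exact srch_zero (A.stopD_of_wp hb)
    | succ m ih =>
      intro hm g hg hLg
      obtain ⟨h, h1, h2, h3, -⟩ := hn (m + 1) (by omega) hm
      have hgh : g = h := A.can_inj (by rw [← hg, ← h2])
      subst hgh
      have hns := A.not_stopD hLg (Or.inl h3)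
      have hstep : A.jD (A.can g) = A.jD (pN⁻¹ (A.can g)) + 1 := srch_step hns (A.ex_stop hLg).2
      have hprev : pN⁻¹ (A.can g) = (pN ^ (m : ℤ)) (A.can b') := by
        rw [← hg, ← zpow_neg_one, ← Equiv.Perm.mul_apply, ← zpow_add]
        congr 2
        push_cast; ring
      rw [hstep, hprev]
      rcases Nat.eq_zero_or_pos m with h0 | h0
      · subst h0
        have := ih (by omega) b' (by simp) (A.reg_wp hb)
        rw [show ((pN ^ ((0 : ℕ) : ℤ)) (A.can b') : P.FSt) = A.can b' by simp, this]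
      · obtain ⟨h', k1, k2, -⟩ := hn m h0 (by omega)
        rw [k2, ih (by omega) h' k2 k1]
  rcases Nat.eq_zero_or_pos n with h0 | h0
  · subst h0
    obtain ⟨b1, b2⟩ := A.base_of_wp hb
    exact ⟨b', by simp, A.reg_wp hb, b1, by simpa using b2⟩
  · obtain ⟨g, k1, k2, k3⟩ := hn n h0 le_rfl
    have hj := key n le_rfl g k2 k1
    have hback : ((pN⁻¹ : Equiv.Perm P.FSt) ^ n) (A.can g) = A.can b' := by
      rw [← k2, ← zpow_natCast, inv_zpow', ← Equiv.Perm.mul_apply, ← zpow_add]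
      simp
    have hPD : A.PD g := by
      refine ⟨Or.inl k3, ?_⟩
      rw [hj, hback]; exact A.cn_can (A.reg_wp hb)
    refine ⟨g, k2, k1, ?_, ?_⟩
    · unfold ρ
      rw [if_pos hPD, hj, hback, A.can_facet]
    · unfold ζ
      rw [if_pos hPD, hj]

/-- position of a facet below a facet with a west port, all facets between are unoccupied and hang
on their northern neighbours -/
lemma pos_below {b' : P.Facet} (hb : (A.τ b').wp = true) : ∀ n : ℕ,
    (∀ i : ℕ, 1 ≤ i → i ≤ n → ∃ h, ¬ A.L h ∧ (pN ^ (-(i : ℤ))) (A.can b') = A.can h ∧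
      A.τ h = Ty.o ∧ A.K (A.can h).r2) →
    ∃ g, (pN ^ (-(n : ℤ))) (A.can b') = A.can g ∧ ¬ A.L g ∧ A.ρ g = b' ∧ A.ζ g = -(n : ℤ) := by
  intro n hn
  have key : ∀ m : ℕ, m ≤ n → ∀ g, (pN ^ (-(m : ℤ))) (A.can b') = A.can g → ¬ A.L g →
      A.jU (A.can g) = m := by
    intro m
    induction m with
    | zero =>
      intro _ g hg _
      have : b' = g := A.can_inj (by simpa using hg)
      subst this
      exact srch_zero (A.stopU_of_wp hb)
    | succ m ih =>
      intro hm g hg hLg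
      obtain ⟨h, h1, h2, h3, -⟩ := hn (m + 1) (by omega) hm
      have hgh : g = h := A.can_inj (by rw [← hg, ← h2])
      subst hgh
      have hns := A.not_stopU hLg (Or.inl h3)
      have hstep : A.jU (A.can g) = A.jU (pN (A.can g)) + 1 := srch_step hns (A.ex_stop hLg).1
      have hnext : pN (A.can g) = (pN ^ (-(m : ℤ))) (A.can b') := by
        rw [← hg, ← Equiv.Perm.mul_apply, ← zpow_one_add]
        congr 2
        push_cast; ring
      rw [hstep, hnext]
      rcases Nat.eq_zero_or_pos m with h0 | h0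
      · subst h0
        have := ih (by omega) b' (by simp) (A.reg_wp hb)
        rw [show ((pN ^ (-((0 : ℕ) : ℤ))) (A.can b') : P.FSt) = A.can b' by simp, this]
      · obtain ⟨h', k1, k2, -⟩ := hn m h0 (by omega)
        rw [k2, ih (by omega) h' k2 k1]
  rcases Nat.eq_zero_or_pos n with h0 | h0
  · subst h0
    obtain ⟨b1, b2⟩ := A.base_of_wp hb
    exact ⟨b', by simp, A.reg_wp hb, b1, by simpa using b2⟩
  · obtain ⟨g, k1, k2, k3, k4⟩ := hn n h0 le_rfl
    have hj := key n le_rfl g k2 k1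
    have hback : ((pN : Equiv.Perm P.FSt) ^ n) (A.can g) = A.can b' := by
      rw [← k2, ← zpow_natCast, ← Equiv.Perm.mul_apply, ← zpow_add]
      simp
    have hPD : ¬ A.PD g := by
      rintro ⟨h1 | h1, -⟩
      · exact h1.2 k4
      · rw [k3] at h1; simp [Ty.frS] at h1
    refine ⟨g, k2, k1, ?_, ?_⟩
    · unfold ρ
      rw [if_neg hPD, hj, hback, A.can_facet]
    · unfold ζ
      rw [if_neg hPD, hj]

variable {A} in
lemma can_ne_r2 (f g : P.Facet) : A.can f ≠ (A.can g).r2 := by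
  intro h
  have : f = g := by
    rw [← A.can_facet f, h, FSt.facet_r2, A.can_facet]
  subst this
  exact FSt.r2_ne _ h.symm

lemma line_N {b' : P.Facet} (n : ℕ)
    (h : ∀ i : ℕ, 1 ≤ i → i ≤ n → A.K ((pN ^ (i : ℤ)) (A.can b'))) :
    ∀ i : ℕ, 1 ≤ i → i ≤ n → ∃ h, ¬ A.L h ∧ (pN ^ (i : ℤ)) (A.can b') = A.can h ∧
      A.τ h = Ty.o ∧ ¬ A.K (A.can h).r2 := by
  have key : ∀ i : ℕ, i ≤ n → ∃ h, (pN ^ (i : ℤ)) (A.can b') = A.can h := by
    intro i
    induction i with
    | zero => intro _; exact ⟨b', by simp⟩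
    | succ i ih =>
      intro hi
      obtain ⟨h', k1⟩ := ih (by omega)
      have hK := h (i + 1) (by omega) hi
      have e : (pN ^ ((i + 1 : ℕ) : ℤ)) (A.can b') = (A.can h').stN := by
        push_cast
        rw [pN_zpow_succ, k1]
      rw [e] at hK ⊢
      rcases A.K_act _ hK with k2 | k2
      · exact ⟨_, k2⟩
      · exfalso
        rw [k2] at hK
        obtain ⟨-, -, g, -, k3, -⟩ := A.K_S _ hK
        have k4 := FSt.stN_inv (A.can h')
        rw [k2, FSt.r2_r2, k3] at k4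
        exact can_ne_r2 _ _ k4
  intro i h1 h2
  obtain ⟨g, k1⟩ := key i h2
  have hK := h i h1 h2
  rw [k1] at hK
  obtain ⟨k2, k3, -⟩ := A.K_N _ hK
  exact ⟨g, k2, k1, k3, A.K_nc _ hK⟩

lemma line_S {b' : P.Facet} (n : ℕ)
    (h : ∀ i : ℕ, 1 ≤ i → i ≤ n → A.K ((pN ^ (i : ℤ)) (A.can b').r2)) :
    ∀ i : ℕ, 1 ≤ i → i ≤ n → ∃ h, ¬ A.L h ∧ (pN ^ (-(i : ℤ))) (A.can b') = A.can h ∧
      A.τ h = Ty.o ∧ A.K (A.can h).r2 := by
  have h' : ∀ i : ℕ, 1 ≤ i → i ≤ n → A.K ((pN ^ (-(i : ℤ))) (A.can b')).r2 := by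
    intro i h1 h2
    have := h i h1 h2
    rwa [FSt.stN_r2_pow] at this
  have key : ∀ i : ℕ, i ≤ n → ∃ h, (pN ^ (-(i : ℤ))) (A.can b') = A.can h := by
    intro i
    induction i with
    | zero => intro _; exact ⟨b', by simp⟩
    | succ i ih =>
      intro hi
      obtain ⟨f, k1⟩ := ih (by omega)
      have hK := h' (i + 1) (by omega) hi
      set s := (pN ^ (-((i + 1 : ℕ) : ℤ))) (A.can b') with hs
      have e : s.stN = A.can f := by
        rw [← k1, hs, ← pN_zpow_succ]
        congr 2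
        push_cast; ring
      rcases A.K_act _ hK with k2 | k2
      · exfalso
        rw [k2] at hK
        obtain ⟨-, -, g, -, k3, -⟩ := A.K_N _ hK
        have k4 := FSt.stN_inv (A.can g)
        rw [k3, ← k2, FSt.r2_r2, e] at k4
        exact can_ne_r2 _ _ k4
      · refine ⟨s.facet, ?_⟩
        have := congrArg FSt.r2 k2
        simpa using this
  intro i h1 h2
  obtain ⟨g, k1⟩ := key i h2
  have hK := h' i h1 h2
  rw [k1] at hK
  obtain ⟨k2, k3, -⟩ := A.K_S _ hK
  exact ⟨g, k2, k1, k3, hK⟩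

/-- position of a facet that hangs on a state with a west port -/
lemma pos_K {b' : P.Facet} (hb : (A.τ b').wp = true) {t : P.FSt}
    (ht : t = A.can b' ∨ t = (A.can b').r2) (n : ℕ)
    (h : ∀ i : ℕ, 1 ≤ i → i ≤ n → A.K ((pN ^ (i : ℤ)) t)) :
    ∃ g, ¬ A.L g ∧ A.ρ g = b' ∧
      ((t = A.can b' ∧ A.ζ g = n) ∨ (t = (A.can b').r2 ∧ A.ζ g = -(n : ℤ))) := by
  rcases ht with rfl | rfl
  · obtain ⟨g, -, k1, k2, k3⟩ := A.pos_above hb n (A.line_N n h)
    exact ⟨g, k1, k2, Or.inl ⟨rfl, k3⟩⟩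
  · obtain ⟨g, -, k1, k2, k3⟩ := A.pos_below hb n (A.line_S n h)
    exact ⟨g, k1, k2, Or.inr ⟨rfl, k3⟩⟩

end VCurve

end GridSolid

end Pool.Agent.Helper55.UNF
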