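import Pool.Agent.MP42.V.Vert
import Pool.Agent.Helper55.UNF.Sub

/-!
# The facets around a vertex: the 25 lists (helper73)

For a state `s` of a wall facet with vertical east `(2, b)` (so that the north-east corner is at the
level of its edge in direction `(2, b)`), the states `s, kappa s, kappa (kappa s), ..` around this
corner (`kappa s = s.stE.rL`) are one of 25 lists of pairs (kind, flag), see `vertex_list`.

Kinds (relative to `b`): `We`, `Wn`: wall facet on the same side of the level as `s`, its east,
north is `(2, b)`; `Ve`, `Vn`: wall facet on the other side, its east, north is `(2, !b)`; `A`: plate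
with normal `(2, !b)`; `B`: plate with normal `(2, b)`.

Upper walls of a junction: `b = false` (east is down): `W` = upper walls, `V` = lower walls, `A` =
floors (normal up), `B` = ceilings.  Lower walls: `b = true`: `W` = lower walls, `V` = upper walls,
`A` = ceilings, `B` = floors.

Flags: the edge from `t` to `kappa t` (the east side of `t`): `c` concave, `f` flat, `v` convex.

For a rim state `r` (north `(2, !b)`, the junction in the south): `r.rR` has east `(2, b)`, its
list is the walk around the south-east corner of `r`: `kappa r.rR = pN.symm r`, ..,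
`r.stE.r2`, `r.rR`.
-/

set_option autoImplicit false
set_option linter.unusedSectionVars false

namespace Pool.Agent.MP42V

open Pool.Agent.Helper55.UNF Pool.Agent.Helper55.UNF.GridSolid Pool.Agent.MP42.Geo

variable {P : GridSolid}

/-- kinds of the facets around a corner -/
inductive Kd
  | We | Wn | Ve | Vn | A | B
  deriving DecidableEq, Repr

/-- kinds of edges: concave, flat, convex -/
inductive Fl
  | c | f | v
  deriving DecidableEq, Repr

/-- the kind of a facet; `(2, b)` is the direction from the first wall to the corner -/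
def kd (b : Bool) (s : St) : Kd :=
  if s.d = (2, !b) then Kd.A else if s.d = (2, b) then Kd.B
  else if s.e = (2, b) then Kd.We else if s.n = (2, b) then Kd.Wn
  else if s.e = (2, !b) then Kd.Ve else Kd.Vn

/-- the kind of the east side of a state -/
def flag (P : GridSolid) (s : St) : Fl :=
  if shift (shift s.c s.e) s.d ∈ P.cells then Fl.c
  else if shift s.c s.e ∈ P.cells then Fl.f else Fl.v

/-- the kind in the standard frame -/
def ak (t : Dir × Dir × Dir) : Kd :=
  if t.1 = (1, false) then Kd.A else if t.1 = (1, true) then Kd.B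
  else if t.2.1 = (1, true) then Kd.We else if t.2.2 = (1, true) then Kd.Wn
  else if t.2.1 = (1, false) then Kd.Ve else Kd.Vn

/-- the flag of a pattern -/
def af (o : Bool → Bool → Bool → Bool) : Fl :=
  if o true true false then Fl.c else if o false true false then Fl.f else Fl.v

/-- The list of (kind, flag) of the states `t, kappa t, ..` up to the state `s`. -/
def IsL (b : Bool) : List (Kd × Fl) → P.FSt → P.FSt → Prop
  | [], t, s => t = s
  | p :: l, t, s => kd b t.1 = p.1 ∧ flag P t.1 = p.2 ∧ IsL b l (kappa t) s

open Kd Fl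

/-- the 25 lists -/
def lists : List (List (Kd × Fl)) :=
  [ -- three facets
   [(We, v), (B, v), (Wn, v)],
   [(We, c), (A, c), (Wn, c)],
   -- four facets
   [(We, f), (Vn, v), (Ve, f), (Wn, v)],
   [(We, f), (Vn, c), (Ve, f), (Wn, c)],
   [(We, f), (Vn, f), (Ve, f), (Wn, f)],
   [(We, v), (B, f), (B, v), (Wn, f)],
   [(We, c), (A, f), (A, c), (Wn, f)],
   -- 450
   [(We, v), (B, f), (B, f), (B, v), (Wn, c)],
   [(We, c), (A, f), (A, f), (A, c), (Wn, v)],
   -- one plate, four walls, the first rim turns
   [(We, c), (A, v), (Vn, f), (Ve, f), (Wn, v)],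
   [(We, f), (Vn, f), (Ve, v), (A, c), (Wn, v)],
   [(We, v), (B, c), (Vn, f), (Ve, f), (Wn, c)],
   [(We, f), (Vn, f), (Ve, c), (B, v), (Wn, c)],
   -- one plate, four walls, the second rim turns
   [(We, v), (B, c), (Vn, v), (Ve, f), (Wn, f)],
   [(We, f), (Vn, v), (Ve, c), (B, v), (Wn, f)],
   [(We, f), (Vn, c), (Ve, v), (A, c), (Wn, f)],
   [(We, c), (A, v), (Vn, c), (Ve, f), (Wn, f)],
   -- claw
   [(We, c), (A, v), (Vn, c), (Ve, v), (A, c), (Wn, v)],
   [(We, v), (B, c), (Vn, v), (Ve, c), (B, v), (Wn, c)],
   -- crossing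
   [(We, v), (B, c), (Vn, f), (Ve, v), (A, c), (Wn, f)],
   [(We, c), (A, v), (Vn, f), (Ve, c), (B, v), (Wn, f)],
   -- two adjacent plates and a seam
   [(We, c), (A, f), (A, v), (Vn, c), (Ve, f), (Wn, v)],
   [(We, f), (Vn, c), (Ve, v), (A, f), (A, c), (Wn, v)],
   [(We, v), (B, f), (B, c), (Vn, v), (Ve, f), (Wn, c)],
   [(We, f), (Vn, v), (Ve, c), (B, f), (B, v), (Wn, c)]]

/-- the abstract list -/
def kl (o : Bool → Bool → Bool → Bool) (n : ℕ) : List (Kd × Fl) :=
  (List.range n).map (fun i => (ak (an o i), af (itf o f0 i).1))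

/-- the check -/
def chk (o : Bool → Bool → Bool → Bool) : Bool :=
  (List.range 7).any fun n => decide (an o n = f0) && decide (kl o n ∈ lists) &&
    (List.range n).all fun i => i == 0 || !(decide (an o i = f0))

set_option maxRecDepth 100000 in
lemma chk_all : ∀ b c d b' c' d' : Bool, good (mk8 true b c d false b' c' d') →
    chk (mk8 true b c d false b' c' d') = true := by
  intro b c d b' c' d'
  cases b <;> cases c <;> cases d <;> cases b' <;> cases c' <;> cases d' <;> decide

lemma occ_000 (s : P.FSt) : occ P s.1 false false false = true := by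
  unfold occ cellAt bi
  simp
  exact s.2.1.1

lemma occ_100 (s : P.FSt) : occ P s.1 true false false = false := by
  have h : cellAt s.1 true false false = shift s.1.c s.1.d := by
    rw [shift_add]; unfold cellAt bi; simp
  unfold occ
  rw [h, decide_eq_false_iff_not]
  exact s.2.1.2

/-- moving to the other side along the first direction -/
lemma cell_d (s : St) (i j k : Bool) :
    cellAt s (!i) j k = shift (cellAt s i j k) (s.d.1, if i then !s.d.2 else s.d.2) := by
  rw [shift_add]
  have h : ((s.d.1, if i then !s.d.2 else s.d.2) : Dir) = if i then opp s.d else s.d := by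
    cases i <;> rfl
  rw [h]
  unfold cellAt
  rw [bi_not]
  cases i
  · have e2 : bi false = 0 := rfl
    rw [if_neg (by decide), e2]
    module
  · have e1 : bi true = 1 := rfl
    rw [if_pos rfl, e1, vec_opp]
    module

lemma cell_e (s : St) (i j k : Bool) :
    cellAt s i (!j) k = shift (cellAt s i j k) (s.e.1, if j then !s.e.2 else s.e.2) := by
  rw [shift_add]
  have h : ((s.e.1, if j then !s.e.2 else s.e.2) : Dir) = if j then opp s.e else s.e := by
    cases j <;> rfl
  rw [h]
  unfold cellAt
  rw [bi_not]
  cases j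
  · have e2 : bi false = 0 := rfl
    rw [if_neg (by decide), e2]
    module
  · have e1 : bi true = 1 := rfl
    rw [if_pos rfl, e1, vec_opp]
    module

lemma cell_n (s : St) (i j k : Bool) :
    cellAt s i j (!k) = shift (cellAt s i j k) (s.n.1, if k then !s.n.2 else s.n.2) := by
  rw [shift_add]
  have h : ((s.n.1, if k then !s.n.2 else s.n.2) : Dir) = if k then opp s.n else s.n := by
    cases k <;> rfl
  rw [h]
  unfold cellAt
  rw [bi_not]
  cases k
  · have e2 : bi false = 0 := rfl
    rw [if_neg (by decide), e2]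
    module
  · have e1 : bi true = 1 := rfl
    rw [if_pos rfl, e1, vec_opp]
    module

lemma na_of {p q r s : Bool} (h : p = true → q = true → r = true ∨ s = true) :
    na p q r s = true := by
  unfold na
  cases p <;> cases q <;> cases r <;> cases s <;> simp_all

lemma good_occ (hP : P.IsManifold) (s : P.FSt) : good (occ P s.1) := by
  have hde := s.2.2
  have h1 : s.1.n.1 ≠ s.1.d.1 := cross_axis_left _ _ hde
  have h2 : s.1.n.1 ≠ s.1.e.1 := cross_axis_right _ _ hde
  intro i j k
  refine ⟨?_, ?_, ?_⟩
  · apply na_of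
    unfold occ
    simp only [decide_eq_true_eq]
    intro p q
    rw [cell_e, cell_d] at q
    have := hP.1 _ _ _ _ _ hde p q
    rw [← cell_d, ← cell_e] at this
    exact this
  · apply na_of
    unfold occ
    simp only [decide_eq_true_eq]
    intro p q
    rw [cell_n, cell_d] at q
    have := hP.1 _ _ _ _ _ h1.symm p q
    rw [← cell_d, ← cell_n] at this
    exact this
  · apply na_of
    unfold occ
    simp only [decide_eq_true_eq]
    intro p q
    rw [cell_n, cell_e] at q
    have := hP.1 _ _ _ _ _ h2.symm p q
    rw [← cell_e, ← cell_n] at this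
    exact this

lemma chk_occ (hP : P.IsManifold) (s : P.FSt) : chk (occ P s.1) = true := by
  have h := good_occ hP s
  rw [eq_mk8 (occ P s.1), occ_000, occ_100] at h ⊢
  exact chk_all _ _ _ _ _ _ h

/-- equal frames: equal states -/
lemma kappa_eq (hP : P.IsManifold) (s : P.FSt) (n : ℕ) (h : an (occ P s.1) n = f0) :
    kappa^[n] s = s := by
  have h1 := fr_it s n
  rw [h] at h1
  have h2 : fr (kappa^[n] s).1 = fr s.1 := by
    rw [h1]
    exact rd_id _
  have hn : (kappa^[n] s).1.n = s.1.n := congrArg (fun t => t.2.2) h2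
  apply state_unique hP _ _ hn
  have hc := kappa_iter_cor s n
  funext a
  have := congrFun hc a
  unfold cor at this
  rw [hn] at this
  linarith

lemma kappa_ne (s : P.FSt) (n : ℕ) (h : an (occ P s.1) n ≠ f0) : kappa^[n] s ≠ s := by
  intro h0
  apply h
  have h1 := fr_it s n
  rw [h0] at h1
  -- the frame map is injective
  have key : ∀ d e : Dir, d.1 ≠ e.1 → ∀ w w' : Dir,
      rd (d, e, cross d e) w = rd (d, e, cross d e) w' → w = w' := by
    unfold rd
    decide
  have inj := key s.1.d s.1.e s.2.2
  have hid := rd_id (fr s.1)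
  have e1 := congrArg (fun t => t.1) h1
  have e2 := congrArg (fun t => t.2.1) h1
  have e3 := congrArg (fun t => t.2.2) h1
  simp only at e1 e2 e3
  have i1 := congrArg (fun t => t.1) hid
  have i2 := congrArg (fun t => t.2.1) hid
  have i3 := congrArg (fun t => t.2.2) hid
  simp only at i1 i2 i3
  have f1 := inj _ _ (i1.trans e1)
  have f2 := inj _ _ (i2.trans e2)
  have f3 := inj _ _ (i3.trans e3)
  show an (occ P s.1) n = ((0, true), (1, true), (2, true))
  rw [f1, f2, f3]

/-- the kind of a state in the orbit -/
lemma kd_it (s : P.FSt) {b : Bool} (he : s.1.e = (2, b)) (n : ℕ) :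
    kd b (kappa^[n] s).1 = ak (an (occ P s.1) n) := by
  have h1 := fr_it s n
  generalize an (occ P s.1) n = t at *
  have e1 : (kappa^[n] s).1.d = rd (fr s.1) t.1 := congrArg (fun t => t.1) h1
  have e2 : (kappa^[n] s).1.e = rd (fr s.1) t.2.1 := congrArg (fun t => t.2.1) h1
  have e3 : (kappa^[n] s).1.n = rd (fr s.1) t.2.2 := congrArg (fun t => t.2.2) h1
  unfold kd ak
  rw [e1, e2, e3]
  have key : ∀ (d : Dir) (b : Bool), d.1 ≠ ((2, b) : Dir).1 → ∀ w : Dir,
      (rd (d, (2, b), cross d (2, b)) w = (2, b) ↔ w = (1, true)) ∧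
      (rd (d, (2, b), cross d (2, b)) w = (2, !b) ↔ w = (1, false)) := by
    unfold rd
    decide
  have hf : fr s.1 = (s.1.d, (2, b), cross s.1.d (2, b)) := by
    unfold fr St.n
    rw [he]
  have hd : s.1.d.1 ≠ ((2, b) : Dir).1 := by
    have := s.2.2
    rw [he] at this
    exact this
  have k := key s.1.d b hd
  rw [hf]
  simp only [(k _).1, (k _).2]

/-- the flag of a state in the orbit -/
lemma flag_occ (s : P.FSt) : flag P s.1 = af (occ P s.1) := by
  have e1 : cellAt s.1 true true false = shift (shift s.1.c s.1.e) s.1.d := by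
    rw [shift_add, shift_add]; unfold cellAt bi; simp; abel
  have e2 : cellAt s.1 false true false = shift s.1.c s.1.e := by
    rw [shift_add]; unfold cellAt bi; simp
  unfold flag af occ
  rw [e1, e2]
  simp only [decide_eq_true_eq]

lemma flag_it (s : P.FSt) (n : ℕ) :
    flag P (kappa^[n] s).1 = af (itf (occ P s.1) f0 n).1 := by
  rw [flag_occ]
  have h := congrArg Prod.fst (it_kappa s n)
  simp only at h
  rw [h, (itf_rd (occ P s.1) (fr s.1) n).1]

/-- lists of an orbit -/
lemma isL_map (b : Bool) (s : P.FSt) : ∀ (n : ℕ) (t : P.FSt) (g : ℕ → Kd × Fl),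
    (∀ i < n, kd b (kappa^[i] t).1 = (g i).1 ∧ flag P (kappa^[i] t).1 = (g i).2) →
    kappa^[n] t = s → IsL b ((List.range n).map g) t s := by
  intro n
  induction n with
  | zero => intro t g _ h; exact h
  | succ n ih =>
    intro t g h h2
    rw [List.range_succ_eq_map, List.map_cons, List.map_map]
    have h0 := h 0 (Nat.succ_pos n)
    refine ⟨h0.1, h0.2, ih (kappa t) (g ∘ Nat.succ) ?_ ?_⟩
    · intro i hi
      have h3 := h (i + 1) (by omega)
      rw [Function.iterate_succ_apply] at h3
      exact h3
    · rw [Function.iterate_succ_apply] at h2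
      exact h2

/-- **The facets around a corner.** -/
theorem vertex_list (hP : P.IsManifold) (s : P.FSt) {b : Bool} (he : s.1.e = (2, b)) :
    ∃ l ∈ lists, IsL b l s s ∧ ∀ i, 0 < i → i < l.length → kappa^[i] s ≠ s := by
  have h := chk_occ hP s
  unfold chk at h
  rw [List.any_eq_true] at h
  obtain ⟨n, -, h⟩ := h
  rw [Bool.and_eq_true, Bool.and_eq_true, decide_eq_true_eq, decide_eq_true_eq,
    List.all_eq_true] at h
  obtain ⟨⟨h1, h2⟩, h3⟩ := h
  refine ⟨_, h2, ?_, ?_⟩
  · exact isL_map b s n s _ (fun i _ => ⟨kd_it s he i, flag_it s i⟩) (kappa_eq hP s n h1)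
  · intro i hi hin
    have hl : (kl (occ P s.1) n).length = n := by unfold kl; simp
    rw [hl] at hin
    have h4 := h3 i (List.mem_range.2 hin)
    apply kappa_ne
    intro h5
    rw [h5] at h4
    have : (i == 0) = false := by
      rw [beq_eq_false_iff_ne]; omega
    rw [this] at h4
    simp at h4

/-- the step to the east across the east side, by its kind -/
lemma stE_flag (s : P.FSt) :
    (flag P s.1 = Fl.c → s.stE.1.d = opp s.1.e ∧ s.stE.1.e = s.1.d) ∧
    (flag P s.1 = Fl.f → s.stE.1.d = s.1.d ∧ s.stE.1.e = s.1.e) ∧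
    (flag P s.1 = Fl.v → s.stE.1.d = s.1.e ∧ s.stE.1.e = opp s.1.d) := by
  have h : s.stE.1 = s.1.stepE P := rfl
  rw [h]
  unfold flag St.stepE
  split_ifs with h1 h2 <;> simp

lemma kappa_stE (s : P.FSt) : s.stE = (kappa s).rR := by
  unfold kappa; rw [FSt.rL_rR]

/-! ## The corners after a refinement -/

section Sub

variable {r : ℕ} {hr : 0 < r}

/-- around a corner of the old grid -/
lemma kappa_sub_corner (s : P.FSt) :
    kappa (sub hr s (r - 1) (r - 1) (by omega) (by omega)) =
      sub hr (kappa s) (r - 1) (r - 1) (by omega) (by omega) := by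
  unfold kappa
  rw [sub_stE_end, sub_rL]
  exact sub_congr _ _ rfl rfl (by omega)

lemma kappa_sub_corner_it (s : P.FSt) (n : ℕ) :
    kappa^[n] (sub hr s (r - 1) (r - 1) (by omega) (by omega)) =
      sub hr (kappa^[n] s) (r - 1) (r - 1) (by omega) (by omega) := by
  induction n with
  | zero => rfl
  | succ n ih => rw [Function.iterate_succ_apply', Function.iterate_succ_apply', ih,
      kappa_sub_corner]

/-- inside a facet of the old grid: the four facets around the corner -/
lemma kappa_sub_mid (s : P.FSt) {x y : ℕ} (hx : x + 1 < r) (hy : y < r) :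
    kappa (sub hr s x y (by omega) hy) =
      sub hr s.rL y (r - 1 - (x + 1)) hy (by omega) := by
  unfold kappa
  rw [sub_stE_mid _ hx, sub_rL]

/-- across the east side of a facet of the old grid -/
lemma kappa_sub_end (s : P.FSt) {y : ℕ} (hy : y < r) :
    kappa (sub hr s (r - 1) y (by omega) hy) =
      sub hr s.stE.rL y (r - 1) hy (by omega) := by
  unfold kappa
  rw [sub_stE_end, sub_rL]
  exact sub_congr _ _ rfl rfl (by omega)

end Sub

end Pool.Agent.MP42V
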